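import Mathlib

/-!
# Logarithms of unitary matrices
-/

open Matrix Complex
open scoped Matrix.Norms.L2Operator Real

namespace Pool.Agent.W504.YM

noncomputable section

/-- Every unitary matrix is `exp (i H)` with `H` Hermitian of bounded norm. -/
lemma exists_log (N : ℕ) : ∃ C : ℝ, ∀ u ∈ Matrix.unitaryGroup (Fin N) ℂ,
    ∃ H : Matrix (Fin N) (Fin N) ℂ, Hᴴ = H ∧ NormedSpace.exp (Complex.I • H) = u ∧
      (trace (Hᴴ * H)).re ≤ C := by
  have hprop : ProperSpace (Matrix (Fin N) (Fin N) ℂ) := FiniteDimensional.proper ℂ _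
  have hcont : Continuous fun H : Matrix (Fin N) (Fin N) ℂ => (trace (Hᴴ * H)).re :=
    Complex.continuous_re.comp
      ((continuous_id.matrix_conjTranspose.matrix_mul continuous_id).matrix_trace)
  obtain ⟨C, hC⟩ := ((isCompact_closedBall (0 : Matrix (Fin N) (Fin N) ℂ) π).image
    hcont).bddAbove
  refine ⟨C, fun u hu => ?_⟩
  have hcts : ContinuousOn (fun z : ℂ => (arg z : ℂ)) (spectrum ℂ u) :=
    (Matrix.finite_spectrum u).continuousOn _
  have hnormal : IsStarNormal u := by
    constructor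
    show star u * u = u * star u
    rw [(Unitary.mem_iff.1 hu).1, (Unitary.mem_iff.1 hu).2]
  refine ⟨cfc (fun z : ℂ => (arg z : ℂ)) u, ?_, ?_, ?_⟩
  · have h1 : IsSelfAdjoint (cfc (fun z : ℂ => (arg z : ℂ)) u) := IsSelfAdjoint.cfc_arg u
    exact h1
  · rw [← CFC.exp_eq_normedSpace_exp (𝕜 := ℂ), ← cfc_comp_smul .., ← cfc_comp' ..]
    conv_rhs => rw [← cfc_id' ℂ u]
    refine cfc_congr fun y hy ↦ ?_
    have hy₁ : ‖y‖ = 1 := spectrum.norm_eq_one_of_unitary hu hy
    have h2 : Complex.I * y.arg = log y :=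
      Complex.ext (by simp [log_re, hy₁]) (by simp [log_im])
    have hy0 : y ≠ 0 := by
      intro h
      rw [h, norm_zero] at hy₁
      exact zero_ne_one hy₁
    simpa [← exp_eq_exp_ℂ, h2] using exp_log hy0
  · refine hC ⟨_, ?_, rfl⟩
    rw [mem_closedBall_zero_iff]
    exact norm_cfc_le (by positivity) fun y hy ↦ by simpa using abs_arg_le_pi y

end

end Pool.Agent.W504.YM
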