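import Mathlib
import Pool.Agent.H906R3.YM.Alg

/-!
# Bochner formulas for quotients of solutions of the heat equation

`A` is a commutative algebra of functions on `X`, `D j` (left) derivations with constant
commutators, `R j` derivations commuting with them.
-/

open Pool.Agent.H906R3.YM

namespace Pool.Agent.W504.YM

noncomputable section

/-- The abstract geometric data. -/
structure Geo (A : Type*) [CommRing A] [Algebra ℝ A] (J X : Type*) [Fintype J] [DecidableEq J]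
    [TopologicalSpace X] where
  D : J → Derivation ℝ A A
  R : J → Derivation ℝ A A
  ev : X → A →ₐ[ℝ] ℝ
  cont : ∀ f, Continuous fun x => ev x f
  ext : ∀ {f g : A}, (∀ x, ev x f = ev x g) → f = g
  sg : J → J → J → ℝ
  comm : ∀ i l f, D i (D l f) - D l (D i f) = ∑ k, sg i l k • D k f
  anti : ∀ i j k, sg i j k = -sg k j i
  RD : ∀ i j f, R i (D j f) = D j (R i f)
  LapD : ∀ j f, D j (Lap D f) = Lap D (D j f)
  max1 : ∀ f x, (∀ y, ev y f ≤ ev x f) → ∀ j, ev x (D j f) = 0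
  max2 : ∀ f x, (∀ y, ev y f ≤ ev x f) → ∀ j, ev x (D j (D j f)) ≤ 0
  inv : ∀ f, (∀ x, 0 < ev x f) → ∃ g, f * g = 1
  rot : X → J → J → ℝ
  rotD : ∀ x j f, ev x (D j f) = ∑ k, rot x j k * ev x (R k f)
  rotO : ∀ x j l, ∑ k, rot x j k * rot x l k = if j = l then 1 else 0
  I : A →ₗ[ℝ] ℝ
  I_D : ∀ j u, I (D j u) = 0
  I_mono : ∀ {f g : A}, (∀ x, ev x f ≤ ev x g) → I f ≤ I g
  I_one : I 1 = 1
  I_def : ∀ {f : A}, I (f * f) = 0 → f = 0
  K : ℝ
  K_pos : 0 < K
  curv : ∀ v : J → ℝ, 4 * K * ∑ k, v k ^ 2 ≤ ∑ i, ∑ j, (∑ k, sg i j k * v k) ^ 2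

variable {A : Type*} [CommRing A] [Algebra ℝ A] {J X : Type*} [Fintype J] [DecidableEq J]
    [TopologicalSpace X] (S : Geo A J X)

namespace Geo

/-- square of the gradient -/
def G2 (y : A) : A := ∑ j, S.D j y * S.D j y

/-- The right derivative in the direction `η`. -/
def Rη (η : J → ℝ) (f : A) : A := ∑ k, η k • S.R k f

variable {S}

lemma LapR (k : J) (f : A) : S.R k (Lap S.D f) = Lap S.D (S.R k f) := by
  unfold Lap
  rw [map_sum]
  exact Finset.sum_congr rfl fun j _ => by rw [S.RD, S.RD]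

lemma Lap_add (f g : A) : Lap S.D (f + g) = Lap S.D f + Lap S.D g := by
  unfold Lap
  rw [← Finset.sum_add_distrib]
  exact Finset.sum_congr rfl fun j _ => by rw [map_add, map_add]

lemma Lap_smul (c : ℝ) (f : A) : Lap S.D (c • f) = c • Lap S.D f := by
  unfold Lap
  rw [Finset.smul_sum]
  exact Finset.sum_congr rfl fun j _ => by rw [Derivation.map_smul, Derivation.map_smul]

lemma Lap_sum {ι : Type*} (s : Finset ι) (f : ι → A) :
    Lap S.D (∑ i ∈ s, f i) = ∑ i ∈ s, Lap S.D (f i) := by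
  unfold Lap
  rw [Finset.sum_comm]
  exact Finset.sum_congr rfl fun j _ => by rw [map_sum, map_sum]

lemma Rη_D (η : J → ℝ) (j : J) (f : A) : S.Rη η (S.D j f) = S.D j (S.Rη η f) := by
  unfold Rη
  rw [map_sum]
  exact Finset.sum_congr rfl fun k _ => by rw [Derivation.map_smul, S.RD]

lemma Rη_Lap (η : J → ℝ) (f : A) : S.Rη η (Lap S.D f) = Lap S.D (S.Rη η f) := by
  unfold Lap
  have : S.Rη η (∑ j, S.D j (S.D j f)) = ∑ j, S.Rη η (S.D j (S.D j f)) := by
    unfold Rη
    rw [Finset.sum_comm]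
    exact Finset.sum_congr rfl fun j _ => by rw [map_sum, Finset.smul_sum]
  rw [this]
  exact Finset.sum_congr rfl fun j _ => by rw [Rη_D, Rη_D]

lemma Rη_mul (η : J → ℝ) (f g : A) : S.Rη η (f * g) = f * S.Rη η g + g * S.Rη η f := by
  unfold Rη
  rw [Finset.mul_sum, Finset.mul_sum, ← Finset.sum_add_distrib]
  refine Finset.sum_congr rfl fun k _ => ?_
  rw [Derivation.leibniz, smul_add, smul_eq_mul, smul_eq_mul, mul_smul_comm, mul_smul_comm]

lemma D_inv {ψ p : A} (h : ψ * p = 1) (d : Derivation ℝ A A) : d p = -(p * p * d ψ) := by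
  have h1 := congrArg d h
  rw [Derivation.leibniz, Derivation.map_one_eq_zero, smul_eq_mul, smul_eq_mul] at h1
  linear_combination p * h1 - d p * h

/-- The quotient of two solutions: the right hand side of its evolution equation. -/
lemma quot_eq {ψ p u : A} (h : ψ * p = 1) :
    p * Lap S.D u - p * p * u * Lap S.D ψ =
      Lap S.D (p * u) + (2 : ℝ) • ∑ i, (p * S.D i ψ) * S.D i (p * u) := by
  have h1 : u = ψ * (p * u) := by rw [← mul_assoc, h, one_mul]
  have h2 : Lap S.D u = Lap S.D ψ * (p * u) + ψ * Lap S.D (p * u) +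
      (2 : ℝ) • Gam S.D ψ (p * u) := by
    conv_lhs => rw [h1]
    exact Lap_mul ψ (p * u)
  have h3 : ∑ i, (p * S.D i ψ) * S.D i (p * u) = p * Gam S.D ψ (p * u) := by
    unfold Gam
    rw [Finset.mul_sum]
    exact Finset.sum_congr rfl fun i _ => by ring
  rw [h3, h2, mul_add, mul_smul_comm, mul_add]
  have e1 : p * (ψ * Lap S.D (p * u)) = Lap S.D (p * u) := by
    rw [← mul_assoc, mul_comm p ψ, h, one_mul]
  rw [e1]; ring

/-- Bochner formula for `y' = Δ y + 2 ∑ g_i D_i y`. -/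
lemma bochner (g : J → A) (y y' : A)
    (h : y' = Lap S.D y + (2 : ℝ) • ∑ i, g i * S.D i y) :
    (2 : ℝ) • ∑ j, S.D j y * S.D j y' =
      Lap S.D (S.G2 y) + (2 : ℝ) • (∑ i, g i * S.D i (S.G2 y)) -
        (2 : ℝ) • (∑ i, ∑ j, S.D i (S.D j y) * S.D i (S.D j y)) +
        (4 : ℝ) • ∑ i, ∑ j, S.D j y * S.D i y * S.D j (g i) := by
  have hG : ∀ i, S.D i (S.G2 y) = (2 : ℝ) • ∑ j, S.D j y * S.D i (S.D j y) := by
    intro i
    unfold G2
    rw [map_sum, Finset.smul_sum]
    refine Finset.sum_congr rfl fun j _ => ?_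
    rw [Derivation.leibniz, smul_eq_mul, two_smul]
  have hL : Lap S.D (S.G2 y) = (2 : ℝ) • (∑ i, ∑ j, S.D i (S.D j y) * S.D i (S.D j y)) +
      (2 : ℝ) • ∑ j, S.D j y * Lap S.D (S.D j y) := by
    unfold Lap
    have h1 : ∀ i, S.D i (S.D i (S.G2 y)) =
        (2 : ℝ) • (∑ j, S.D i (S.D j y) * S.D i (S.D j y)) +
          (2 : ℝ) • ∑ j, S.D j y * S.D i (S.D i (S.D j y)) := by
      intro i
      rw [hG, Derivation.map_smul, map_sum, ← smul_add, ← Finset.sum_add_distrib]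
      congr 1
      refine Finset.sum_congr rfl fun j _ => ?_
      rw [Derivation.leibniz, smul_eq_mul, smul_eq_mul]; ring
    rw [Finset.sum_congr rfl fun i _ => h1 i, Finset.sum_add_distrib, ← Finset.smul_sum,
      ← Finset.smul_sum]
    congr 2
    rw [Finset.sum_comm]
    exact Finset.sum_congr rfl fun j _ => by rw [Finset.mul_sum]
  have hD : ∀ j, S.D j y' = Lap S.D (S.D j y) +
      (2 : ℝ) • ∑ i, (g i * S.D j (S.D i y) + S.D i y * S.D j (g i)) := by
    intro j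
    rw [h, map_add, S.LapD, Derivation.map_smul, map_sum]
    congr 2
    refine Finset.sum_congr rfl fun i _ => ?_
    rw [Derivation.leibniz, smul_eq_mul, smul_eq_mul]
  -- antisymmetry
  have hA : ∑ i, ∑ j, g i * (S.D j y * (S.D j (S.D i y) - S.D i (S.D j y))) = 0 := by
    refine Finset.sum_eq_zero fun i _ => ?_
    have h1 : ∀ j, g i * (S.D j y * (S.D j (S.D i y) - S.D i (S.D j y))) =
        ∑ k, S.sg j i k • (g i * (S.D j y * S.D k y)) := by
      intro j
      rw [S.comm, Finset.mul_sum, Finset.mul_sum]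
      exact Finset.sum_congr rfl fun k _ => by rw [mul_smul_comm, mul_smul_comm]
    rw [Finset.sum_congr rfl fun j _ => h1 j]
    have h2 : ∑ j, ∑ k, S.sg j i k • (g i * (S.D j y * S.D k y)) =
        -∑ j, ∑ k, S.sg j i k • (g i * (S.D j y * S.D k y)) := by
      conv_lhs => rw [Finset.sum_comm]
      rw [← Finset.sum_neg_distrib]
      refine Finset.sum_congr rfl fun k _ => ?_
      rw [← Finset.sum_neg_distrib]
      refine Finset.sum_congr rfl fun j _ => ?_
      rw [S.anti j i k, neg_smul, mul_comm (S.D j y)]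
    have h3 := eq_neg_iff_add_eq_zero.1 h2
    rw [← two_smul ℝ] at h3
    have h4 := congrArg (fun z => (1 / 2 : ℝ) • z) h3
    simpa [smul_smul] using h4
  have hB : ∑ j, S.D j y * ∑ i, (g i * S.D j (S.D i y) + S.D i y * S.D j (g i)) =
      ∑ i, g i * (∑ j, S.D j y * S.D i (S.D j y)) +
        ∑ i, ∑ j, S.D j y * S.D i y * S.D j (g i) := by
    have e1 : ∑ j, S.D j y * ∑ i, (g i * S.D j (S.D i y) + S.D i y * S.D j (g i)) =
        ∑ i, ∑ j, (g i * (S.D j y * (S.D j (S.D i y) - S.D i (S.D j y))) +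
          (g i * (S.D j y * S.D i (S.D j y)) + S.D j y * S.D i y * S.D j (g i))) := by
      rw [Finset.sum_comm]
      refine Finset.sum_congr rfl fun j _ => ?_
      rw [Finset.mul_sum]
      exact Finset.sum_congr rfl fun i _ => by ring
    rw [e1]
    simp only [Finset.sum_add_distrib]
    rw [hA, zero_add]
    congr 1
    exact Finset.sum_congr rfl fun i _ => by rw [Finset.mul_sum]
  have hF : (2 : ℝ) • ∑ j, S.D j y * S.D j y' =
      (2 : ℝ) • (∑ j, S.D j y * Lap S.D (S.D j y)) +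
        (4 : ℝ) • (∑ j, S.D j y * ∑ i, (g i * S.D j (S.D i y) + S.D i y * S.D j (g i))) := by
    have e : ∀ j, S.D j y * S.D j y' = S.D j y * Lap S.D (S.D j y) +
        (2 : ℝ) • (S.D j y * ∑ i, (g i * S.D j (S.D i y) + S.D i y * S.D j (g i))) := by
      intro j
      rw [hD, mul_add, mul_smul_comm]
    rw [Finset.sum_congr rfl fun j _ => e j, Finset.sum_add_distrib, ← Finset.smul_sum, smul_add,
      smul_smul]
    norm_num
  rw [hF, hB, hL]
  have hG2 : (2 : ℝ) • (∑ i, g i * S.D i (S.G2 y)) =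
      (4 : ℝ) • ∑ i, g i * (∑ j, S.D j y * S.D i (S.D j y)) := by
    have e : ∀ i, g i * S.D i (S.G2 y) = (2 : ℝ) • (g i * (∑ j, S.D j y * S.D i (S.D j y))) := by
      intro i
      rw [hG, mul_smul_comm]
    rw [Finset.sum_congr rfl fun i _ => e i, ← Finset.smul_sum, smul_smul]
    norm_num
  rw [hG2, smul_add]
  abel

/-- the curvature lower bound, at a point -/
lemma hess_ge (y : A) (x : X) : S.K * S.ev x (S.G2 y) ≤
    S.ev x (∑ i, ∑ j, S.D i (S.D j y) * S.D i (S.D j y)) := by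
  have h1 := S.curv fun k => S.ev x (S.D k y)
  have h2 : S.ev x (S.G2 y) = ∑ k, S.ev x (S.D k y) ^ 2 := by
    unfold G2
    rw [map_sum]
    exact Finset.sum_congr rfl fun k _ => by rw [map_mul, sq]
  have h3 : S.ev x (∑ i, ∑ j, S.D i (S.D j y) * S.D i (S.D j y)) =
      ∑ i, ∑ j, S.ev x (S.D i (S.D j y)) ^ 2 := by
    rw [map_sum]
    refine Finset.sum_congr rfl fun i _ => ?_
    rw [map_sum]
    exact Finset.sum_congr rfl fun j _ => by rw [map_mul, sq]
  have h4 : ∀ i j, ∑ k, S.sg i j k * S.ev x (S.D k y) =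
      S.ev x (S.D i (S.D j y)) - S.ev x (S.D j (S.D i y)) := by
    intro i j
    rw [← map_sub, S.comm, map_sum]
    exact Finset.sum_congr rfl fun k _ => by rw [map_smul, smul_eq_mul]
  simp only [h4] at h1
  have h5 : ∑ i, ∑ j, (S.ev x (S.D i (S.D j y)) - S.ev x (S.D j (S.D i y))) ^ 2 ≤
      ∑ i, ∑ j, (2 * S.ev x (S.D i (S.D j y)) ^ 2 + 2 * S.ev x (S.D j (S.D i y)) ^ 2) := by
    refine Finset.sum_le_sum fun i _ => Finset.sum_le_sum fun j _ => ?_
    nlinarith [sq_nonneg (S.ev x (S.D i (S.D j y)) + S.ev x (S.D j (S.D i y)))]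
  have h6 : ∑ i, ∑ j, (2 * S.ev x (S.D i (S.D j y)) ^ 2 + 2 * S.ev x (S.D j (S.D i y)) ^ 2) =
      4 * ∑ i, ∑ j, S.ev x (S.D i (S.D j y)) ^ 2 := by
    simp only [Finset.sum_add_distrib, ← Finset.mul_sum]
    rw [Finset.sum_comm (f := fun i j => S.ev x (S.D j (S.D i y)) ^ 2)]
    ring
  rw [h2, h3]
  linarith

variable (S) in
/-- the transported direction -/
def tr (x : X) (ξ : J → ℝ) : J → ℝ := fun k => ∑ j, ξ j * S.rot x j k

lemma tr_sq (x : X) (ξ : J → ℝ) : ∑ k, S.tr x ξ k ^ 2 = ∑ j, ξ j ^ 2 := by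
  have h1 : ∀ k, S.tr x ξ k ^ 2 = ∑ j, ∑ l, ξ j * ξ l * (S.rot x j k * S.rot x l k) := by
    intro k
    unfold tr
    rw [sq, Finset.sum_mul_sum]
    exact Finset.sum_congr rfl fun j _ => Finset.sum_congr rfl fun l _ => by ring
  rw [Finset.sum_congr rfl fun k _ => h1 k, Finset.sum_comm]
  refine Finset.sum_congr rfl fun j _ => ?_
  rw [Finset.sum_comm]
  have h2 : ∀ l, ∑ k, ξ j * ξ l * (S.rot x j k * S.rot x l k) =
      ξ j * ξ l * if j = l then 1 else 0 := by
    intro l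
    rw [← Finset.mul_sum, S.rotO]
  rw [Finset.sum_congr rfl fun l _ => h2 l]
  simp [sq]

lemma ev_tr (x : X) (ξ : J → ℝ) (f : A) : S.ev x (S.Rη (S.tr x ξ) f) =
    ∑ j, ξ j * S.ev x (S.D j f) := by
  unfold Rη tr
  rw [map_sum]
  simp only [map_smul, smul_eq_mul, S.rotD, Finset.mul_sum, Finset.sum_mul]
  rw [Finset.sum_comm]
  exact Finset.sum_congr rfl fun j _ => Finset.sum_congr rfl fun k _ => by ring

/-- The second derivative of `log ψ` through the right derivatives. -/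
lemma hess_eq {ψ p : A} (h : ψ * p = 1) (x : X) (ξ : J → ℝ) :
    ∑ i, ∑ j, ξ j * ξ i * S.ev x (S.D j (p * S.D i ψ)) =
      ∑ i, ξ i * S.ev x (S.D i (p * S.Rη (S.tr x ξ) ψ)) := by
  have h1 : ∀ i j, S.D j (p * S.D i ψ) = p * S.D j (S.D i ψ) - p * p * S.D j ψ * S.D i ψ := by
    intro i j
    rw [Derivation.leibniz, D_inv h, smul_eq_mul, smul_eq_mul]; ring
  have h2 : ∀ i, S.D i (p * S.Rη (S.tr x ξ) ψ) = p * S.Rη (S.tr x ξ) (S.D i ψ) -
      p * p * S.D i ψ * S.Rη (S.tr x ξ) ψ := by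
    intro i
    rw [Derivation.leibniz, D_inv h, smul_eq_mul, smul_eq_mul, Rη_D]; ring
  refine Finset.sum_congr rfl fun i _ => ?_
  rw [h2, map_sub, map_mul, map_mul, map_mul, map_mul, ev_tr, ev_tr]
  simp only [h1, map_sub, map_mul]
  rw [mul_sub, Finset.mul_sum, Finset.mul_sum, Finset.mul_sum, Finset.mul_sum,
    ← Finset.sum_sub_distrib]
  exact Finset.sum_congr rfl fun j _ => by ring

end Geo

end

end Pool.Agent.W504.YM
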