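import Mathlib
import Pool.Agent.W504.YM.Geo

/-!
# A maximum principle and curves of functions
-/

open Pool.Agent.H906R3.YM Filter Topology Set

namespace Pool.Agent.W504.YM

noncomputable section

/-- The first touching time. -/
lemma first_touch {Z : Type*} [TopologicalSpace Z] [CompactSpace Z] {f f' : ℝ → Z → ℝ} {T : ℝ}
    (hc : ContinuousOn (fun p : ℝ × Z => f p.1 p.2) (Icc 0 T ×ˢ univ))
    (h0 : ∀ z, f 0 z < 0)
    (hd : ∀ s, 0 < s → s ≤ T → ∀ z, HasDerivAt (fun r => f r z) (f' s z) s)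
    (hneg : ∀ s, 0 < s → s ≤ T → ∀ z, f s z = 0 → (∀ z', f s z' ≤ 0) → f' s z < 0) :
    ∀ s, 0 ≤ s → s ≤ T → ∀ z, f s z < 0 := by
  by_contra hcon
  push Not at hcon
  obtain ⟨s1, hs10, hs1T, z1, hz1⟩ := hcon
  have hK : IsCompact (Icc (0 : ℝ) T ×ˢ (univ : Set Z)) := isCompact_Icc.prod isCompact_univ
  have hB : IsCompact ((Icc (0 : ℝ) T ×ˢ (univ : Set Z)) ∩
      (fun p : ℝ × Z => f p.1 p.2) ⁻¹' Ici 0) := by
    obtain ⟨u, hu, hu2⟩ := (continuousOn_iff_isClosed.1 hc) (Ici 0) isClosed_Ici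
    rw [inter_comm, hu2, inter_comm]
    exact hK.inter_right hu
  obtain ⟨⟨s, z⟩, ⟨⟨hs, -⟩, hsz⟩, hmin⟩ := hB.exists_isMinOn
    ⟨(s1, z1), ⟨⟨⟨hs10, hs1T⟩, trivial⟩, hz1⟩⟩ continuous_fst.continuousOn
  have hsz' : 0 ≤ f s z := hsz
  have hs0 : 0 < s := by
    rcases hs.1.lt_or_eq with h | h
    · exact h
    · have h1 := h0 z
      have h2 : (0 : ℝ) = s := h
      rw [h2] at h1
      linarith
  have hlt : ∀ r, 0 ≤ r → r < s → ∀ z', f r z' < 0 := by
    intro r hr hrs z'
    by_contra hn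
    rw [not_lt] at hn
    have h1 : s ≤ r := hmin (⟨⟨⟨hr, hrs.le.trans hs.2⟩, trivial⟩, hn⟩ :
      (r, z') ∈ (Icc (0 : ℝ) T ×ˢ (univ : Set Z)) ∩ (fun p : ℝ × Z => f p.1 p.2) ⁻¹' Ici 0)
    linarith
  have hev : ∀ᶠ r in 𝓝[<] s, 0 ≤ r ∧ r < s := by
    have h1 : Ioo 0 s ∈ 𝓝[<] s := Ioo_mem_nhdsLT hs0
    filter_upwards [h1] with r hr
    exact ⟨hr.1.le, hr.2⟩
  have hle : ∀ z', f s z' ≤ 0 := by
    intro z'
    have h1 : Tendsto (fun r => f r z') (𝓝[<] s) (𝓝 (f s z')) :=
      (hd s hs0 hs.2 z').continuousAt.continuousWithinAt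
    refine le_of_tendsto h1 ?_
    filter_upwards [hev] with r hr
    exact (hlt r hr.1 hr.2 z').le
  have heq : f s z = 0 := le_antisymm (hle z) hsz'
  have h1 := hneg s hs0 hs.2 z heq hle
  have hsub : Iio s ⊆ {s}ᶜ := fun r hr => ne_of_lt hr
  have h2 := (hasDerivAt_iff_tendsto_slope.1 (hd s hs0 hs.2 z)).mono_left
    (nhdsWithin_mono s hsub)
  have h3 : 0 ≤ f' s z := by
    refine ge_of_tendsto h2 ?_
    filter_upwards [hev] with r hr
    rw [slope_def_field, heq, sub_zero]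
    exact div_nonneg_of_nonpos (hlt r hr.1 hr.2 z).le (by linarith [hr.2])
  linarith

variable {A : Type*} [CommRing A] [Algebra ℝ A]

/-- A curve of finite rank and its derivative. -/
def FC (f f' : ℝ → A) : Prop := ∃ (ι : Type) (_ : Fintype ι) (b : ι → A) (c c' : ι → ℝ → ℝ),
  (∀ i s, HasDerivAt (c i) (c' i s) s) ∧ (∀ s, f s = ∑ i, c i s • b i) ∧
    ∀ s, f' s = ∑ i, c' i s • b i

namespace FC

variable {f f' g g' : ℝ → A}

lemma const (a : A) : FC (fun _ => a) fun _ => 0 :=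
  ⟨Unit, inferInstance, fun _ => a, fun _ _ => 1, fun _ _ => 0, fun _ s => hasDerivAt_const s 1,
    fun s => by simp, fun s => by simp⟩

lemma add (hf : FC f f') (hg : FC g g') :
    FC (fun s => f s + g s) fun s => f' s + g' s := by
  obtain ⟨ι, _, b, c, c', h1, h2, h3⟩ := hf
  obtain ⟨κ, _, e, d, d', k1, k2, k3⟩ := hg
  refine ⟨ι ⊕ κ, inferInstance, Sum.elim b e, Sum.elim c d, Sum.elim c' d', ?_, ?_, ?_⟩
  · rintro (i | i) s
    · exact h1 i s
    · exact k1 i s
  · intro s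
    dsimp only
    rw [h2, k2, Fintype.sum_sum_type]
    rfl
  · intro s
    dsimp only
    rw [h3, k3, Fintype.sum_sum_type]
    rfl

lemma mul (hf : FC f f') (hg : FC g g') :
    FC (fun s => f s * g s) fun s => f' s * g s + f s * g' s := by
  obtain ⟨ι, _, b, c, c', h1, h2, h3⟩ := hf
  obtain ⟨κ, _, e, d, d', k1, k2, k3⟩ := hg
  refine ⟨ι × κ, inferInstance, fun i => b i.1 * e i.2, fun i s => c i.1 s * d i.2 s,
    fun i s => c' i.1 s * d i.2 s + c i.1 s * d' i.2 s, ?_, ?_, ?_⟩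
  · rintro i s
    exact (h1 i.1 s).mul (k1 i.2 s)
  · intro s
    dsimp only
    rw [h2, k2, Finset.sum_mul_sum, Fintype.sum_prod_type]
    refine Finset.sum_congr rfl fun i _ => Finset.sum_congr rfl fun j _ => ?_
    rw [smul_mul_smul_comm]
  · intro s
    dsimp only
    rw [h3, k3, h2, k2, Finset.sum_mul_sum, Finset.sum_mul_sum, ← Finset.sum_add_distrib,
      Fintype.sum_prod_type]
    refine Finset.sum_congr rfl fun i _ => ?_
    rw [← Finset.sum_add_distrib]
    refine Finset.sum_congr rfl fun j _ => ?_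
    rw [smul_mul_smul_comm, smul_mul_smul_comm, add_smul]

lemma map {B : Type*} [CommRing B] [Algebra ℝ B] (hf : FC f f') (T : A →ₗ[ℝ] B) :
    FC (fun s => T (f s)) fun s => T (f' s) := by
  obtain ⟨ι, _, b, c, c', h1, h2, h3⟩ := hf
  refine ⟨ι, inferInstance, fun i => T (b i), c, c', h1, ?_, ?_⟩
  · intro s
    dsimp only
    rw [h2, map_sum]
    exact Finset.sum_congr rfl fun i _ => map_smul T _ _
  · intro s
    dsimp only
    rw [h3, map_sum]
    exact Finset.sum_congr rfl fun i _ => map_smul T _ _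

lemma smul (hf : FC f f') (a : ℝ) : FC (fun s => a • f s) fun s => a • f' s :=
  hf.map (a • LinearMap.id)

lemma sum {κ : Type*} (t : Finset κ) {f f' : κ → ℝ → A} (h : ∀ k ∈ t, FC (f k) (f' k)) :
    FC (fun s => ∑ k ∈ t, f k s) fun s => ∑ k ∈ t, f' k s := by
  classical
  induction t using Finset.induction_on with
  | empty => simpa using FC.const (0 : A)
  | insert i t hi ih =>
    simp only [Finset.sum_insert hi]
    exact (h i (Finset.mem_insert_self i t)).add (ih fun k hk => h k (Finset.mem_insert_of_mem hk))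

lemma comp_sub (hf : FC f f') (a : ℝ) : FC (fun s => f (a - s)) fun s => -f' (a - s) := by
  obtain ⟨ι, _, b, c, c', h1, h2, h3⟩ := hf
  refine ⟨ι, inferInstance, b, fun i s => c i (a - s), fun i s => -c' i (a - s), ?_, ?_, ?_⟩
  · intro i s
    have h4 : HasDerivAt (fun r : ℝ => a - r) (-1) s := by
      simpa using (hasDerivAt_id s).const_sub a
    have h5 := HasDerivAt.comp (h := fun r : ℝ => a - r) s (h1 i (a - s)) h4
    simpa [Function.comp_def] using h5
  · intro s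
    exact h2 _
  · intro s
    dsimp only
    rw [h3, ← Finset.sum_neg_distrib]
    exact Finset.sum_congr rfl fun i _ => by rw [neg_smul]

lemma shift (hf : FC f f') (a : ℝ) : FC (fun s => f (a + s)) fun s => f' (a + s) := by
  obtain ⟨ι, _, b, c, c', h1, h2, h3⟩ := hf
  refine ⟨ι, inferInstance, b, fun i s => c i (a + s), fun i s => c' i (a + s), ?_, ?_, ?_⟩
  · intro i s
    have h4 : HasDerivAt (fun r : ℝ => a + r) 1 s := by
      simpa using (hasDerivAt_id s).const_add a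
    have h5 := HasDerivAt.comp (h := fun r : ℝ => a + r) s (h1 i (a + s)) h4
    simpa [Function.comp_def] using h5
  · intro s
    exact h2 _
  · intro s
    exact h3 _

lemma lin (hf : FC f f') (ℓ : A →ₗ[ℝ] ℝ) (s : ℝ) :
    HasDerivAt (fun r => ℓ (f r)) (ℓ (f' s)) s := by
  obtain ⟨ι, _, b, c, c', h1, h2, h3⟩ := hf
  have e1 : (fun r => ℓ (f r)) = fun r => ∑ i, c i r * ℓ (b i) := by
    funext r
    rw [h2, map_sum]
    exact Finset.sum_congr rfl fun i _ => by rw [map_smul, smul_eq_mul]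
  have e2 : ℓ (f' s) = ∑ i, c' i s * ℓ (b i) := by
    rw [h3, map_sum]
    exact Finset.sum_congr rfl fun i _ => by rw [map_smul, smul_eq_mul]
  rw [e1, e2]
  exact HasDerivAt.fun_sum fun i _ => (h1 i s).mul_const _

end FC

variable {J X : Type*} [Fintype J] [DecidableEq J] [TopologicalSpace X] (S : Geo A J X)

lemma FC.jc {f f' : ℝ → A} (hf : FC f f') :
    Continuous fun z : ℝ × X => S.ev z.2 (f z.1) := by
  obtain ⟨ι, _, b, c, c', h1, h2, h3⟩ := hf
  have e1 : (fun z : ℝ × X => S.ev z.2 (f z.1)) = fun z => ∑ i, c i z.1 * S.ev z.2 (b i) := by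
    funext z
    rw [h2, map_sum]
    exact Finset.sum_congr rfl fun i _ => by rw [map_smul, smul_eq_mul]
  rw [e1]
  refine continuous_finsetSum _ fun i _ => ?_
  have hc : Continuous (c i) := continuous_iff_continuousAt.2 fun s => (h1 i s).continuousAt
  exact (hc.comp continuous_fst).mul ((S.cont (b i)).comp continuous_snd)

namespace Geo

/-- Curves which are continuous on `[0, ∞)` and differentiable on `(0, ∞)` at each point. -/
structure TD (f f' : ℝ → A) : Prop where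
  jc : ContinuousOn (fun z : ℝ × X => S.ev z.2 (f z.1)) (Ici 0 ×ˢ univ)
  d : ∀ x s, 0 < s → HasDerivAt (fun r => S.ev x (f r)) (S.ev x (f' s)) s

variable {S}

lemma _root_.Pool.Agent.W504.YM.FC.TD {f f' : ℝ → A} (hf : FC f f') : S.TD f f' :=
  ⟨(hf.jc S).continuousOn, fun x s _ => hf.lin (S.ev x).toLinearMap s⟩

namespace TD

variable {f f' g g' : ℝ → A}

lemma congr (hf : S.TD f f') {g g' : ℝ → A} (h : ∀ s, 0 ≤ s → f s = g s)
    (h' : ∀ s, 0 < s → f' s = g' s) : S.TD g g' := by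
  refine ⟨?_, fun x s hs => ?_⟩
  · refine hf.jc.congr ?_
    rintro ⟨s, x⟩ ⟨hs, -⟩
    show S.ev x (g s) = S.ev x (f s)
    rw [h s hs]
  · rw [← h' s hs]
    refine (hf.d x s hs).congr_of_eventuallyEq ?_
    filter_upwards [Ioi_mem_nhds hs] with r hr
    have hr0 : (0 : ℝ) ≤ r := le_of_lt hr
    rw [h r hr0]

lemma add (hf : S.TD f f') (hg : S.TD g g') :
    S.TD (fun s => f s + g s) fun s => f' s + g' s := by
  refine ⟨?_, fun x s hs => ?_⟩
  · have := hf.jc.add hg.jc
    refine this.congr fun z _ => ?_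
    show S.ev z.2 (f z.1 + g z.1) = _
    rw [map_add]
    rfl
  · simp only [map_add]
    exact (hf.d x s hs).add (hg.d x s hs)

lemma mul (hf : S.TD f f') (hg : S.TD g g') :
    S.TD (fun s => f s * g s) fun s => f' s * g s + f s * g' s := by
  refine ⟨?_, fun x s hs => ?_⟩
  · have := hf.jc.mul hg.jc
    refine this.congr fun z _ => ?_
    show S.ev z.2 (f z.1 * g z.1) = _
    rw [map_mul]
    rfl
  · simp only [map_add, map_mul]
    exact (hf.d x s hs).mul (hg.d x s hs)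

lemma neg (hf : S.TD f f') : S.TD (fun s => -f s) fun s => -f' s := by
  refine ⟨?_, fun x s hs => ?_⟩
  · have := hf.jc.neg
    refine this.congr fun z _ => ?_
    show S.ev z.2 (-f z.1) = _
    rw [map_neg]
    rfl
  · simp only [map_neg]
    exact (hf.d x s hs).neg

lemma sum {κ : Type*} (t : Finset κ) {f f' : κ → ℝ → A} (h : ∀ k ∈ t, S.TD (f k) (f' k)) :
    S.TD (fun s => ∑ k ∈ t, f k s) fun s => ∑ k ∈ t, f' k s := by
  classical
  induction t using Finset.induction_on with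
  | empty => simpa using (FC.const (0 : A)).TD
  | insert i t hi ih =>
    simp only [Finset.sum_insert hi]
    exact (h i (Finset.mem_insert_self i t)).add (ih fun k hk => h k (Finset.mem_insert_of_mem hk))

lemma inv {ψ ψ' p : ℝ → A} (h : S.TD ψ ψ') (hp : ∀ s, 0 ≤ s → ψ s * p s = 1) :
    S.TD p fun s => -(p s * p s * ψ' s) := by
  have hev : ∀ x s, 0 ≤ s → S.ev x (ψ s) ≠ 0 ∧ S.ev x (p s) = (S.ev x (ψ s))⁻¹ := by
    intro x s hs
    have h1 := congrArg (S.ev x) (hp s hs)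
    rw [map_mul, map_one] at h1
    have h2 : S.ev x (ψ s) ≠ 0 := left_ne_zero_of_mul_eq_one h1
    exact ⟨h2, eq_inv_of_mul_eq_one_right h1⟩
  refine ⟨?_, fun x s hs => ?_⟩
  · have h1 : ContinuousOn (fun z : ℝ × X => (S.ev z.2 (ψ z.1))⁻¹) (Ici 0 ×ˢ univ) :=
      h.jc.inv₀ fun z hz => (hev z.2 z.1 hz.1).1
    exact h1.congr fun z hz => (hev z.2 z.1 hz.1).2
  · have h1 := (h.d x s hs).inv (hev x s hs.le).1
    have h2 : (fun r => S.ev x (p r)) =ᶠ[𝓝 s] (fun r => S.ev x (ψ r))⁻¹ := by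
      filter_upwards [Ioi_mem_nhds hs] with r hr
      have hr0 : (0 : ℝ) ≤ r := le_of_lt hr
      exact (hev x r hr0).2
    refine (h1.congr_of_eventuallyEq h2).congr_deriv ?_
    rw [map_neg, map_mul, map_mul, (hev x s hs.le).2]
    have := (hev x s hs.le).1
    field_simp

end TD

end Geo

end

end Pool.Agent.W504.YM
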