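import Mathlib
import Pool.Agent.W504.YM.Max

/-!
# Heat flow: positivity, second derivatives of the logarithm, gradients of quotients
-/

open Pool.Agent.H906R3.YM Filter Topology Set

namespace Pool.Agent.W504.YM

noncomputable section

variable {A : Type*} [CommRing A] [Algebra ℝ A] {J X : Type*} [Fintype J] [DecidableEq J]
    [TopologicalSpace X]

namespace Geo

variable (S : Geo A J X)

/-- Solutions of the heat equation in a finite dimensional space. -/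
def Heat (ψ : ℝ → A) : Prop := FC ψ fun s => Lap S.D (ψ s)

variable {S}

lemma Heat.add {ψ φ : ℝ → A} (h : S.Heat ψ) (h' : S.Heat φ) : S.Heat fun s => ψ s + φ s := by
  have := FC.add h h'
  simpa only [Heat, Lap_add] using this

lemma Heat.smul {ψ : ℝ → A} (h : S.Heat ψ) (c : ℝ) : S.Heat fun s => c • ψ s := by
  have := FC.smul h c
  simpa only [Heat, Lap_smul] using this

lemma Heat.sub {ψ φ : ℝ → A} (h : S.Heat ψ) (h' : S.Heat φ) : S.Heat fun s => ψ s - φ s := by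
  have := h.add (h'.smul (-1))
  simpa [sub_eq_add_neg] using this

lemma Heat.D {ψ : ℝ → A} (h : S.Heat ψ) (j : J) : S.Heat fun s => S.D j (ψ s) := by
  have := FC.map h (S.D j).toLinearMap
  have h2 : ∀ s, (S.D j) (Lap S.D (ψ s)) = Lap S.D (S.D j (ψ s)) := fun s => S.LapD j _
  unfold Heat
  simp only [← h2]
  exact this

lemma Heat.R {ψ : ℝ → A} (h : S.Heat ψ) (j : J) : S.Heat fun s => S.R j (ψ s) := by
  have := FC.map h (S.R j).toLinearMap
  have h2 : ∀ s, (S.R j) (Lap S.D (ψ s)) = Lap S.D (S.R j (ψ s)) := fun s => LapR j _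
  unfold Heat
  simp only [← h2]
  exact this

lemma Heat.Rη {ψ : ℝ → A} (h : S.Heat ψ) (η : J → ℝ) : S.Heat fun s => S.Rη η (ψ s) := by
  have h1 : FC (fun s => ∑ k, η k • S.R k (ψ s)) (fun s => ∑ k, η k • Lap S.D (S.R k (ψ s))) :=
    FC.sum Finset.univ fun k _ => FC.smul (h.R k) (η k)
  have h2 : ∀ s, Lap S.D (S.Rη η (ψ s)) = ∑ k, η k • Lap S.D (S.R k (ψ s)) := by
    intro s
    unfold Geo.Rη
    rw [Lap_sum]
    exact Finset.sum_congr rfl fun k _ => Lap_smul _ _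
  unfold Heat
  simp only [h2]
  exact h1

lemma Heat.shift {ψ : ℝ → A} (h : S.Heat ψ) (a : ℝ) : S.Heat fun s => ψ (a + s) :=
  FC.shift h a

lemma ev_Lap_nonpos {f : A} {x : X} (h : ∀ y, S.ev y f ≤ S.ev x f) : S.ev x (Lap S.D f) ≤ 0 := by
  unfold Lap
  rw [map_sum]
  exact Finset.sum_nonpos fun j _ => S.max2 f x h j

/-- The heat flow preserves positivity. -/
lemma Heat.pos [CompactSpace X] {ψ : ℝ → A} (h : S.Heat ψ) (h0 : ∀ x, 0 < S.ev x (ψ 0)) :
    ∀ s, 0 ≤ s → ∀ x, 0 < S.ev x (ψ s) := by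
  intro s hs x
  obtain ⟨x0, -, hx0⟩ := isCompact_univ.exists_isMinOn ⟨x, trivial⟩ (S.cont (ψ 0)).continuousOn
  obtain ⟨c, hc⟩ : ∃ c, c = S.ev x0 (ψ 0) := ⟨_, rfl⟩
  have hc0 : 0 < c := by rw [hc]; exact h0 x0
  have hcm : ∀ z, c ≤ S.ev z (ψ 0) := fun z => by rw [hc]; exact hx0 (mem_univ z)
  have key := first_touch (Z := X) (T := s)
    (f := fun r z => (c / 2 - (c / (4 * (s + 1))) * r) - S.ev z (ψ r))
    (f' := fun r z => -(c / (4 * (s + 1))) - S.ev z (Lap S.D (ψ r)))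
    ?_ ?_ ?_ ?_ s hs le_rfl x
  · have h1 : c / (4 * (s + 1)) * s ≤ c / 4 := by
      rw [div_mul_eq_mul_div, div_le_div_iff₀ (by positivity) (by norm_num)]
      nlinarith
    linarith
  · refine Continuous.continuousOn ?_
    have h1 : Continuous fun p : ℝ × X => (c / 2 - (c / (4 * (s + 1))) * p.1) := by fun_prop
    exact h1.sub (FC.jc S h)
  · intro z
    have := hcm z
    simp only [mul_zero, sub_zero]
    linarith
  · intro r hr hrs z
    have h1 : HasDerivAt (fun r : ℝ => c / 2 - (c / (4 * (s + 1))) * r)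
        (-(c / (4 * (s + 1)))) r := by
      simpa using ((hasDerivAt_id r).const_mul (c / (4 * (s + 1)))).const_sub (c / 2)
    exact h1.sub (FC.lin h (S.ev z).toLinearMap r)
  · intro r hr hrs z hz hmax
    have h1 : ∀ y, S.ev y (-ψ r) ≤ S.ev z (-ψ r) := by
      intro y
      have := hmax y
      rw [map_neg, map_neg]
      linarith
    have h2 := ev_Lap_nonpos h1
    have h3 : Lap S.D (-ψ r) = -Lap S.D (ψ r) := by
      have := Lap_smul (S := S) (-1) (ψ r)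
      simpa using this
    rw [h3, map_neg] at h2
    have h4 : 0 < c / (4 * (s + 1)) := by positivity
    linarith

/-! ### quotients -/

lemma ev_G2 (x : X) (y : A) : S.ev x (S.G2 y) = ∑ j, S.ev x (S.D j y) ^ 2 := by
  unfold G2
  rw [map_sum]
  exact Finset.sum_congr rfl fun k _ => by rw [map_mul, sq]

lemma ev_G2_nonneg (x : X) (y : A) : 0 ≤ S.ev x (S.G2 y) := by
  rw [ev_G2]
  exact Finset.sum_nonneg fun j _ => sq_nonneg _

lemma Rη_smul (c : ℝ) (η : J → ℝ) (f : A) : S.Rη (fun k => c * η k) f = c • S.Rη η f := by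
  unfold Rη
  rw [Finset.smul_sum]
  exact Finset.sum_congr rfl fun k _ => by rw [smul_smul]

lemma G2_smul (c : ℝ) (f : A) : S.G2 (c • f) = (c ^ 2) • S.G2 f := by
  unfold G2
  rw [Finset.smul_sum]
  refine Finset.sum_congr rfl fun j _ => ?_
  rw [Derivation.map_smul, smul_mul_smul_comm, sq]

/-- from the unit sphere to all vectors -/
lemma homog {x : X} {p ψ : A} {Y : ℝ}
    (h : ∀ η : J → ℝ, ∑ k, η k ^ 2 = 1 → S.ev x (S.G2 (p * S.Rη η ψ)) ≤ Y ^ 2) (η : J → ℝ) :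
    S.ev x (S.G2 (p * S.Rη η ψ)) ≤ Y ^ 2 * ∑ k, η k ^ 2 := by
  have hn : 0 ≤ ∑ k, η k ^ 2 := Finset.sum_nonneg fun k _ => sq_nonneg _
  rcases hn.eq_or_lt with h0 | h0
  · have h1 : ∀ k, η k = 0 := by
      intro k
      have := (Finset.sum_eq_zero_iff_of_nonneg fun k _ => sq_nonneg (η k)).1 h0.symm k
        (Finset.mem_univ k)
      exact pow_eq_zero_iff two_ne_zero |>.1 this
    have h2 : S.Rη η ψ = 0 := by
      unfold Rη
      exact Finset.sum_eq_zero fun k _ => by rw [h1, zero_smul]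
    rw [h2, mul_zero, ← h0, mul_zero]
    unfold G2
    simp
  · obtain ⟨c, hc⟩ : ∃ c, c = Real.sqrt (∑ k, η k ^ 2) := ⟨_, rfl⟩
    have hc2 : c ^ 2 = ∑ k, η k ^ 2 := by rw [hc]; exact Real.sq_sqrt hn
    have hc0 : c ≠ 0 := by
      intro h'
      rw [h'] at hc2
      linarith [hc2, h0]
    have h1 := h (fun k => c⁻¹ * η k) (by
      have : ∀ k, (c⁻¹ * η k) ^ 2 = (c ^ 2)⁻¹ * η k ^ 2 := fun k => by
        rw [mul_pow, inv_pow]
      rw [Finset.sum_congr rfl fun k _ => this k, ← Finset.mul_sum, ← hc2]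
      exact inv_mul_cancel₀ (pow_ne_zero 2 hc0))
    have h2 : S.Rη η ψ = c • S.Rη (fun k => c⁻¹ * η k) ψ := by
      rw [← Rη_smul]
      congr 1
      funext k
      rw [← mul_assoc, mul_inv_cancel₀ hc0, one_mul]
    rw [h2, mul_smul_comm, G2_smul, map_smul, smul_eq_mul, ← hc2, mul_comm]
    exact mul_le_mul_of_nonneg_right h1 (sq_nonneg _)

/-- The evolution of the square of the gradient at a maximum. -/
lemma point_bound {ψ p u : A} (h : ψ * p = 1) {x : X} {Y : ℝ} (hY : 0 ≤ Y)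
    (hx : ∀ x', S.ev x' (S.G2 (p * u)) ≤ S.ev x (S.G2 (p * u)))
    (hH : ∀ η : J → ℝ, S.ev x (S.G2 (p * S.Rη η ψ)) ≤ Y ^ 2 * ∑ k, η k ^ 2) :
    S.ev x ((2 : ℝ) • ∑ j, S.D j (p * u) * S.D j (p * Lap S.D u - p * p * u * Lap S.D ψ)) ≤
      (4 * Y - 2 * S.K) * S.ev x (S.G2 (p * u)) := by
  have hb := bochner (S := S) (fun i => p * S.D i ψ) (p * u) _ (quot_eq h)
  rw [hb, map_add, map_sub, map_add]
  have h1 := ev_Lap_nonpos hx
  have h2 : S.ev x ((2 : ℝ) • ∑ i, p * S.D i ψ * S.D i (S.G2 (p * u))) = 0 := by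
    rw [map_smul, map_sum, Finset.sum_eq_zero, smul_zero]
    intro i _
    rw [map_mul, S.max1 _ x hx i, mul_zero]
  have h3 := hess_ge (S := S) (p * u) x
  have h4 : S.ev x ((2 : ℝ) • ∑ i, ∑ j, S.D i (S.D j (p * u)) * S.D i (S.D j (p * u))) =
      2 * S.ev x (∑ i, ∑ j, S.D i (S.D j (p * u)) * S.D i (S.D j (p * u))) := by
    rw [map_smul, smul_eq_mul]
  obtain ⟨ξ, hξ⟩ : ∃ ξ : J → ℝ, ξ = fun j => S.ev x (S.D j (p * u)) := ⟨_, rfl⟩
  have hξ2 : S.ev x (S.G2 (p * u)) = ∑ j, ξ j ^ 2 := by rw [ev_G2, hξ]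
  have h5 : S.ev x ((4 : ℝ) • ∑ i, ∑ j, S.D j (p * u) * S.D i (p * u) * S.D j (p * S.D i ψ)) =
      4 * ∑ i, ∑ j, ξ j * ξ i * S.ev x (S.D j (p * S.D i ψ)) := by
    rw [map_smul, smul_eq_mul, map_sum, hξ]
    congr 1
    refine Finset.sum_congr rfl fun i _ => ?_
    rw [map_sum]
    exact Finset.sum_congr rfl fun j _ => by rw [map_mul, map_mul]
  rw [hess_eq h] at h5
  have h6 : ∑ i, ξ i * S.ev x (S.D i (p * S.Rη (S.tr x ξ) ψ)) ≤ Y * ∑ j, ξ j ^ 2 := by
    have c1 := Finset.sum_mul_sq_le_sq_mul_sq Finset.univ ξ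
      (fun i => S.ev x (S.D i (p * S.Rη (S.tr x ξ) ψ)))
    have c2 := hH (S.tr x ξ)
    rw [ev_G2, tr_sq] at c2
    have hn : 0 ≤ ∑ j, ξ j ^ 2 := Finset.sum_nonneg fun k _ => sq_nonneg _
    have c3 : (∑ i, ξ i * S.ev x (S.D i (p * S.Rη (S.tr x ξ) ψ))) ^ 2 ≤
        (Y * ∑ j, ξ j ^ 2) ^ 2 := by
      refine c1.trans ?_
      calc (∑ j, ξ j ^ 2) * (∑ i, S.ev x (S.D i (p * S.Rη (S.tr x ξ) ψ)) ^ 2)
          ≤ (∑ j, ξ j ^ 2) * (Y ^ 2 * ∑ k, ξ k ^ 2) := mul_le_mul_of_nonneg_left c2 hn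
        _ = _ := by ring
    exact (abs_le_of_sq_le_sq c3 (mul_nonneg hY hn)).trans' (le_abs_self _)
  rw [h2, h4, h5, hξ2]
  rw [hξ2] at h3
  linarith

lemma quot_TD {ψ p u : ℝ → A} (hψ : S.Heat ψ) (hp : ∀ s, 0 ≤ s → ψ s * p s = 1)
    (hu : S.Heat u) (j : J) : S.TD (fun s => S.D j (p s * u s))
      (fun s => S.D j (p s * Lap S.D (u s) - p s * p s * u s * Lap S.D (ψ s))) := by
  have h1 : S.TD ψ fun s => Lap S.D (ψ s) := FC.TD hψ
  have h2 : S.TD u fun s => Lap S.D (u s) := FC.TD hu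
  have h3 := h1.inv hp
  have h4 : S.TD (fun s => S.D j (ψ s)) fun s => Lap S.D (S.D j (ψ s)) := FC.TD (hψ.D j)
  have h5 : S.TD (fun s => S.D j (u s)) fun s => Lap S.D (S.D j (u s)) := FC.TD (hu.D j)
  have h6 := (h3.mul h5).add (((h3.mul h3).mul (h2.mul h4)).neg)
  refine h6.congr (fun s hs => ?_) fun s hs => ?_
  · rw [Derivation.leibniz, D_inv (hp s hs), smul_eq_mul, smul_eq_mul]; ring
  · have h7 := D_inv (hp s hs.le) (S.D j)
    simp only [map_sub, Derivation.leibniz, smul_eq_mul, h7, S.LapD]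
    ring

lemma G2_TD {ψ p u : ℝ → A} (hψ : S.Heat ψ) (hp : ∀ s, 0 ≤ s → ψ s * p s = 1)
    (hu : S.Heat u) : S.TD (fun s => S.G2 (p s * u s))
      (fun s => (2 : ℝ) • ∑ j, S.D j (p s * u s) *
        S.D j (p s * Lap S.D (u s) - p s * p s * u s * Lap S.D (ψ s))) := by
  have h1 := TD.sum (S := S) Finset.univ fun j _ =>
    (quot_TD hψ hp hu j).mul (quot_TD hψ hp hu j)
  refine h1.congr (fun s hs => rfl) fun s hs => ?_
  rw [Finset.smul_sum]
  refine Finset.sum_congr rfl fun j _ => ?_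
  rw [two_smul]; ring

/-- the unit sphere -/
def Sph (J : Type*) [Fintype J] : Set (J → ℝ) := {η | ∑ k, η k ^ 2 = 1}

omit [DecidableEq J] in
lemma isCompact_Sph : IsCompact (Sph J) := by
  have h1 : IsCompact (Set.pi univ fun _ : J => Icc (-1 : ℝ) 1) :=
    isCompact_univ_pi fun _ => isCompact_Icc
  refine h1.of_isClosed_subset ?_ ?_
  · exact isClosed_eq (by fun_prop) continuous_const
  · intro η hη k _
    have h2 : η k ^ 2 ≤ 1 := by
      have h3 : ∑ k, η k ^ 2 = 1 := hη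
      rw [← h3]
      exact Finset.single_le_sum (f := fun k => η k ^ 2) (fun i _ => sq_nonneg _)
        (Finset.mem_univ k)
    exact abs_le.1 ((sq_le_one_iff_abs_le_one _).1 h2)

instance : CompactSpace (Sph J) := isCompact_iff_compactSpace.1 isCompact_Sph

/-- The bound for the second derivatives of `log ψ` is preserved below the barrier. -/
lemma hess_barrier [CompactSpace X] {ψ p : ℝ → A} (hψ : S.Heat ψ)
    (hp : ∀ s, 0 ≤ s → ψ s * p s = 1) {T b Y0 : ℝ} (hb : 0 ≤ b) (hY0 : 0 < Y0)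
    (hbar : ∀ s, 0 ≤ s → s ≤ T →
      2 * (Y0 + b * (T - s)) ^ 2 - S.K * (Y0 + b * (T - s)) + b < 0)
    (h0 : ∀ x (η : J → ℝ), ∑ k, η k ^ 2 = 1 →
      S.ev x (S.G2 (p 0 * S.Rη η (ψ 0))) < (Y0 + b * T) ^ 2) :
    ∀ s, 0 ≤ s → s ≤ T → ∀ x (η : J → ℝ), ∑ k, η k ^ 2 = 1 →
      S.ev x (S.G2 (p s * S.Rη η (ψ s))) < (Y0 + b * (T - s)) ^ 2 := by
  have key := first_touch (Z := X × Sph J) (T := T)
    (f := fun s z => S.ev z.1 (S.G2 (p s * S.Rη z.2.1 (ψ s))) - (Y0 + b * (T - s)) ^ 2)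
    (f' := fun s z => S.ev z.1 ((2 : ℝ) • ∑ j, S.D j (p s * S.Rη z.2.1 (ψ s)) *
        S.D j (p s * Lap S.D (S.Rη z.2.1 (ψ s)) - p s * p s * S.Rη z.2.1 (ψ s) * Lap S.D (ψ s)))
        - 2 * (Y0 + b * (T - s)) * (-b))
    ?_ ?_ ?_ ?_
  · intro s hs hsT x η hη
    have := key s hs hsT (x, ⟨η, hη⟩)
    simp only at this
    linarith
  · -- continuity
    have h1 : ∀ j k, ContinuousOn (fun q : ℝ × (X × Sph J) =>
        S.ev q.2.1 (S.D j (p q.1 * S.R k (ψ q.1)))) (Icc 0 T ×ˢ univ) := by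
      intro j k
      have h2 := (quot_TD hψ hp (hψ.R k) j).jc
      refine h2.comp (g := fun z : ℝ × X => S.ev z.2 (S.D j (p z.1 * S.R k (ψ z.1))))
        (f := fun q : ℝ × (X × Sph J) => ((q.1, q.2.1) : ℝ × X)) (by fun_prop) ?_
      rintro ⟨s, x, η⟩ ⟨hs, -⟩
      exact ⟨hs.1, trivial⟩
    have h3 : ∀ q : ℝ × (X × Sph J), S.ev q.2.1 (S.G2 (p q.1 * S.Rη q.2.2.1 (ψ q.1))) =
        ∑ j, (∑ k, q.2.2.1 k * S.ev q.2.1 (S.D j (p q.1 * S.R k (ψ q.1)))) ^ 2 := by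
      intro q
      rw [ev_G2]
      refine Finset.sum_congr rfl fun j _ => ?_
      congr 1
      unfold Rη
      rw [Finset.mul_sum, map_sum, map_sum]
      refine Finset.sum_congr rfl fun k _ => ?_
      rw [mul_smul_comm, Derivation.map_smul, map_smul, smul_eq_mul]
    simp only [h3]
    refine ContinuousOn.sub ?_ (by fun_prop)
    refine continuousOn_finsetSum _ fun j _ => ContinuousOn.pow ?_ 2
    refine continuousOn_finsetSum _ fun k _ => ContinuousOn.mul ?_ (h1 j k)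
    exact ((continuous_apply k).comp (continuous_subtype_val.comp
      (continuous_snd.comp continuous_snd))).continuousOn
  · rintro ⟨x, η, hη⟩
    have := h0 x η hη
    simp only [sub_zero]
    linarith
  · rintro s hs hsT ⟨x, η, hη⟩
    refine HasDerivAt.sub ((G2_TD hψ hp (hψ.Rη η)).d x s hs) ?_
    have h1 : HasDerivAt (fun r : ℝ => Y0 + b * (T - r)) (-b) s := by
      have := (((hasDerivAt_id s).const_sub T).const_mul b).const_add Y0
      simpa using this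
    simpa using h1.fun_pow 2
  · rintro s hs hsT ⟨x, η, hη⟩ hz hmax
    simp only at hz hmax ⊢
    obtain ⟨Y, hY⟩ : ∃ Y, Y = Y0 + b * (T - s) := ⟨_, rfl⟩
    rw [← hY] at hz hmax ⊢
    have hYpos : 0 < Y := by
      rw [hY]
      have : 0 ≤ b * (T - s) := mul_nonneg hb (by linarith)
      linarith
    have hbar' := hbar s hs.le hsT
    rw [← hY] at hbar'
    have h1 := point_bound (S := S) (hp s hs.le) (u := S.Rη η (ψ s)) (x := x) hYpos.le (by
      intro x'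
      have := hmax (x', ⟨η, hη⟩)
      simp only at this
      linarith) (homog fun η' hη' => by
      have := hmax (x, ⟨η', hη'⟩)
      simp only at this
      linarith)
    have h2 : S.ev x (S.G2 (p s * S.Rη η (ψ s))) = Y ^ 2 := by linarith
    rw [h2] at h1
    have h3 : (4 * Y - 2 * S.K) * Y ^ 2 - 2 * Y * (-b) =
        2 * Y * (2 * Y ^ 2 - S.K * Y + b) := by ring
    have h4 : 2 * Y * (2 * Y ^ 2 - S.K * Y + b) < 0 :=
      mul_neg_of_pos_of_neg (by linarith) hbar'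
    linarith

/-- Decay of the gradient of a quotient. -/
lemma grad_decay [CompactSpace X] {ψ p u : ℝ → A} (hψ : S.Heat ψ)
    (hp : ∀ s, 0 ≤ s → ψ s * p s = 1) (hu : S.Heat u) {T Y κ C : ℝ} (hY : 0 ≤ Y)
    (hC : 0 < C) (hκ : κ < S.K - 2 * Y)
    (hH : ∀ s, 0 ≤ s → s ≤ T → ∀ x (η : J → ℝ), ∑ k, η k ^ 2 = 1 →
      S.ev x (S.G2 (p s * S.Rη η (ψ s))) ≤ Y ^ 2)
    (h0 : ∀ x, S.ev x (S.G2 (p 0 * u 0)) < C) :
    ∀ s, 0 ≤ s → s ≤ T → ∀ x, S.ev x (S.G2 (p s * u s)) < C * Real.exp (-(2 * κ * s)) := by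
  have key := first_touch (Z := X) (T := T)
    (f := fun s z => S.ev z (S.G2 (p s * u s)) - C * Real.exp (-(2 * κ * s)))
    (f' := fun s z => S.ev z ((2 : ℝ) • ∑ j, S.D j (p s * u s) *
        S.D j (p s * Lap S.D (u s) - p s * p s * u s * Lap S.D (ψ s)))
        - C * (Real.exp (-(2 * κ * s)) * (-(2 * κ))))
    ?_ ?_ ?_ ?_
  · intro s hs hsT x
    have := key s hs hsT x
    linarith
  · refine ContinuousOn.sub ?_ (by fun_prop)
    exact (G2_TD hψ hp hu).jc.mono (prod_mono (fun s hs => hs.1) subset_rfl)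
  · intro x
    have := h0 x
    simp only [mul_zero, neg_zero, Real.exp_zero, mul_one]
    linarith
  · intro s hs hsT x
    refine HasDerivAt.sub ((G2_TD hψ hp hu).d x s hs) ?_
    refine HasDerivAt.const_mul C ?_
    refine HasDerivAt.exp ?_
    have := ((hasDerivAt_id s).const_mul (2 * κ)).fun_neg
    simpa using this
  · intro s hs hsT x hz hmax
    have h1 := point_bound (S := S) (hp s hs.le) (u := u s) (x := x) hY (by
      intro x'
      have := hmax x'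
      linarith) (homog fun η hη => hH s hs.le hsT x η hη)
    obtain ⟨e, he⟩ : ∃ e, e = Real.exp (-(2 * κ * s)) := ⟨_, rfl⟩
    have he0 : 0 < e := by rw [he]; exact Real.exp_pos _
    rw [← he] at hz hmax ⊢
    have h2 : S.ev x (S.G2 (p s * u s)) = C * e := by linarith
    rw [h2] at h1
    have h3 : (4 * Y - 2 * S.K) * (C * e) - C * (e * (-(2 * κ))) =
        2 * (C * e) * (κ - (S.K - 2 * Y)) := by ring
    have h4 : 2 * (C * e) * (κ - (S.K - 2 * Y)) < 0 :=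
      mul_neg_of_pos_of_neg (by positivity) (by linarith)
    linarith

end Geo

end

end Pool.Agent.W504.YM
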