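import Mathlib
import Pool.Agent.W504.YM.Flow

/-!
# Heat flow: integrals; existence on finite dimensional spaces
-/

open Pool.Agent.H906R3.YM Filter Topology Set
open scoped Matrix.Norms.Frobenius

namespace Pool.Agent.W504.YM

noncomputable section

variable {A : Type*} [CommRing A] [Algebra ℝ A] {J X : Type*} [Fintype J] [DecidableEq J]
    [TopologicalSpace X]

namespace Geo

variable {S : Geo A J X}

lemma I_nonneg {f : A} (h : ∀ x, 0 ≤ S.ev x f) : 0 ≤ S.I f := by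
  have := S.I_mono (f := 0) (g := f) fun x => by rw [map_zero]; exact h x
  rwa [map_zero] at this

lemma I_sq_nonneg (f : A) : 0 ≤ S.I (f * f) :=
  I_nonneg fun x => by rw [map_mul]; exact mul_self_nonneg _

lemma I_LapG (f g : A) : S.I (Lap S.D f * g) = -S.I (Gam S.D f g) := by
  unfold Lap Gam
  rw [Finset.sum_mul, map_sum, map_sum, ← Finset.sum_neg_distrib]
  exact Finset.sum_congr rfl fun j _ =>
    Pool.Agent.H906R3.YM.I_D (D := S.D) S.I S.I_D j (S.D j f) g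

lemma I_G2_nonneg (f : A) : 0 ≤ S.I (S.G2 f) := I_nonneg fun x => ev_G2_nonneg x f

lemma Heat.dI {ψ : ℝ → A} (h : S.Heat ψ) (s : ℝ) :
    HasDerivAt (fun r => S.I (ψ r * ψ r)) (-(2 * S.I (S.G2 (ψ s)))) s := by
  have h1 := FC.lin (FC.mul h h) S.I s
  refine h1.congr_deriv ?_
  rw [map_add, mul_comm (ψ s), I_LapG]
  have : Gam S.D (ψ s) (ψ s) = S.G2 (ψ s) := rfl
  rw [this]; ring

lemma Heat.dG {ψ : ℝ → A} (h : S.Heat ψ) (s : ℝ) :
    HasDerivAt (fun r => S.I (S.G2 (ψ r)))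
      (-(2 * S.I (Lap S.D (ψ s) * Lap S.D (ψ s)))) s := by
  have h1 := FC.lin (FC.sum Finset.univ fun j _ => FC.mul (h.D j) (h.D j)) S.I s
  refine h1.congr_deriv ?_
  have h2 := I_LapG (S := S) (ψ s) (Lap S.D (ψ s))
  have h3 : ∑ j, (Lap S.D (S.D j (ψ s)) * S.D j (ψ s) + S.D j (ψ s) * Lap S.D (S.D j (ψ s))) =
      (2 : ℝ) • Gam S.D (ψ s) (Lap S.D (ψ s)) := by
    unfold Gam
    rw [Finset.smul_sum]
    refine Finset.sum_congr rfl fun j _ => ?_
    rw [S.LapD, two_smul]; ring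
  rw [h3, map_smul, smul_eq_mul, h2]; ring

lemma Heat.anti {ψ : ℝ → A} (h : S.Heat ψ) : Antitone fun s => S.I (S.G2 (ψ s)) := by
  refine antitone_of_deriv_nonpos (fun s => (h.dG s).differentiableAt) fun s => ?_
  rw [(h.dG s).deriv]
  have := I_sq_nonneg (S := S) (Lap S.D (ψ s))
  linarith

lemma Heat.mvt {ψ : ℝ → A} (h : S.Heat ψ) {s : ℝ} (hs : 0 ≤ s) :
    ∃ c, 0 ≤ c ∧ c ≤ s ∧ S.I (ψ 0 * ψ 0) - S.I (ψ s * ψ s) = 2 * s * S.I (S.G2 (ψ c)) := by
  rcases hs.eq_or_lt with h0 | h0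
  · refine ⟨0, le_rfl, hs, ?_⟩
    rw [← h0]; ring
  · obtain ⟨c, hc, h1⟩ := exists_hasDerivAt_eq_slope (fun r => S.I (ψ r * ψ r))
      (fun r => -(2 * S.I (S.G2 (ψ r)))) h0
      (fun r _ => (h.dI r).continuousAt.continuousWithinAt) fun r _ => h.dI r
    refine ⟨c, hc.1.le, hc.2.le, ?_⟩
    rw [sub_zero, eq_div_iff h0.ne'] at h1
    linarith

lemma Heat.le1 {ψ : ℝ → A} (h : S.Heat ψ) {s : ℝ} (hs : 0 ≤ s) :
    S.I (ψ s * ψ s) + 2 * s * S.I (S.G2 (ψ s)) ≤ S.I (ψ 0 * ψ 0) := by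
  obtain ⟨c, hc0, hcs, h1⟩ := h.mvt hs
  have h2 := h.anti hcs
  have h3 := mul_le_mul_of_nonneg_left h2 (show 0 ≤ 2 * s by linarith)
  simp only at h3
  linarith

lemma Heat.le2 {ψ : ℝ → A} (h : S.Heat ψ) {s : ℝ} (hs : 0 ≤ s) :
    S.I (ψ 0 * ψ 0) ≤ S.I (ψ s * ψ s) + 2 * s * S.I (S.G2 (ψ 0)) := by
  obtain ⟨c, hc0, hcs, h1⟩ := h.mvt hs
  have h2 := h.anti hc0
  have h3 := mul_le_mul_of_nonneg_left h2 (show 0 ≤ 2 * s by linarith)
  simp only at h3
  linarith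

lemma Heat.symm {ψ φ : ℝ → A} (h : S.Heat ψ) (h' : S.Heat φ) (s : ℝ) :
    S.I (ψ s * φ 0) = S.I (ψ 0 * φ s) := by
  have h1 : ∀ r, HasDerivAt (fun r => S.I (ψ r * φ (s - r))) 0 r := by
    intro r
    have h2 := FC.lin (FC.mul h (FC.comp_sub h' s)) S.I r
    refine h2.congr_deriv ?_
    rw [mul_neg, map_add, map_neg, I_LapG, mul_comm (ψ r), I_LapG, Gam_comm]
    ring
  have h3 := is_const_of_deriv_eq_zero (fun r => (h1 r).differentiableAt)
    (fun r => (h1 r).deriv) s 0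
  simpa using h3

lemma Heat.unique {ψ φ : ℝ → A} (h : S.Heat ψ) (h' : S.Heat φ) (h0 : ψ 0 = φ 0) {s : ℝ}
    (hs : 0 ≤ s) : ψ s = φ s := by
  have h1 := (h.sub h').le1 hs
  simp only [h0, sub_self, mul_zero, map_zero] at h1
  have h2 := I_G2_nonneg (S := S) (ψ s - φ s)
  have h3 := I_sq_nonneg (S := S) (ψ s - φ s)
  have h4 : 0 ≤ 2 * s * S.I (S.G2 (ψ s - φ s)) := by positivity
  have h5 : S.I ((ψ s - φ s) * (ψ s - φ s)) = 0 := by linarith
  exact sub_eq_zero.1 (S.I_def h5)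

/-! ### representative functions -/

variable (S) in
/-- Elements of finite dimensional invariant subspaces. -/
def Rep (f : A) : Prop := ∃ W : Submodule ℝ A, W.FG ∧ f ∈ W ∧ ∀ j, ∀ g ∈ W, S.D j g ∈ W

lemma Rep.one : S.Rep 1 := by
  refine ⟨Submodule.span ℝ {1}, Submodule.fg_span_singleton 1,
    Submodule.mem_span_singleton_self 1, fun j g hg => ?_⟩
  obtain ⟨c, rfl⟩ := Submodule.mem_span_singleton.1 hg
  rw [Derivation.map_smul, Derivation.map_one_eq_zero, smul_zero]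
  exact Submodule.zero_mem _

lemma Rep.smul {f : A} (h : S.Rep f) (c : ℝ) : S.Rep (c • f) := by
  obtain ⟨W, h1, h2, h3⟩ := h
  exact ⟨W, h1, W.smul_mem c h2, h3⟩

lemma Rep.add {f g : A} (hf : S.Rep f) (hg : S.Rep g) : S.Rep (f + g) := by
  obtain ⟨W, h1, h2, h3⟩ := hf
  obtain ⟨W', h1', h2', h3'⟩ := hg
  refine ⟨W ⊔ W', h1.sup h1', Submodule.add_mem_sup h2 h2', fun j g hg => ?_⟩
  obtain ⟨a, ha, b, hb, rfl⟩ := Submodule.mem_sup.1 hg
  rw [map_add]
  exact Submodule.add_mem_sup (h3 j a ha) (h3' j b hb)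

lemma Rep.mul {f g : A} (hf : S.Rep f) (hg : S.Rep g) : S.Rep (f * g) := by
  obtain ⟨W, h1, h2, h3⟩ := hf
  obtain ⟨W', h1', h2', h3'⟩ := hg
  refine ⟨W * W', h1.mul h1', Submodule.mul_mem_mul h2 h2', fun j g hg => ?_⟩
  refine Submodule.mul_induction_on hg (fun a ha b hb => ?_) fun a b ha hb => ?_
  · rw [Derivation.leibniz, smul_eq_mul, smul_eq_mul]
    refine Submodule.add_mem _ (Submodule.mul_mem_mul ha (h3' j b hb)) ?_
    rw [mul_comm b]
    exact Submodule.mul_mem_mul (h3 j a ha) hb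
  · rw [map_add]
    exact Submodule.add_mem _ ha hb

lemma Rep.sum {ι : Type*} (t : Finset ι) {f : ι → A} (h : ∀ i ∈ t, S.Rep (f i)) :
    S.Rep (∑ i ∈ t, f i) := by
  classical
  induction t using Finset.induction_on with
  | empty =>
    have := (Rep.one (S := S)).smul 0
    simpa using this
  | insert i t hi ih =>
    rw [Finset.sum_insert hi]
    exact (h i (Finset.mem_insert_self i t)).add (ih fun k hk => h k (Finset.mem_insert_of_mem hk))

lemma exists_heat {f : A} (h : S.Rep f) :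
    ∃ ψ : ℝ → A, S.Heat ψ ∧ ψ 0 = f ∧ ∀ s, S.Rep (ψ s) := by
  obtain ⟨W, h1, h2, h3⟩ := h
  obtain ⟨n, b, hb⟩ := Submodule.fg_iff_exists_fin_generating_family.1 h1
  have hbW : ∀ i, b i ∈ W := fun i => by rw [← hb]; exact Submodule.subset_span ⟨i, rfl⟩
  have hL : ∀ i, Lap S.D (b i) ∈ Submodule.span ℝ (range b) := by
    intro i
    rw [hb]
    unfold Lap
    exact W.sum_mem fun j _ => h3 j _ (h3 j _ (hbW i))
  choose M hM using fun i => (Submodule.mem_span_range_iff_exists_fun ℝ).1 (hL i)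
  rw [← hb] at h2
  obtain ⟨a, ha⟩ := (Submodule.mem_span_range_iff_exists_fun ℝ).1 h2
  obtain ⟨MM, hMM⟩ : ∃ MM : Matrix (Fin n) (Fin n) ℝ, MM = Matrix.of M := ⟨_, rfl⟩
  let ℓ : Fin n → Matrix (Fin n) (Fin n) ℝ →ₗ[ℝ] ℝ := fun i =>
    { toFun := fun Q => ∑ k, a k * Q k i
      map_add' := fun P Q => by
        rw [← Finset.sum_add_distrib]
        exact Finset.sum_congr rfl fun k _ => by rw [Matrix.add_apply]; ring
      map_smul' := fun c Q => by
        rw [RingHom.id_apply, smul_eq_mul, Finset.mul_sum]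
        exact Finset.sum_congr rfl fun k _ => by rw [Matrix.smul_apply, smul_eq_mul]; ring }
  have hℓ : ∀ i Q, ℓ i Q = ∑ k, a k * Q k i := fun _ _ => rfl
  have hd : ∀ i s, HasDerivAt (fun r : ℝ => ℓ i (NormedSpace.exp (r • MM)))
      (ℓ i (NormedSpace.exp (s • MM) * MM)) s := by
    intro i s
    have h4 := hasDerivAt_exp_smul_const (𝕂 := ℝ) MM s
    exact (LinearMap.toContinuousLinearMap (ℓ i)).hasFDerivAt.comp_hasDerivAt s h4
  refine ⟨fun s => ∑ i, ℓ i (NormedSpace.exp (s • MM)) • b i,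
    ⟨Fin n, inferInstance, b, _, _, hd, fun s => rfl, fun s => ?_⟩, ?_, fun s => ?_⟩
  · dsimp only
    rw [Lap_sum]
    simp only [Lap_smul, ← hM, Finset.smul_sum, smul_smul]
    rw [Finset.sum_comm]
    refine Finset.sum_congr rfl fun j _ => ?_
    rw [← Finset.sum_smul]
    congr 1
    rw [hℓ]
    simp only [hℓ, Matrix.mul_apply, Finset.mul_sum, Finset.sum_mul]
    rw [Finset.sum_comm]
    refine Finset.sum_congr rfl fun k _ => Finset.sum_congr rfl fun i _ => ?_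
    rw [hMM, Matrix.of_apply]; ring
  · simp only [zero_smul, NormedSpace.exp_zero, hℓ]
    rw [← ha]
    refine Finset.sum_congr rfl fun i _ => ?_
    congr 1
    simp [Matrix.one_apply]
  · exact Rep.sum Finset.univ fun i _ => Rep.smul ⟨W, h1, hbW i, h3⟩ _

/-- the heat semigroup -/
def P (S : Geo A J X) (s : ℝ) (f : A) : A := by
  classical
  exact if h : S.Rep f then Classical.choose (exists_heat h) s else 0

lemma P_eq {f : A} (h : S.Rep f) (s : ℝ) : S.P s f = Classical.choose (exists_heat h) s := by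
  unfold P
  rw [dif_pos h]

lemma P_heat {f : A} (h : S.Rep f) : S.Heat fun s => S.P s f := by
  simp only [P_eq h]
  exact (Classical.choose_spec (exists_heat h)).1

lemma P_zero {f : A} (h : S.Rep f) : S.P 0 f = f := by
  rw [P_eq h]
  exact (Classical.choose_spec (exists_heat h)).2.1

lemma P_rep {f : A} (h : S.Rep f) (s : ℝ) : S.Rep (S.P s f) := by
  rw [P_eq h]
  exact (Classical.choose_spec (exists_heat h)).2.2 s

lemma P_add {f g : A} (hf : S.Rep f) (hg : S.Rep g) {s : ℝ} (hs : 0 ≤ s) :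
    S.P s (f + g) = S.P s f + S.P s g :=
  (P_heat (hf.add hg)).unique ((P_heat hf).add (P_heat hg))
    (by rw [P_zero (hf.add hg), P_zero hf, P_zero hg]) hs

lemma P_smul {f : A} (hf : S.Rep f) (c : ℝ) {s : ℝ} (hs : 0 ≤ s) :
    S.P s (c • f) = c • S.P s f :=
  (P_heat (hf.smul c)).unique ((P_heat hf).smul c)
    (by rw [P_zero (hf.smul c), P_zero hf]) hs

lemma P_comp {f : A} (hf : S.Rep f) (a : ℝ) {s : ℝ} (hs : 0 ≤ s) :
    S.P (a + s) f = S.P s (S.P a f) :=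
  ((P_heat hf).shift a).unique (P_heat (P_rep hf a))
    (by rw [P_zero (P_rep hf a), add_zero]) hs

lemma P_symm {f g : A} (hf : S.Rep f) (hg : S.Rep g) (s : ℝ) :
    S.I (S.P s f * g) = S.I (f * S.P s g) := by
  have := (P_heat hf).symm (P_heat hg) s
  rwa [P_zero hf, P_zero hg] at this

lemma P_pos [CompactSpace X] {f : A} (hf : S.Rep f) (h0 : ∀ x, 0 < S.ev x f) {s : ℝ}
    (hs : 0 ≤ s) (x : X) : 0 < S.ev x (S.P s f) :=
  (P_heat hf).pos (by rw [P_zero hf]; exact h0) s hs x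

end Geo

end

end Pool.Agent.W504.YM
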