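import Mathlib
import Pool.Agent.W504.YM.L2

/-!
# The discrete scheme: multiply by `1 - τ V`, apply the heat flow for the time `τ`
-/

open Pool.Agent.H906R3.YM Filter Topology Set

namespace Pool.Agent.W504.YM

noncomputable section

variable {A : Type*} [CommRing A] [Algebra ℝ A] {J X : Type*} [Fintype J] [DecidableEq J]
    [TopologicalSpace X]

namespace Geo

/-- one step of the scheme -/
def St (S : Geo A J X) (w : A) (τ : ℝ) (f : A) : A := S.P τ (w * f)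

variable {S : Geo A J X}

lemma St_rep {w : A} (hw : S.Rep w) {f : A} (hf : S.Rep f) (τ : ℝ) : S.Rep (S.St w τ f) :=
  P_rep (hw.mul hf) τ

lemma It_rep {w : A} (hw : S.Rep w) {f : A} (hf : S.Rep f) (τ : ℝ) (k : ℕ) :
    S.Rep ((S.St w τ)^[k] f) := by
  induction k with
  | zero => exact hf
  | succ k ih =>
    rw [Function.iterate_succ_apply']
    exact St_rep hw ih τ

lemma St_lin {w : A} (hw : S.Rep w) {f g : A} (hf : S.Rep f) (hg : S.Rep g) {τ : ℝ}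
    (hτ : 0 ≤ τ) (a b : ℝ) :
    S.St w τ (a • f + b • g) = a • S.St w τ f + b • S.St w τ g := by
  unfold St
  rw [mul_add, mul_smul_comm, mul_smul_comm, P_add ((hw.mul hf).smul a) ((hw.mul hg).smul b) hτ,
    P_smul (hw.mul hf) a hτ, P_smul (hw.mul hg) b hτ]

lemma It_lin {w : A} (hw : S.Rep w) {f g : A} (hf : S.Rep f) (hg : S.Rep g) {τ : ℝ}
    (hτ : 0 ≤ τ) (a b : ℝ) (k : ℕ) :
    (S.St w τ)^[k] (a • f + b • g) = a • (S.St w τ)^[k] f + b • (S.St w τ)^[k] g := by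
  induction k with
  | zero => rfl
  | succ k ih =>
    rw [Function.iterate_succ_apply', ih, St_lin hw (It_rep hw hf τ k) (It_rep hw hg τ k) hτ,
      ← Function.iterate_succ_apply' (S.St w τ), ← Function.iterate_succ_apply' (S.St w τ)]

lemma G2_add_le {f g : A} {x : X} {a b : ℝ} (ha : 0 ≤ a) (hb : 0 ≤ b)
    (hf : S.ev x (S.G2 f) ≤ a ^ 2) (hg : S.ev x (S.G2 g) ≤ b ^ 2) :
    S.ev x (S.G2 (f + g)) ≤ (a + b) ^ 2 := by
  rw [ev_G2] at hf hg ⊢
  have h1 := Finset.sum_mul_sq_le_sq_mul_sq Finset.univ (fun j => S.ev x (S.D j f))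
    (fun j => S.ev x (S.D j g))
  have hn : 0 ≤ ∑ j, S.ev x (S.D j f) ^ 2 := Finset.sum_nonneg fun k _ => sq_nonneg _
  have hn' : 0 ≤ ∑ j, S.ev x (S.D j g) ^ 2 := Finset.sum_nonneg fun k _ => sq_nonneg _
  have h2 : (∑ j, S.ev x (S.D j f) * S.ev x (S.D j g)) ^ 2 ≤ (a * b) ^ 2 := by
    refine h1.trans ?_
    rw [mul_pow]
    exact mul_le_mul hf hg hn' (sq_nonneg a)
  have h3 := (le_abs_self _).trans (abs_le_of_sq_le_sq h2 (mul_nonneg ha hb))
  have h4 : ∑ j, S.ev x (S.D j (f + g)) ^ 2 = ∑ j, S.ev x (S.D j f) ^ 2 +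
      2 * ∑ j, S.ev x (S.D j f) * S.ev x (S.D j g) + ∑ j, S.ev x (S.D j g) ^ 2 := by
    rw [Finset.mul_sum, ← Finset.sum_add_distrib, ← Finset.sum_add_distrib]
    refine Finset.sum_congr rfl fun j _ => ?_
    rw [map_add, map_add]; ring
  rw [h4]
  nlinarith

lemma inv_unique {a b c : A} (h1 : a * b = 1) (h2 : a * c = 1) : b = c := by
  linear_combination c * h1 - b * h2

/-- The bounds for one step. -/
lemma step [CompactSpace X] {w q : A} (hw : S.Rep w) (hwq : w * q = 1)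
    (hwpos : ∀ x, 0 < S.ev x w)
    {τ b b1 Y0 κ : ℝ} (hτ : 0 < τ) (hb1 : 0 ≤ b1) (hb : b1 < b) (hY0 : 0 < Y0)
    (hbar : ∀ s, 0 ≤ s → s ≤ τ →
      2 * (Y0 + b * (τ - s)) ^ 2 - S.K * (Y0 + b * (τ - s)) + b < 0)
    (hq : ∀ x (η : J → ℝ), ∑ k, η k ^ 2 = 1 → S.ev x (S.G2 (q * S.Rη η w)) ≤ (b1 * τ) ^ 2)
    (hκ : κ < S.K - 2 * (Y0 + b * τ)) {ψ p : A} (hψ : S.Rep ψ) (hpos : ∀ x, 0 < S.ev x ψ)
    (hp : ψ * p = 1)
    (hH : ∀ x (η : J → ℝ), ∑ k, η k ^ 2 = 1 → S.ev x (S.G2 (p * S.Rη η ψ)) ≤ Y0 ^ 2) :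
    (∀ x, 0 < S.ev x (S.St w τ ψ)) ∧ ∀ p1, S.St w τ ψ * p1 = 1 →
      (∀ x (η : J → ℝ), ∑ k, η k ^ 2 = 1 →
        S.ev x (S.G2 (p1 * S.Rη η (S.St w τ ψ))) ≤ Y0 ^ 2) ∧
      ∀ u C, S.Rep u → 0 < C → (∀ x, S.ev x (S.G2 (p * u)) < C) →
        ∀ x, S.ev x (S.G2 (p1 * S.St w τ u)) < C * Real.exp (-(2 * κ * τ)) := by
  have hwψ : S.Rep (w * ψ) := hw.mul hψ
  have hposs : ∀ s, 0 ≤ s → ∀ x, 0 < S.ev x (S.P s (w * ψ)) := fun s hs x =>
    P_pos hwψ (fun y => by rw [map_mul]; exact mul_pos (hwpos y) (hpos y)) hs x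
  have hex : ∀ s, ∃ g, 0 ≤ s → S.P s (w * ψ) * g = 1 := by
    intro s
    by_cases hs : 0 ≤ s
    · obtain ⟨g, hg⟩ := S.inv _ (hposs s hs)
      exact ⟨g, fun _ => hg⟩
    · exact ⟨0, fun h => absurd h hs⟩
  choose pc hpc using hex
  have hpc0 : pc 0 = p * q := by
    refine inv_unique (hpc 0 le_rfl) ?_
    rw [P_zero hwψ]
    linear_combination (w * q) * hp + hwq
  have hbτ : 0 ≤ b * τ := mul_nonneg (hb1.trans hb.le) hτ.le
  have hb1τ : b1 * τ < b * τ := mul_lt_mul_of_pos_right hb hτ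
  have h0 : ∀ x (η : J → ℝ), ∑ k, η k ^ 2 = 1 →
      S.ev x (S.G2 (pc 0 * S.Rη η (S.P 0 (w * ψ)))) < (Y0 + b * τ) ^ 2 := by
    intro x η hη
    have e : pc 0 * S.Rη η (S.P 0 (w * ψ)) = p * S.Rη η ψ + q * S.Rη η w := by
      rw [P_zero hwψ, Rη_mul, hpc0]
      linear_combination (p * S.Rη η ψ) * hwq + (q * S.Rη η w) * hp
    rw [e]
    refine (G2_add_le hY0.le (mul_nonneg hb1 hτ.le) (hH x η hη) (hq x η hη)).trans_lt ?_
    have h1 : 0 ≤ b1 * τ := mul_nonneg hb1 hτ.le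
    exact pow_lt_pow_left₀ (by linarith) (by linarith) two_ne_zero
  have hbarr := hess_barrier (S := S) (P_heat hwψ) hpc (T := τ) (hb1.trans hb.le) hY0 hbar h0
  refine ⟨fun x => hposs τ hτ.le x, fun p1 hp1 => ?_⟩
  have hp1' : p1 = pc τ := inv_unique hp1 (hpc τ hτ.le)
  refine ⟨fun x η hη => ?_, fun u C hu hC hu0 x => ?_⟩
  · have := hbarr τ hτ.le le_rfl x η hη
    rw [sub_self, mul_zero, add_zero] at this
    rw [hp1']
    exact this.le
  · have hwu : S.Rep (w * u) := hw.mul hu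
    have := grad_decay (S := S) (P_heat hwψ) hpc (P_heat hwu) (T := τ) (Y := Y0 + b * τ) (κ := κ)
      (C := C) (by linarith) hC hκ (fun s hs hsτ y η hη => by
        have h1 := hbarr s hs hsτ y η hη
        refine h1.le.trans ?_
        have h2 : 0 ≤ b * (τ - s) := mul_nonneg (hb1.trans hb.le) (by linarith)
        have h3 : b * (τ - s) ≤ b * τ := mul_le_mul_of_nonneg_left (by linarith)
          (hb1.trans hb.le)
        exact pow_le_pow_left₀ (by linarith) (by linarith) 2) (by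
        intro y
        rw [P_zero hwu, hpc0]
        have e : p * q * (w * u) = p * u := by linear_combination (p * u) * hwq
        rw [e]
        exact hu0 y) τ hτ.le le_rfl x
    rw [hp1']
    exact this

/-- The bounds for all steps. -/
lemma steps [CompactSpace X] {w q : A} (hw : S.Rep w) (hwq : w * q = 1)
    (hwpos : ∀ x, 0 < S.ev x w)
    {τ b b1 Y0 κ : ℝ} (hτ : 0 < τ) (hb1 : 0 ≤ b1) (hb : b1 < b) (hY0 : 0 < Y0)
    (hbar : ∀ s, 0 ≤ s → s ≤ τ →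
      2 * (Y0 + b * (τ - s)) ^ 2 - S.K * (Y0 + b * (τ - s)) + b < 0)
    (hq : ∀ x (η : J → ℝ), ∑ k, η k ^ 2 = 1 → S.ev x (S.G2 (q * S.Rη η w)) ≤ (b1 * τ) ^ 2)
    (hκ : κ < S.K - 2 * (Y0 + b * τ)) (k : ℕ) :
    (∀ x, 0 < S.ev x ((S.St w τ)^[k] 1)) ∧ ∀ p, (S.St w τ)^[k] 1 * p = 1 →
      (∀ x (η : J → ℝ), ∑ k, η k ^ 2 = 1 →
        S.ev x (S.G2 (p * S.Rη η ((S.St w τ)^[k] 1))) ≤ Y0 ^ 2) ∧
      ∀ u C, S.Rep u → 0 < C → (∀ x, S.ev x (S.G2 u) < C) →
        ∀ x, S.ev x (S.G2 (p * (S.St w τ)^[k] u)) < C * Real.exp (-(2 * κ * τ)) ^ k := by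
  induction k with
  | zero =>
    refine ⟨fun x => ?_, fun p hp => ⟨fun x η hη => ?_, fun u C hu hC hu0 x => ?_⟩⟩
    · rw [Function.iterate_zero, id, map_one]; exact one_pos
    · have h1 : S.Rη η ((S.St w τ)^[0] 1) = 0 := by
        unfold Rη
        refine Finset.sum_eq_zero fun k _ => ?_
        rw [Function.iterate_zero, id, Derivation.map_one_eq_zero, smul_zero]
      rw [h1, mul_zero]
      have h2 : S.G2 0 = 0 := by unfold G2; simp
      rw [h2, map_zero]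
      positivity
    · rw [Function.iterate_zero, id, one_mul] at hp
      rw [hp, Function.iterate_zero, id, one_mul, pow_zero, mul_one]
      exact hu0 x
  | succ k ih =>
    obtain ⟨ih1, ih2⟩ := ih
    obtain ⟨p0, hp0⟩ := S.inv _ ih1
    obtain ⟨ih3, ih4⟩ := ih2 p0 hp0
    obtain ⟨h1, h2⟩ := step hw hwq hwpos hτ hb1 hb hY0 hbar hq hκ (It_rep hw Rep.one τ k) ih1 hp0
      ih3
    simp only [Function.iterate_succ_apply']
    refine ⟨h1, fun p hp => ?_⟩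
    obtain ⟨h3, h4⟩ := h2 p hp
    refine ⟨h3, fun u C hu hC hu0 x => ?_⟩
    have := h4 _ (C * Real.exp (-(2 * κ * τ)) ^ k) (It_rep hw hu τ k) (by positivity)
      (ih4 u C hu hC hu0) x
    rw [pow_succ, ← mul_assoc]
    exact this

/-! ### integrals -/

lemma cs_w {w : A} (hw : ∀ x, 0 ≤ S.ev x w) (f g : A) :
    (S.I (w * (f * g))) ^ 2 ≤ S.I (w * (f * f)) * S.I (w * (g * g)) := by
  have h : ∀ t : ℝ, 0 ≤ S.I (w * (g * g)) * (t * t) + (2 * S.I (w * (f * g))) * t +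
      S.I (w * (f * f)) := by
    intro t
    have h1 : 0 ≤ S.I (w * ((f + t • g) * (f + t • g))) := I_nonneg fun x => by
      rw [map_mul, map_mul]
      exact mul_nonneg (hw x) (mul_self_nonneg _)
    have h2 : w * ((f + t • g) * (f + t • g)) = (t * t) • (w * (g * g)) +
        (2 * t) • (w * (f * g)) + w * (f * f) := by
      simp only [Algebra.smul_def, map_mul]
      have : (algebraMap ℝ A) 2 = 2 := map_ofNat _ 2
      rw [this]; ring
    rw [h2, map_add, map_add, map_smul, map_smul, smul_eq_mul, smul_eq_mul] at h1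
    linarith
  have h3 := discrim_le_zero h
  unfold discrim at h3
  nlinarith

lemma St_symm {w : A} (hw : S.Rep w) {f g : A} (hf : S.Rep f) (hg : S.Rep g) (τ : ℝ) :
    S.I (w * (f * S.St w τ g)) = S.I (w * (S.St w τ f * g)) := by
  have h := P_symm (hw.mul hf) (hw.mul hg) τ
  unfold St
  have e1 : w * (f * S.P τ (w * g)) = w * f * S.P τ (w * g) := by ring
  have e2 : w * (S.P τ (w * f) * g) = S.P τ (w * f) * (w * g) := by ring
  rw [e1, e2, h]

/-- decay of the norm in one step -/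
lemma norm_step {V : A} (hV : S.Rep V) (hV0 : ∀ x, 0 ≤ S.ev x V) {τ E0 : ℝ} (hτ : 0 < τ)
    (hE0 : 0 ≤ E0) (hw0 : ∀ x, 0 ≤ S.ev x (1 - τ • V)) {g : A} (hg : S.Rep g)
    (hE : E0 * S.I (S.St (1 - τ • V) τ g * S.St (1 - τ • V) τ g) ≤
      S.I (S.G2 (S.St (1 - τ • V) τ g)) +
        S.I (V * (S.St (1 - τ • V) τ g * S.St (1 - τ • V) τ g))) :
    (1 + τ * E0) ^ 2 * S.I ((1 - τ • V) * (S.St (1 - τ • V) τ g * S.St (1 - τ • V) τ g)) ≤
      S.I ((1 - τ • V) * (g * g)) := by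
  obtain ⟨w, hw⟩ : ∃ w : A, w = 1 - τ • V := ⟨_, rfl⟩
  have hwr : S.Rep w := by
    rw [hw, sub_eq_add_neg, ← neg_smul]
    exact Rep.one.add (hV.smul _)
  rw [← hw] at hE hw0 ⊢
  have hwg : S.Rep (w * g) := hwr.mul hg
  obtain ⟨Kf, hKf⟩ : ∃ Kf, Kf = S.P (τ / 2) (w * g) := ⟨_, rfl⟩
  have hKr : S.Rep Kf := by rw [hKf]; exact P_rep hwg _
  obtain ⟨RK, hRK⟩ : ∃ RK, RK = S.P (τ / 2) Kf := ⟨_, rfl⟩
  have hSt : S.St w τ g = RK := by
    rw [hRK, hKf, ← P_comp hwg (τ / 2) (half_pos hτ).le, add_halves]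
    rfl
  rw [hSt] at hE ⊢
  have h1 := (P_heat hKr).le1 (half_pos hτ).le
  rw [P_zero hKr, ← hRK] at h1
  have h2 : S.I (w * (RK * RK)) = S.I (RK * RK) - τ * S.I (V * (RK * RK)) := by
    rw [hw, sub_mul, one_mul, smul_mul_assoc, map_sub, map_smul, smul_eq_mul]
  have h3 : 0 ≤ S.I (V * (RK * RK)) := I_nonneg fun x => by
    rw [map_mul, map_mul]
    exact mul_nonneg (hV0 x) (mul_self_nonneg _)
  -- first estimate
  have h4 : (1 + τ * E0) * S.I (w * (RK * RK)) ≤ S.I (Kf * Kf) := by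
    have h5 : τ * (E0 * S.I (RK * RK)) ≤
      τ * (S.I (S.G2 RK) + S.I (V * (RK * RK))) := mul_le_mul_of_nonneg_left hE hτ.le
    have h6 : τ * E0 * S.I (w * (RK * RK)) ≤ τ * E0 * S.I (RK * RK) := by
      refine mul_le_mul_of_nonneg_left ?_ (mul_nonneg hτ.le hE0)
      rw [h2]
      have := mul_nonneg hτ.le h3
      linarith
    rw [add_mul, one_mul]
    nlinarith
  -- duality
  have h7 : S.I (Kf * Kf) = S.I (w * (g * RK)) := by
    have h8 := P_symm hwg hKr (τ / 2)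
    rw [← hKf, ← hRK] at h8
    rw [h8, mul_assoc]
  have h9 := cs_w hw0 g RK
  rw [← h7] at h9
  obtain ⟨a, ha⟩ : ∃ a, a = S.I (Kf * Kf) := ⟨_, rfl⟩
  obtain ⟨c, hc⟩ : ∃ c, c = S.I (w * (g * g)) := ⟨_, rfl⟩
  obtain ⟨d, hd⟩ : ∃ d, d = S.I (w * (RK * RK)) := ⟨_, rfl⟩
  have ha0 : 0 ≤ a := by rw [ha]; exact I_sq_nonneg _
  have hc0 : 0 ≤ c := by
    rw [hc]
    exact I_nonneg fun x => by
      rw [map_mul, map_mul]
      exact mul_nonneg (hw0 x) (mul_self_nonneg _)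
  rw [← ha, ← hd] at h4
  rw [← ha, ← hc, ← hd] at h9
  rw [← hc, ← hd]
  have hρ : 1 ≤ 1 + τ * E0 := by
    have := mul_nonneg hτ.le hE0
    linarith
  have h10 : (1 + τ * E0) * a ≤ c := by
    rcases ha0.eq_or_lt with h | h
    · rw [← h, mul_zero]; exact hc0
    · have h11 : (1 + τ * E0) * a * a ≤ c * a := by
        calc (1 + τ * E0) * a * a = (1 + τ * E0) * a ^ 2 := by ring
          _ ≤ (1 + τ * E0) * (c * d) := mul_le_mul_of_nonneg_left h9 (by linarith)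
          _ = c * ((1 + τ * E0) * d) := by ring
          _ ≤ c * a := mul_le_mul_of_nonneg_left h4 hc0
      exact le_of_mul_le_mul_right h11 h
  calc (1 + τ * E0) ^ 2 * d = (1 + τ * E0) * ((1 + τ * E0) * d) := by ring
    _ ≤ (1 + τ * E0) * a := mul_le_mul_of_nonneg_left h4 (by linarith)
    _ ≤ c := h10

/-- logarithmic convexity -/
lemma logconv {w : A} (hw : S.Rep w) (hw0 : ∀ x, 0 ≤ S.ev x w) {F : A} (hF : S.Rep F)
    {τ θ : ℝ} (hθ : 0 ≤ θ)
    (h1 : θ * S.I (w * (F * F)) ≤ S.I (w * (F * S.St w τ F))) (k : ℕ) :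
    (θ ^ 2) ^ k * S.I (w * (F * F)) ≤
      S.I (w * ((S.St w τ)^[k] F * (S.St w τ)^[k] F)) := by
  obtain ⟨b, hb⟩ : ∃ b : ℕ → ℝ, b = fun k => S.I (w * ((S.St w τ)^[k] F * (S.St w τ)^[k] F)) :=
    ⟨_, rfl⟩
  have hbk : ∀ k, S.I (w * ((S.St w τ)^[k] F * (S.St w τ)^[k] F)) = b k := fun k => by rw [hb]
  have hb0 : ∀ k, 0 ≤ b k := fun k => by
    rw [← hbk]
    exact I_nonneg fun x => by
      rw [map_mul, map_mul]
      exact mul_nonneg (hw0 x) (mul_self_nonneg _)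
  have hbz : b 0 = S.I (w * (F * F)) := by rw [← hbk]; rfl
  have hlc : ∀ k, b (k + 1) ^ 2 ≤ b k * b (k + 2) := by
    intro k
    have h2 := cs_w hw0 ((S.St w τ)^[k] F) ((S.St w τ)^[k + 2] F)
    rw [hbk, hbk] at h2
    have h3 : S.I (w * ((S.St w τ)^[k] F * (S.St w τ)^[k + 2] F)) = b (k + 1) := by
      rw [← hbk, Function.iterate_succ_apply' (S.St w τ) (k + 1), St_symm hw (It_rep hw hF τ k)
        (It_rep hw hF τ (k + 1)), ← Function.iterate_succ_apply' (S.St w τ)]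
    rwa [h3] at h2
  have hstart : θ ^ 2 * b 0 ≤ b 1 := by
    have h2 := cs_w hw0 F ((S.St w τ)^[1] F)
    rw [hbk 1, ← hbz] at h2
    have h3 : S.I (w * (F * (S.St w τ)^[1] F)) = S.I (w * (F * S.St w τ F)) := rfl
    rw [h3] at h2
    rw [← hbz] at h1
    rcases (hb0 0).eq_or_lt with h | h
    · rw [← h, mul_zero]; exact hb0 1
    · have h4 : (θ * b 0) ^ 2 ≤ b 0 * b 1 :=
        (pow_le_pow_left₀ (mul_nonneg hθ h.le) h1 2).trans h2
      have h5 : θ ^ 2 * b 0 * b 0 ≤ b 1 * b 0 := by nlinarith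
      exact le_of_mul_le_mul_right h5 h
  have hstep : ∀ k, θ ^ 2 * b k ≤ b (k + 1) := by
    intro k
    induction k with
    | zero => exact hstart
    | succ k ih =>
      rcases (hb0 k).eq_or_lt with h | h
      · have h2 := hlc k
        rw [← h, zero_mul] at h2
        have h3 : b (k + 1) = 0 := pow_eq_zero_iff two_ne_zero |>.1 (le_antisymm h2 (sq_nonneg _))
        rw [h3, mul_zero]
        exact hb0 _
      · have h2 := hlc k
        have h3 : b k * (θ ^ 2 * b (k + 1)) ≤ b k * b (k + 2) := by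
          calc b k * (θ ^ 2 * b (k + 1)) = (θ ^ 2 * b k) * b (k + 1) := by ring
            _ ≤ b (k + 1) * b (k + 1) := mul_le_mul_of_nonneg_right ih (hb0 _)
            _ = b (k + 1) ^ 2 := by ring
            _ ≤ _ := h2
        exact le_of_mul_le_mul_left h3 h
  rw [hbk, ← hbz]
  induction k with
  | zero => simp
  | succ k ih =>
    calc (θ ^ 2) ^ (k + 1) * b 0 = θ ^ 2 * ((θ ^ 2) ^ k * b 0) := by ring
      _ ≤ θ ^ 2 * b k := mul_le_mul_of_nonneg_left ih (sq_nonneg θ)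
      _ ≤ _ := hstep k

end Geo

end

end Pool.Agent.W504.YM
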