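import Mathlib
import Pool.Agent.W504.YM.Sch

/-!
# The spectral gap, abstract form
-/

open Pool.Agent.H906R3.YM Filter Topology Set

namespace Pool.Agent.W504.YM

noncomputable section

variable {A : Type*} [CommRing A] [Algebra ℝ A] {J X : Type*} [Fintype J] [DecidableEq J]
    [TopologicalSpace X]

lemma exists_unit (α β : ℝ) : ∃ a b : ℝ, a ^ 2 + b ^ 2 = 1 ∧ a * α + b * β = 0 := by
  by_cases h : α ^ 2 + β ^ 2 = 0
  · refine ⟨1, 0, by norm_num, ?_⟩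
    have h1 : α ^ 2 = 0 := by nlinarith [sq_nonneg α, sq_nonneg β]
    rw [pow_eq_zero_iff two_ne_zero] at h1
    rw [h1]; ring
  · have hn : 0 ≤ α ^ 2 + β ^ 2 := by positivity
    obtain ⟨r, hr⟩ : ∃ r, r = Real.sqrt (α ^ 2 + β ^ 2) := ⟨_, rfl⟩
    have hr2 : r ^ 2 = α ^ 2 + β ^ 2 := by rw [hr]; exact Real.sq_sqrt hn
    have hr0 : r ≠ 0 := by
      intro h'
      rw [h'] at hr2
      exact h (by rw [← hr2]; ring)
    refine ⟨β / r, -α / r, ?_, by field_simp; ring⟩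
    field_simp
    rw [hr2]; ring

namespace Geo

variable {S : Geo A J X}

lemma exists_bound [CompactSpace X] (f : A) : ∃ C, 0 ≤ C ∧ ∀ x, |S.ev x f| ≤ C := by
  obtain ⟨C, hC⟩ := (isCompact_univ.image (S.cont f).abs).bddAbove
  refine ⟨max C 0, le_max_right _ _, fun x => (hC ⟨x, trivial, rfl⟩).trans (le_max_left _ _)⟩

lemma comb_G2 {a b : ℝ} (h : a ^ 2 + b ^ 2 = 1) (f g : A) (x : X) :
    S.ev x (S.G2 (a • f + b • g)) ≤ S.ev x (S.G2 f) + S.ev x (S.G2 g) := by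
  rw [ev_G2, ev_G2, ev_G2, ← Finset.sum_add_distrib]
  refine Finset.sum_le_sum fun j _ => ?_
  rw [map_add, Derivation.map_smul, Derivation.map_smul, map_add, map_smul, map_smul, smul_eq_mul,
    smul_eq_mul]
  obtain ⟨u, hu⟩ : ∃ u, u = S.ev x (S.D j f) := ⟨_, rfl⟩
  obtain ⟨v, hv⟩ : ∃ v, v = S.ev x (S.D j g) := ⟨_, rfl⟩
  rw [← hu, ← hv]
  have : u ^ 2 + v ^ 2 = (a * u + b * v) ^ 2 + (b * u - a * v) ^ 2 := by
    calc u ^ 2 + v ^ 2 = (a ^ 2 + b ^ 2) * (u ^ 2 + v ^ 2) := by rw [h, one_mul]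
      _ = _ := by ring
  rw [this]
  nlinarith [sq_nonneg (b * u - a * v)]

lemma comb_sq {a b : ℝ} (h : a ^ 2 + b ^ 2 = 1) {W : A} (hW : ∀ x, 0 ≤ S.ev x W) (f g : A) :
    S.I (W * ((a • f + b • g) * (a • f + b • g))) ≤ S.I (W * (f * f)) + S.I (W * (g * g)) := by
  rw [← map_add]
  refine S.I_mono fun x => ?_
  simp only [map_add, map_mul, map_smul, smul_eq_mul]
  rw [← mul_add]
  refine mul_le_mul_of_nonneg_left ?_ (hW x)
  obtain ⟨u, hu⟩ : ∃ u, u = S.ev x f := ⟨_, rfl⟩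
  obtain ⟨v, hv⟩ : ∃ v, v = S.ev x g := ⟨_, rfl⟩
  rw [← hu, ← hv]
  have : u * u + v * v = (a * u + b * v) ^ 2 + (b * u - a * v) ^ 2 := by
    calc u * u + v * v = (a ^ 2 + b ^ 2) * (u * u + v * v) := by rw [h, one_mul]
      _ = _ := by ring
  rw [this]
  nlinarith [sq_nonneg (b * u - a * v)]

/-- The conclusion for one value of the time step. -/
lemma gap_tau [CompactSpace X] [Nonempty X] {V q : A} (hV : S.Rep V)
    (hV0 : ∀ x, 0 ≤ S.ev x V) {Lo : ℝ}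
    (osc : ∀ f c, 0 ≤ c → (∀ x, S.ev x (S.G2 f) ≤ c ^ 2) → ∀ x y, S.ev x f - S.ev y f ≤ Lo * c)
    (Pr : A → Prop) (Pr1 : Pr 1) (Prw : ∀ (τ : ℝ) f, Pr f → Pr ((1 - τ • V) * f))
    (PrP : ∀ f s, 0 ≤ s → S.Rep f → Pr f → Pr (S.P s f))
    {E0 : ℝ} (hE0 : 0 ≤ E0)
    (hE : ∀ f, S.Rep f → Pr f → E0 * S.I (f * f) ≤ S.I (S.G2 f) + S.I (V * (f * f)))
    {F1 F2 : A} (hF1 : S.Rep F1) (hF2 : S.Rep F2) {τ b b1 Y0 κ θ m : ℝ}
    (hwq : (1 - τ • V) * q = 1) (hwpos : ∀ x, 0 < S.ev x (1 - τ • V))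
    (hτ : 0 < τ) (hb1 : 0 ≤ b1) (hb : b1 < b) (hY0 : 0 < Y0)
    (hbar : ∀ s, 0 ≤ s → s ≤ τ →
      2 * (Y0 + b * (τ - s)) ^ 2 - S.K * (Y0 + b * (τ - s)) + b < 0)
    (hq : ∀ x (η : J → ℝ), ∑ k, η k ^ 2 = 1 →
      S.ev x (S.G2 (q * S.Rη η (1 - τ • V))) ≤ (b1 * τ) ^ 2)
    (hκ : κ < S.K - 2 * (Y0 + b * τ)) (hθ : 0 ≤ θ) (hm : 0 < m)
    (hm2 : ∀ a b : ℝ, a ^ 2 + b ^ 2 = 1 →
      m ≤ S.I ((1 - τ • V) * ((a • F1 + b • F2) * (a • F1 + b • F2))))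
    (hθ2 : ∀ a b : ℝ, a ^ 2 + b ^ 2 = 1 →
      θ * S.I ((1 - τ • V) * ((a • F1 + b • F2) * (a • F1 + b • F2))) ≤
        S.I ((1 - τ • V) * ((a • F1 + b • F2) * S.St (1 - τ • V) τ (a • F1 + b • F2)))) :
    θ * (Real.exp (κ * τ) * (1 + τ * E0)) ≤ 1 := by
  obtain ⟨x0⟩ := (inferInstance : Nonempty X)
  have hwr : S.Rep (1 - τ • V) := by
    rw [sub_eq_add_neg, ← neg_smul]
    exact Rep.one.add (hV.smul _)
  obtain ⟨C0, hC00, hC0⟩ := exists_bound (S := S) (S.G2 F1 + S.G2 F2)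
  -- norms of the iterates of `1`
  have hPr : ∀ k, Pr ((S.St (1 - τ • V) τ)^[k] 1) := by
    intro k
    induction k with
    | zero => exact Pr1
    | succ k ih =>
      rw [Function.iterate_succ_apply']
      exact PrP _ τ hτ.le (hwr.mul (It_rep hwr Rep.one τ k)) (Prw τ _ ih)
  have hnorm : ∀ k, ((1 + τ * E0) ^ 2) ^ k * S.I ((1 - τ • V) *
      ((S.St (1 - τ • V) τ)^[k] 1 * (S.St (1 - τ • V) τ)^[k] 1)) ≤ 1 := by
    intro k
    induction k with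
    | zero =>
      rw [pow_zero, one_mul, Function.iterate_zero, id, mul_one, mul_one]
      have h1 := S.I_mono (f := 1 - τ • V) (g := 1) fun x => by
        rw [map_sub, map_smul, map_one, smul_eq_mul]
        have := mul_nonneg hτ.le (hV0 x)
        linarith
      rwa [S.I_one] at h1
    | succ k ih =>
      have h1 := norm_step hV hV0 hτ hE0 (fun x => (hwpos x).le)
        (g := (S.St (1 - τ • V) τ)^[k] 1) (It_rep hwr Rep.one τ k) (by
          rw [← Function.iterate_succ_apply' (S.St (1 - τ • V) τ)]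
          exact hE _ (It_rep hwr Rep.one τ _) (hPr _))
      rw [← Function.iterate_succ_apply' (S.St (1 - τ • V) τ)] at h1
      refine le_trans ?_ ih
      rw [pow_succ, mul_assoc]
      exact mul_le_mul_of_nonneg_left h1 (by positivity)
  -- the main inequality
  have hmain : ∀ k : ℕ, ((θ * (Real.exp (κ * τ) * (1 + τ * E0))) ^ 2) ^ k * m ≤
      Lo ^ 2 * (C0 + 1) := by
    intro k
    obtain ⟨a, b', hab, h0⟩ := exists_unit (S.ev x0 ((S.St (1 - τ • V) τ)^[k] F1))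
      (S.ev x0 ((S.St (1 - τ • V) τ)^[k] F2))
    obtain ⟨F, hFd⟩ : ∃ F, F = a • F1 + b' • F2 := ⟨_, rfl⟩
    have hF : S.Rep F := by rw [hFd]; exact (hF1.smul a).add (hF2.smul b')
    have hm' := hm2 a b' hab
    have hθ' := hθ2 a b' hab
    rw [← hFd] at hm' hθ'
    have hG : ∀ x, S.ev x (S.G2 F) < C0 + 1 := by
      intro x
      have h1 := comb_G2 (S := S) hab F1 F2 x
      have h2 := (le_abs_self _).trans (hC0 x)
      rw [map_add] at h2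
      rw [hFd]
      linarith
    obtain ⟨hpos, hst⟩ := steps hwr hwq hwpos hτ hb1 hb hY0 hbar hq hκ k
    obtain ⟨p, hp⟩ := S.inv _ hpos
    obtain ⟨-, hst2⟩ := hst p hp
    have hgr := hst2 F (C0 + 1) hF (by linarith) hG
    obtain ⟨u, hu⟩ : ∃ u, u = (S.St (1 - τ • V) τ)^[k] F := ⟨_, rfl⟩
    obtain ⟨ψ, hψ⟩ : ∃ ψ, ψ = (S.St (1 - τ • V) τ)^[k] 1 := ⟨_, rfl⟩
    have hlog := logconv hwr (fun x => (hwpos x).le) hF hθ hθ' k
    have hnk := hnorm k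
    rw [← hu] at hgr hlog
    rw [← hψ] at hp hpos hnk
    obtain ⟨Q, hQ⟩ : ∃ Q, Q = (C0 + 1) * Real.exp (-(2 * κ * τ)) ^ k := ⟨_, rfl⟩
    have hQ0 : 0 ≤ Q := by rw [hQ]; positivity
    rw [← hQ] at hgr
    have hu0 : S.ev x0 (p * u) = 0 := by
      rw [map_mul, hu, hFd, It_lin hwr hF1 hF2 hτ.le, map_add, map_smul, map_smul, smul_eq_mul,
        smul_eq_mul, h0, mul_zero]
    have hosc := osc (p * u) (Real.sqrt Q) (Real.sqrt_nonneg _) fun x => by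
      rw [Real.sq_sqrt hQ0]; exact (hgr x).le
    have hpt : ∀ x, S.ev x ((1 - τ • V) * (u * u)) ≤
        S.ev x ((Lo ^ 2 * Q) • ((1 - τ • V) * (ψ * ψ))) := by
      intro x
      have h1 := hosc x x0
      have h2 := hosc x0 x
      rw [hu0] at h1 h2
      have h3 : S.ev x (p * u) ^ 2 ≤ Lo ^ 2 * Q := by
        have h4 : Lo ^ 2 * Q = (Lo * Real.sqrt Q) ^ 2 := by
          rw [mul_pow, Real.sq_sqrt hQ0]
        rw [h4]
        exact sq_le_sq' (by linarith) (by linarith)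
      have h5 : u = ψ * (p * u) := by rw [← mul_assoc, hp, one_mul]
      have h6 : S.ev x u = S.ev x ψ * S.ev x (p * u) := by
        conv_lhs => rw [h5]
        rw [map_mul]
      have h7 : S.ev x ((1 - τ • V) * (u * u)) =
          S.ev x (p * u) ^ 2 * (S.ev x (1 - τ • V) * (S.ev x ψ * S.ev x ψ)) := by
        rw [map_mul (S.ev x) (1 - τ • V) (u * u), map_mul (S.ev x) u u, h6]; ring
      rw [map_smul, smul_eq_mul, h7, map_mul (S.ev x) (1 - τ • V) (ψ * ψ), map_mul (S.ev x) ψ ψ]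
      exact mul_le_mul_of_nonneg_right h3 (mul_nonneg (hwpos x).le (mul_self_nonneg _))
    have hint := S.I_mono hpt
    rw [map_smul, smul_eq_mul] at hint
    have hρ : (0 : ℝ) < (1 + τ * E0) ^ 2 := by
      have := mul_nonneg hτ.le hE0
      positivity
    have hexp : Real.exp (κ * τ) ^ 2 * Real.exp (-(2 * κ * τ)) = 1 := by
      rw [← Real.exp_nat_mul, ← Real.exp_add]
      have : ((2 : ℕ) : ℝ) * (κ * τ) + -(2 * κ * τ) = 0 := by push_cast; ring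
      rw [this, Real.exp_zero]
    obtain ⟨Z, hZ⟩ : ∃ Z, Z = S.I ((1 - τ • V) * (ψ * ψ)) := ⟨_, rfl⟩
    rw [← hZ] at hint hnk
    have hLQ : 0 ≤ Lo ^ 2 * (C0 + 1) := by positivity
    calc ((θ * (Real.exp (κ * τ) * (1 + τ * E0))) ^ 2) ^ k * m
        = (Real.exp (κ * τ) ^ 2) ^ k * ((1 + τ * E0) ^ 2) ^ k * ((θ ^ 2) ^ k * m) := by
          rw [mul_pow, mul_pow, mul_pow, mul_pow]; ring
      _ ≤ (Real.exp (κ * τ) ^ 2) ^ k * ((1 + τ * E0) ^ 2) ^ k * (Lo ^ 2 * Q * Z) := by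
          refine mul_le_mul_of_nonneg_left ?_ (by positivity)
          exact (mul_le_mul_of_nonneg_left hm' (by positivity)).trans (hlog.trans hint)
      _ = (Real.exp (κ * τ) ^ 2 * Real.exp (-(2 * κ * τ))) ^ k * (Lo ^ 2 * (C0 + 1)) *
            (((1 + τ * E0) ^ 2) ^ k * Z) := by
          rw [hQ, mul_pow (Real.exp (κ * τ) ^ 2)]; ring
      _ = (Lo ^ 2 * (C0 + 1)) * (((1 + τ * E0) ^ 2) ^ k * Z) := by rw [hexp, one_pow, one_mul]
      _ ≤ (Lo ^ 2 * (C0 + 1)) * 1 := mul_le_mul_of_nonneg_left hnk hLQ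
      _ = _ := mul_one _
  by_contra hcon
  rw [not_le] at hcon
  have h2 : 1 < (θ * (Real.exp (κ * τ) * (1 + τ * E0))) ^ 2 := by nlinarith
  obtain ⟨n, hn⟩ := pow_unbounded_of_one_lt (Lo ^ 2 * (C0 + 1) / m) h2
  have h3 := hmain n
  rw [div_lt_iff₀ hm] at hn
  linarith

/-- the lower bound for the first moment -/
lemma first_moment {V : A} (hV : S.Rep V) (hV0 : ∀ x, 0 ≤ S.ev x V) {τ E1 C1 C2 m : ℝ}
    (hτ : 0 < τ) (hτ1 : τ ≤ 1) (hm : 0 < m)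
    (hmτ : m / 2 ≤ m - τ * C2) {F : A} (hF : S.Rep F) (hmF : m ≤ S.I (F * F))
    (hE1 : S.I (S.G2 F) + S.I (V * (F * F)) ≤ E1 * S.I (F * F))
    (hC1 : S.I (S.G2 F) + 2 * S.I (S.G2 (V * F)) ≤ C1) (hC2 : S.I (V * (F * F)) ≤ C2) :
    m / 2 ≤ S.I ((1 - τ • V) * (F * F)) ∧
    (1 - τ * E1 - τ ^ 2 * (2 * (E1 * C2 + C1) / m)) * S.I ((1 - τ • V) * (F * F)) ≤
      S.I ((1 - τ • V) * (F * S.St (1 - τ • V) τ F)) := by
  have hwr : S.Rep (1 - τ • V) := by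
    rw [sub_eq_add_neg, ← neg_smul]
    exact Rep.one.add (hV.smul _)
  obtain ⟨w, hw⟩ : ∃ w : A, w = 1 - τ • V := ⟨_, rfl⟩
  rw [← hw] at hwr ⊢
  have hwF : S.Rep (w * F) := hwr.mul hF
  have hVF0 : 0 ≤ S.I (V * (F * F)) := I_nonneg fun x => by
    rw [map_mul, map_mul]
    exact mul_nonneg (hV0 x) (mul_self_nonneg _)
  have hG0 := I_G2_nonneg (S := S) F
  have hGV0 := I_G2_nonneg (S := S) (V * F)
  have hFF : 0 < S.I (F * F) := lt_of_lt_of_le hm hmF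
  have hE10 : 0 ≤ E1 := by
    by_contra hc
    rw [not_le] at hc
    have := mul_neg_of_neg_of_pos hc hFF
    linarith
  have h0 : S.I (w * (F * F)) = S.I (F * F) - τ * S.I (V * (F * F)) := by
    rw [hw, sub_mul, one_mul, smul_mul_assoc, map_sub, map_smul, smul_eq_mul]
  have hτC2 : τ * S.I (V * (F * F)) ≤ τ * C2 := mul_le_mul_of_nonneg_left hC2 hτ.le
  have hm0 : m / 2 ≤ S.I (w * (F * F)) := by rw [h0]; linarith
  refine ⟨hm0, ?_⟩
  -- the first moment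
  have h1 : S.I (w * (F * S.St w τ F)) = S.I (S.P (τ / 2) (w * F) * S.P (τ / 2) (w * F)) := by
    have h2 := P_symm hwF (P_rep hwF (τ / 2)) (τ / 2)
    rw [h2, ← P_comp hwF (τ / 2) (half_pos hτ).le, add_halves, ← mul_assoc]
    rfl
  have h2 := (P_heat hwF).le2 (half_pos hτ).le
  rw [P_zero hwF, ← h1] at h2
  have h3 : S.I (w * F * (w * F)) = S.I (w * (F * F)) - τ * S.I (w * (V * (F * F))) := by
    have e : w * F * (w * F) = w * (F * F) - τ • (w * (V * (F * F))) := by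
      have : w * F * (w * F) = w * ((1 - τ • V) * (F * F)) := by rw [← hw]; ring
      rw [this, sub_mul, one_mul, smul_mul_assoc, mul_sub, mul_smul_comm]
    rw [e, map_sub, map_smul, smul_eq_mul]
  have h4 : S.I (w * (V * (F * F))) ≤ S.I (V * (F * F)) := by
    refine S.I_mono fun x => ?_
    have h5 : 0 ≤ S.ev x (V * (F * F)) := by
      rw [map_mul, map_mul]
      exact mul_nonneg (hV0 x) (mul_self_nonneg _)
    have h6 : S.ev x w ≤ 1 := by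
      rw [hw, map_sub, map_one, map_smul, smul_eq_mul]
      have := mul_nonneg hτ.le (hV0 x)
      linarith
    rw [map_mul]
    exact mul_le_of_le_one_left h5 h6
  have h5 : S.I (S.G2 (w * F)) ≤ (1 + τ) * S.I (S.G2 F) + (τ + τ ^ 2) * S.I (S.G2 (V * F)) := by
    have e : (1 + τ) * S.I (S.G2 F) + (τ + τ ^ 2) * S.I (S.G2 (V * F)) =
        S.I ((1 + τ) • S.G2 F + (τ + τ ^ 2) • S.G2 (V * F)) := by
      rw [map_add, map_smul, map_smul, smul_eq_mul, smul_eq_mul]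
    rw [e]
    refine S.I_mono fun x => ?_
    rw [map_add, map_smul, map_smul, smul_eq_mul, smul_eq_mul, ev_G2, ev_G2, ev_G2,
      Finset.mul_sum, Finset.mul_sum, ← Finset.sum_add_distrib]
    refine Finset.sum_le_sum fun j _ => ?_
    have e2 : S.ev x (S.D j (w * F)) = S.ev x (S.D j F) - τ * S.ev x (S.D j (V * F)) := by
      rw [hw, sub_mul, one_mul, smul_mul_assoc, map_sub, Derivation.map_smul, map_sub, map_smul,
        smul_eq_mul]
    rw [e2]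
    nlinarith [mul_nonneg hτ.le (sq_nonneg (S.ev x (S.D j F) + S.ev x (S.D j (V * F))))]
  have h6 : τ * ((1 + τ) * S.I (S.G2 F) + (τ + τ ^ 2) * S.I (S.G2 (V * F))) ≤
      τ * S.I (S.G2 F) + τ ^ 2 * C1 := by
    have h7 : (1 + τ) * S.I (S.G2 (V * F)) ≤ 2 * S.I (S.G2 (V * F)) :=
      mul_le_mul_of_nonneg_right (by linarith) hGV0
    have h8 : τ ^ 2 * (S.I (S.G2 F) + (1 + τ) * S.I (S.G2 (V * F))) ≤ τ ^ 2 * C1 :=
      mul_le_mul_of_nonneg_left (by linarith) (sq_nonneg τ)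
    nlinarith
  have h7 : τ * S.I (S.G2 (w * F)) ≤ τ * S.I (S.G2 F) + τ ^ 2 * C1 :=
    (mul_le_mul_of_nonneg_left h5 hτ.le).trans h6
  have h8 : τ * S.I (w * (V * (F * F))) ≤ τ * S.I (V * (F * F)) :=
    mul_le_mul_of_nonneg_left h4 hτ.le
  have h9 : τ * (S.I (S.G2 F) + S.I (V * (F * F))) ≤ τ * (E1 * S.I (F * F)) :=
    mul_le_mul_of_nonneg_left hE1 hτ.le
  have h10 : τ * (E1 * S.I (F * F)) ≤ τ * E1 * S.I (w * (F * F)) + τ ^ 2 * (E1 * C2) := by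
    have h11 : S.I (F * F) ≤ S.I (w * (F * F)) + τ * C2 := by rw [h0]; linarith
    have h12 := mul_le_mul_of_nonneg_left h11 (mul_nonneg hτ.le hE10)
    nlinarith
  have hC20 : 0 ≤ C2 := hVF0.trans hC2
  have hC10 : 0 ≤ C1 := by linarith
  have h11 : τ ^ 2 * (E1 * C2 + C1) ≤
      τ ^ 2 * (2 * (E1 * C2 + C1) / m) * S.I (w * (F * F)) := by
    have h12 : τ ^ 2 * (2 * (E1 * C2 + C1) / m) * (m / 2) = τ ^ 2 * (E1 * C2 + C1) := by
      field_simp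
    rw [← h12]
    refine mul_le_mul_of_nonneg_left hm0 ?_
    have := mul_nonneg hE10 hC20
    positivity
  have h12 : 2 * (τ / 2) * S.I (S.G2 (w * F)) = τ * S.I (S.G2 (w * F)) := by ring
  rw [h3, h12] at h2
  rw [sub_mul, sub_mul, one_mul]
  nlinarith

lemma small {f : ℝ → ℝ} (hf : Continuous f) (h : 0 < f 0) : ∀ᶠ τ in 𝓝[>] (0 : ℝ), 0 < f τ :=
  (hf.tendsto 0).mono_left nhdsWithin_le_nhds |>.eventually (lt_mem_nhds h)

lemma vec_add_le {f g : J → ℝ} {a b : ℝ} (ha : 0 ≤ a) (hb : 0 ≤ b)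
    (hf : ∑ j, f j ^ 2 ≤ a ^ 2) (hg : ∑ j, g j ^ 2 ≤ b ^ 2) :
    ∑ j, (f j + g j) ^ 2 ≤ (a + b) ^ 2 := by
  have h1 := Finset.sum_mul_sq_le_sq_mul_sq Finset.univ f g
  have hn' : 0 ≤ ∑ j, g j ^ 2 := Finset.sum_nonneg fun k _ => sq_nonneg _
  have h2 : (∑ j, f j * g j) ^ 2 ≤ (a * b) ^ 2 := by
    refine h1.trans ?_
    rw [mul_pow]
    exact mul_le_mul hf hg hn' (sq_nonneg a)
  have h3 := (le_abs_self _).trans (abs_le_of_sq_le_sq h2 (mul_nonneg ha hb))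
  have h4 : ∑ j, (f j + g j) ^ 2 = ∑ j, f j ^ 2 + 2 * ∑ j, f j * g j + ∑ j, g j ^ 2 := by
    rw [Finset.mul_sum, ← Finset.sum_add_distrib, ← Finset.sum_add_distrib]
    refine Finset.sum_congr rfl fun j _ => ?_
    ring
  rw [h4]
  nlinarith

/-- the effect of the multiplication on the logarithmic derivatives -/
lemma mult_bound {V q : A} {τ B b1 Vm rV aV : ℝ} (hτ : 0 < τ) (hV0 : ∀ x, 0 ≤ S.ev x V)
    (hVm : ∀ x, S.ev x V ≤ Vm) (hτV : τ * Vm ≤ 1 / 2) (hwq : (1 - τ • V) * q = 1) (hB0 : 0 ≤ B)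
    (hb1 : 0 ≤ b1) (hrV : 0 ≤ rV) (haV : 0 ≤ aV) (hbτ : B + τ * (2 * Vm * B + 4 * (rV * aV)) ≤ b1)
    {x : X} {η : J → ℝ} (hB : S.ev x (S.G2 (S.Rη η V)) ≤ B ^ 2)
    (hr : |S.ev x (S.Rη η V)| ≤ rV) (ha : S.ev x (S.G2 V) ≤ aV ^ 2) :
    S.ev x (S.G2 (q * S.Rη η (1 - τ • V))) ≤ (b1 * τ) ^ 2 := by
  have hR : S.Rη η (1 - τ • V) = (-τ) • S.Rη η V := by
    unfold Rη
    rw [Finset.smul_sum]
    refine Finset.sum_congr rfl fun k _ => ?_
    rw [map_sub, Derivation.map_one_eq_zero, zero_sub, Derivation.map_smul, smul_neg, smul_comm,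
      neg_smul]
  rw [hR, mul_smul_comm, G2_smul, map_smul, smul_eq_mul]
  have hVx := hVm x
  have hVx0 := hV0 x
  have hτVx : τ * S.ev x V ≤ 1 / 2 := (mul_le_mul_of_nonneg_left hVx hτ.le).trans hτV
  have hτVx0 := mul_nonneg hτ.le hVx0
  obtain ⟨Q, hQ⟩ : ∃ Q, Q = S.ev x q := ⟨_, rfl⟩
  have hQ1 : (1 - τ * S.ev x V) * Q = 1 := by
    have := congrArg (S.ev x) hwq
    rw [map_mul, map_sub, map_one, map_smul, smul_eq_mul, ← hQ] at this
    exact this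
  have hQ0 : 0 ≤ Q := by
    by_contra hc
    rw [not_le] at hc
    nlinarith
  have hQ2 : Q ≤ 2 := by nlinarith
  have hQ3 : Q ≤ 1 + 2 * (τ * Vm) := by
    have h1 : Q = 1 + τ * S.ev x V * Q := by linarith
    have h2 : τ * S.ev x V * Q ≤ τ * Vm * 2 := by
      refine mul_le_mul (mul_le_mul_of_nonneg_left hVx hτ.le) hQ2 hQ0 ?_
      exact mul_nonneg hτ.le (hVx0.trans hVx)
    linarith
  have hD : ∀ j, S.ev x (S.D j (q * S.Rη η V)) =
      Q * S.ev x (S.D j (S.Rη η V)) + (τ * Q ^ 2 * S.ev x (S.Rη η V)) * S.ev x (S.D j V) := by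
    intro j
    have h1 : S.D j (1 - τ • V) = (-τ) • S.D j V := by
      rw [map_sub, Derivation.map_one_eq_zero, zero_sub, Derivation.map_smul, neg_smul]
    rw [Derivation.leibniz, D_inv hwq, h1, smul_eq_mul, smul_eq_mul, map_add, map_mul, map_mul,
      map_neg, map_mul, map_mul, map_smul, smul_eq_mul, ← hQ]
    ring
  have h1 : S.ev x (S.G2 (q * S.Rη η V)) ≤ (Q * B + τ * Q ^ 2 * rV * aV) ^ 2 := by
    rw [ev_G2]
    simp only [hD]
    refine vec_add_le (mul_nonneg hQ0 hB0) (by positivity) ?_ ?_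
    · have : ∑ j, (Q * S.ev x (S.D j (S.Rη η V))) ^ 2 = Q ^ 2 * S.ev x (S.G2 (S.Rη η V)) := by
        rw [ev_G2, Finset.mul_sum]
        exact Finset.sum_congr rfl fun j _ => by rw [mul_pow]
      rw [this, mul_pow]
      exact mul_le_mul_of_nonneg_left hB (sq_nonneg _)
    · have : ∑ j, (τ * Q ^ 2 * S.ev x (S.Rη η V) * S.ev x (S.D j V)) ^ 2 =
          (τ * Q ^ 2 * S.ev x (S.Rη η V)) ^ 2 * S.ev x (S.G2 V) := by
        rw [ev_G2, Finset.mul_sum]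
        exact Finset.sum_congr rfl fun j _ => by rw [mul_pow]
      rw [this, mul_pow _ aV]
      refine mul_le_mul ?_ ha (ev_G2_nonneg x V) (sq_nonneg _)
      rw [mul_pow, mul_pow _ rV]
      refine mul_le_mul_of_nonneg_left ?_ (sq_nonneg _)
      exact sq_le_sq' (by linarith [neg_abs_le (S.ev x (S.Rη η V))])
        ((le_abs_self _).trans hr)
  have h2 : Q * B + τ * Q ^ 2 * rV * aV ≤ b1 := by
    refine le_trans ?_ hbτ
    have h3 : Q * B ≤ (1 + 2 * (τ * Vm)) * B := mul_le_mul_of_nonneg_right hQ3 hB0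
    have h4 : Q ^ 2 ≤ 4 := by nlinarith
    have h5 : τ * Q ^ 2 * rV * aV ≤ τ * 4 * rV * aV :=
      mul_le_mul_of_nonneg_right (mul_le_mul_of_nonneg_right
        (mul_le_mul_of_nonneg_left h4 hτ.le) hrV) haV
    nlinarith
  have h3 : 0 ≤ Q * B + τ * Q ^ 2 * rV * aV := by positivity
  calc (-τ) ^ 2 * S.ev x (S.G2 (q * S.Rη η V)) ≤ (-τ) ^ 2 * (Q * B + τ * Q ^ 2 * rV * aV) ^ 2 :=
        mul_le_mul_of_nonneg_left h1 (sq_nonneg _)
    _ ≤ (-τ) ^ 2 * b1 ^ 2 := mul_le_mul_of_nonneg_left (pow_le_pow_left₀ h3 h2 2) (sq_nonneg _)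
    _ = _ := by ring

/-- The spectral gap. -/
theorem gap_abs [CompactSpace X] [Nonempty X] {V : A} (hV : S.Rep V)
    (hV0 : ∀ x, 0 ≤ S.ev x V) {B : ℝ} (hB0 : 0 ≤ B)
    (hB : ∀ x (η : J → ℝ), ∑ k, η k ^ 2 = 1 → S.ev x (S.G2 (S.Rη η V)) ≤ B ^ 2) {Lo : ℝ}
    (osc : ∀ f c, 0 ≤ c → (∀ x, S.ev x (S.G2 f) ≤ c ^ 2) → ∀ x y, S.ev x f - S.ev y f ≤ Lo * c)
    {Y0 : ℝ} (hY0 : 0 < Y0) (hY : 2 * Y0 ^ 2 - S.K * Y0 + B < 0)
    (Pr : A → Prop) (Pr1 : Pr 1) (Prw : ∀ (τ : ℝ) f, Pr f → Pr ((1 - τ • V) * f))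
    (PrP : ∀ f s, 0 ≤ s → S.Rep f → Pr f → Pr (S.P s f))
    {E0 : ℝ} (hE0 : 0 ≤ E0)
    (hE : ∀ f, S.Rep f → Pr f → E0 * S.I (f * f) ≤ S.I (S.G2 f) + S.I (V * (f * f)))
    {F1 F2 : A} (hF1 : S.Rep F1) (hF2 : S.Rep F2) {m E1 : ℝ} (hm : 0 < m)
    (hm2 : ∀ a b : ℝ, a ^ 2 + b ^ 2 = 1 → m ≤ S.I ((a • F1 + b • F2) * (a • F1 + b • F2)))
    (hE1 : ∀ a b : ℝ, a ^ 2 + b ^ 2 = 1 → S.I (S.G2 (a • F1 + b • F2)) +
      S.I (V * ((a • F1 + b • F2) * (a • F1 + b • F2))) ≤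
        E1 * S.I ((a • F1 + b • F2) * (a • F1 + b • F2))) :
    E0 + (S.K - 2 * Y0) ≤ E1 := by
  -- it is enough to have the bound with a smaller constant
  suffices h : ∀ κ, κ < S.K - 2 * Y0 → E0 + κ ≤ E1 by
    have h1 : S.K - 2 * Y0 ≤ E1 - E0 := le_of_forall_lt fun κ hκ => by
      by_contra hc
      rw [not_lt] at hc
      have h2 := h ((κ + (S.K - 2 * Y0)) / 2) (by linarith)
      linarith
    linarith
  intro κ hκ
  -- constants
  obtain ⟨Vm, hVm0, hVm⟩ := exists_bound (S := S) V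
  obtain ⟨a2, ha20, ha2⟩ := exists_bound (S := S) (S.G2 V)
  obtain ⟨rk, hrk⟩ : ∃ rk : J → ℝ, ∀ k, 0 ≤ rk k ∧ ∀ x, |S.ev x (S.R k V)| ≤ rk k :=
    ⟨fun k => (exists_bound (S := S) (S.R k V)).choose,
      fun k => (exists_bound (S := S) (S.R k V)).choose_spec⟩
  obtain ⟨rV, hrV⟩ : ∃ rV, rV = ∑ k, rk k := ⟨_, rfl⟩
  have hrV0 : 0 ≤ rV := by rw [hrV]; exact Finset.sum_nonneg fun k _ => (hrk k).1
  have hrVb : ∀ x (η : J → ℝ), ∑ k, η k ^ 2 = 1 → |S.ev x (S.Rη η V)| ≤ rV := by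
    intro x η hη
    unfold Rη
    rw [map_sum, hrV]
    refine (Finset.abs_sum_le_sum_abs _ _).trans (Finset.sum_le_sum fun k _ => ?_)
    rw [map_smul, smul_eq_mul, abs_mul]
    have h1 : |η k| ≤ 1 := by
      have h2 : η k ^ 2 ≤ 1 := by
        rw [← hη]
        exact Finset.single_le_sum (f := fun k => η k ^ 2) (fun i _ => sq_nonneg _)
          (Finset.mem_univ k)
      exact (sq_le_one_iff_abs_le_one _).1 h2
    calc |η k| * |S.ev x (S.R k V)| ≤ 1 * rk k :=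
          mul_le_mul h1 ((hrk k).2 x) (abs_nonneg _) zero_le_one
      _ = rk k := one_mul _
  obtain ⟨aV, haV⟩ : ∃ aV, aV = Real.sqrt a2 := ⟨_, rfl⟩
  have haV0 : 0 ≤ aV := by rw [haV]; exact Real.sqrt_nonneg _
  have haVb : ∀ x, S.ev x (S.G2 V) ≤ aV ^ 2 := fun x => by
    rw [haV, Real.sq_sqrt ha20]
    exact (le_abs_self _).trans (ha2 x)
  obtain ⟨δ, hδ⟩ : ∃ δ, δ = -(2 * Y0 ^ 2 - S.K * Y0 + B) := ⟨_, rfl⟩
  have hδ0 : 0 < δ := by rw [hδ]; linarith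
  obtain ⟨b1, hb1⟩ : ∃ b1, b1 = B + δ / 4 := ⟨_, rfl⟩
  obtain ⟨b, hb⟩ : ∃ b, b = B + δ / 2 := ⟨_, rfl⟩
  have hb10 : 0 ≤ b1 := by rw [hb1]; linarith
  have hbb : b1 < b := by rw [hb1, hb]; linarith
  have hb0 : 0 < b := lt_of_le_of_lt hb10 hbb
  obtain ⟨C1, hC1⟩ : ∃ C1, C1 = S.I (S.G2 F1 + S.G2 F2) +
    2 * S.I (S.G2 (V * F1) + S.G2 (V * F2)) := ⟨_, rfl⟩
  obtain ⟨C2, hC2⟩ : ∃ C2, C2 = S.I (V * (F1 * F1)) + S.I (V * (F2 * F2)) := ⟨_, rfl⟩
  obtain ⟨C3, hC3⟩ : ∃ C3, C3 = 2 * (E1 * C2 + C1) / m := ⟨_, rfl⟩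
  -- the smallness conditions
  have c1 := small (f := fun τ => 1 / 2 - τ * Vm) (by fun_prop) (by norm_num)
  have c2 := small (f := fun τ => b1 - (B + τ * (2 * Vm * B + 4 * (rV * aV)))) (by fun_prop)
    (by rw [hb1]; simp only [zero_mul, add_zero]; linarith)
  have c3 := small (f := fun τ => δ / 2 - b * τ * (4 * Y0 + 2 * (b * τ))) (by fun_prop)
    (by simp only [mul_zero, zero_mul, sub_zero]; linarith)
  have c4 := small (f := fun τ => S.K - 2 * (Y0 + b * τ) - κ) (by fun_prop)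
    (by simp only [mul_zero, add_zero]; linarith)
  have c5 := small (f := fun τ => m / 2 - τ * C2) (by fun_prop)
    (by simp only [zero_mul, sub_zero]; linarith)
  have c6 := small (f := fun τ => 1 - τ * E1 - τ ^ 2 * C3) (by fun_prop) (by norm_num)
  have c7 := small (f := fun τ => 1 - τ) (by fun_prop) (by norm_num)
  have c8 : ∀ᶠ τ in 𝓝[>] (0 : ℝ), 0 < τ := self_mem_nhdsWithin
  have key : ∀ᶠ τ in 𝓝[>] (0 : ℝ),
      -(E1 + C3 * τ) * ((1 + τ * E0) * (1 + κ * τ)) + E0 * (1 + κ * τ) + κ ≤ 0 := by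
    filter_upwards [c1, c2, c3, c4, c5, c6, c7, c8] with τ c1 c2 c3 c4 c5 c6 c7 c8
    have hwpos : ∀ x, 0 < S.ev x (1 - τ • V) := by
      intro x
      rw [map_sub, map_one, map_smul, smul_eq_mul]
      have h1 := mul_le_mul_of_nonneg_left ((le_abs_self _).trans (hVm x)) c8.le
      linarith
    obtain ⟨q, hq⟩ := S.inv _ hwpos
    have hcomb : ∀ a b : ℝ, a ^ 2 + b ^ 2 = 1 →
        m / 2 ≤ S.I ((1 - τ • V) * ((a • F1 + b • F2) * (a • F1 + b • F2))) ∧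
        (1 - τ * E1 - τ ^ 2 * C3) *
          S.I ((1 - τ • V) * ((a • F1 + b • F2) * (a • F1 + b • F2))) ≤
        S.I ((1 - τ • V) * ((a • F1 + b • F2) *
          S.St (1 - τ • V) τ (a • F1 + b • F2))) := by
      intro a b hab
      rw [hC3]
      refine first_moment hV hV0 c8 (by linarith) hm (by linarith)
        ((hF1.smul a).add (hF2.smul b)) (hm2 a b hab) (hE1 a b hab) ?_ ?_
      · have e1 : S.I (S.G2 (a • F1 + b • F2)) ≤ S.I (S.G2 F1 + S.G2 F2) :=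
          S.I_mono fun x => by rw [map_add]; exact comb_G2 hab F1 F2 x
        have e2 : S.I (S.G2 (V * (a • F1 + b • F2))) ≤
            S.I (S.G2 (V * F1) + S.G2 (V * F2)) :=
          S.I_mono fun x => by
            rw [map_add, mul_add, mul_smul_comm, mul_smul_comm]
            exact comb_G2 hab (V * F1) (V * F2) x
        rw [hC1]
        linarith
      · rw [hC2]
        exact comb_sq hab hV0 F1 F2
    have hfin := gap_tau (S := S) (κ := κ) hV hV0 osc Pr Pr1 Prw PrP hE0 hE hF1 hF2 hq hwpos c8 hb10 hbb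
      hY0 (by
        intro s hs hsτ
        have h1 : 0 ≤ b * (τ - s) := mul_nonneg hb0.le (by linarith)
        have h2 : b * (τ - s) ≤ b * τ := mul_le_mul_of_nonneg_left (by linarith) hb0.le
        obtain ⟨t, ht⟩ : ∃ t, t = b * (τ - s) := ⟨_, rfl⟩
        rw [← ht] at h1 h2 ⊢
        have h3 : 2 * (Y0 + t) ^ 2 - S.K * (Y0 + t) + b =
            -δ + δ / 2 + (t * (4 * Y0 + 2 * t) - S.K * t) := by
          rw [hδ, hb, hδ]; ring
        have h4 : t * (4 * Y0 + 2 * t) ≤ b * τ * (4 * Y0 + 2 * (b * τ)) :=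
          mul_le_mul h2 (by linarith) (by positivity) (by linarith)
        have h5 : 0 ≤ S.K * t := mul_nonneg S.K_pos.le h1
        rw [h3]
        linarith) (fun x η hη => mult_bound c8 hV0 (fun x => (le_abs_self _).trans (hVm x))
          (by linarith) hq hB0 hb10 hrV0 haV0 (by linarith) (hB x η hη) (hrVb x η hη) (haVb x))
      (by linarith) c6.le (half_pos hm) (fun a b hab => (hcomb a b hab).1)
      fun a b hab => (hcomb a b hab).2
    have h1 : 1 + κ * τ ≤ Real.exp (κ * τ) := by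
      have := Real.add_one_le_exp (κ * τ)
      linarith
    have h2 : 0 ≤ 1 + τ * E0 := by
      have := mul_nonneg c8.le hE0
      linarith
    have h3 : (1 - τ * E1 - τ ^ 2 * C3) * ((1 + κ * τ) * (1 + τ * E0)) ≤ 1 :=
      (mul_le_mul_of_nonneg_left (mul_le_mul_of_nonneg_right h1 h2) c6.le).trans hfin
    have h4 : (1 - τ * E1 - τ ^ 2 * C3) * ((1 + κ * τ) * (1 + τ * E0)) = 1 + τ *
        (-(E1 + C3 * τ) * ((1 + τ * E0) * (1 + κ * τ)) + E0 * (1 + κ * τ) + κ) := by ring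
    rw [h4] at h3
    by_contra hc
    rw [not_le] at hc
    have := mul_pos c8 hc
    linarith
  have hcont : Continuous fun τ : ℝ =>
      -(E1 + C3 * τ) * ((1 + τ * E0) * (1 + κ * τ)) + E0 * (1 + κ * τ) + κ := by fun_prop
  have hlim := ((hcont.tendsto 0).mono_left (nhdsWithin_le_nhds (s := Ioi 0)))
  have h5 := le_of_tendsto hlim key
  simp only [mul_zero, zero_mul, add_zero, mul_one] at h5
  linarith

end Geo

end

end Pool.Agent.W504.YM
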