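import Mathlib
import Pool.Agent.W504.YM.Gap
import Pool.Agent.H906R3.YM.Moll

/-!
# The left invariant derivations on `E → G`; the geometric data
-/

open MeasureTheory Matrix Set
open scoped Matrix.Norms.Frobenius ContDiff
open Pool.Agent.H906R3.YM

namespace Pool.Agent.W504.YM

set_option linter.unusedSectionVars false

noncomputable section

variable {G : Type*} [Group G] [TopologicalSpace G] {N n : ℕ} (L : LD G N n)
  {E : Type*} [Fintype E] [DecidableEq E]

/-- right translation of one link by `exp (t X_a)` -/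
def shR (e : E) (a : Fin n) (t : ℝ) (U : E → G) : E → G := U * Pi.mulSingle e (L.ex a t)

/-- the vector field `U_e ↦ U_e X_a` -/
def vR (e : E) (a : Fin n) : (E → Mat N) →ₗ[ℝ] (E → Mat N) :=
  (LinearMap.single ℝ (fun _ : E => Mat N) e) ∘ₗ (LinearMap.mulRight ℝ (L.X a)) ∘ₗ
      (LinearMap.proj e)

lemma vR_apply (e : E) (a : Fin n) (M : E → Mat N) : vR L e a M = Pi.single e (M e * L.X a) := rfl

/-- the same as a continuous map -/
def vRC (e : E) (a : Fin n) : (E → Mat N) →L[ℝ] (E → Mat N) :=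
  LinearMap.toContinuousLinearMap (vR L e a)

lemma vRC_apply (e : E) (a : Fin n) (M : E → Mat N) : vRC L e a M = vR L e a M := rfl

lemma shR_zero (e : E) (a : Fin n) (U : E → G) : shR L e a 0 U = U := by
  unfold shR
  rw [L.ex_zero, Pi.mulSingle_one, mul_one]

lemma hasDerivAt_matR (e : E) (a : Fin n) (U : E → G) :
    HasDerivAt (fun t => L.mat (shR L e a t U)) (vR L e a (L.mat U)) 0 := by
  refine hasDerivAt_pi.2 fun e' => ?_
  by_cases h : e' = e
  · subst h
    have h1 : (fun t => L.mat (shR L e' a t U) e') = fun t => L.rho (U e') * L.rho (L.ex a t) := by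
      funext t
      simp [LD.mat, shR]
    rw [h1]
    have h2 : vR L e' a (L.mat U) e' = L.rho (U e') * L.X a := by
      rw [vR_apply, Pi.single_eq_same]; rfl
    rw [h2]
    exact (L.deriv_ex a).const_mul _
  · have h1 : (fun t => L.mat (shR L e a t U) e') = fun _ => L.rho (U e') := by
      funext t
      simp [LD.mat, shR, Pi.mulSingle_eq_of_ne h]
    rw [h1]
    have h2 : vR L e a (L.mat U) e' = 0 := by
      rw [vR_apply, Pi.single_eq_of_ne h]
    rw [h2]
    exact hasDerivAt_const _ _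

/-- derivative along `U_e ↦ U_e exp (t X_a)` -/
def dR (e : E) (a : Fin n) (F : (E → G) → ℝ) (U : E → G) : ℝ :=
  deriv (fun t => F (shR L e a t U)) 0

variable {L}

lemma hasDerivAt_curve {Ft : (E → Mat N) → ℝ} (hf : ContDiff ℝ ∞ Ft) {F : (E → G) → ℝ}
    (h : ∀ U, F U = Ft (L.mat U)) {c : ℝ → E → G} {v : E → Mat N} {s : ℝ}
    (hc : HasDerivAt (fun t => L.mat (c t)) v s) :
    HasDerivAt (fun t => F (c t)) (fderiv ℝ Ft (L.mat (c s)) v) s := by
  have h1 : (fun t => F (c t)) = fun t => Ft (L.mat (c t)) := by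
    funext t; exact h _
  rw [h1]
  have h2 : HasFDerivAt Ft (fderiv ℝ Ft (L.mat (c s))) (L.mat (c s)) :=
    (hf.differentiable (by simp)).differentiableAt.hasFDerivAt
  exact h2.comp_hasDerivAt s hc

lemma hasDerivAt_extR {Ft : (E → Mat N) → ℝ} (hf : ContDiff ℝ ∞ Ft) {F : (E → G) → ℝ}
    (h : ∀ U, F U = Ft (L.mat U)) (e : E) (a : Fin n) (U : E → G) :
    HasDerivAt (fun t => F (shR L e a t U)) (fderiv ℝ Ft (L.mat U) (vR L e a (L.mat U))) 0 := by
  have h1 := hasDerivAt_curve hf h (hasDerivAt_matR L e a U)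
  rwa [shR_zero] at h1

lemma dR_ext {Ft : (E → Mat N) → ℝ} (hf : ContDiff ℝ ∞ Ft) {F : (E → G) → ℝ}
    (h : ∀ U, F U = Ft (L.mat U)) (e : E) (a : Fin n) (U : E → G) :
    dR L e a F U = fderiv ℝ Ft (L.mat U) (vR L e a (L.mat U)) :=
  (hasDerivAt_extR hf h e a U).deriv

lemma contDiff_dextR {Ft : (E → Mat N) → ℝ} (hf : ContDiff ℝ ∞ Ft) (e : E) (a : Fin n) :
    ContDiff ℝ ∞ fun M => fderiv ℝ Ft M (vR L e a M) :=
  (hf.fderiv_right (m := ∞) (by simp)).clm_apply (vRC L e a).contDiff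

lemma dR_mem {F : (E → G) → ℝ} (hF : F ∈ Sm L E) (e : E) (a : Fin n) : dR L e a F ∈ Sm L E := by
  obtain ⟨f, hf, h⟩ := hF
  exact ⟨_, contDiff_dextR hf e a, fun U => dR_ext hf h e a U⟩

variable (L) in
/-- The left invariant derivations of the algebra of smooth functions. -/
def Rv (j : E × Fin n) : Derivation ℝ (Sm L E) (Sm L E) :=
  Derivation.mk'
    { toFun := fun F => ⟨dR L j.1 j.2 F.1, dR_mem F.2 j.1 j.2⟩
      map_add' := by
        rintro ⟨F, f, hf, h⟩ ⟨H, f', hf', h'⟩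
        apply Subtype.ext
        funext U
        have h1 := hasDerivAt_extR (L := L) hf h j.1 j.2 U
        have h2 := hasDerivAt_extR (L := L) hf' h' j.1 j.2 U
        have h3 := (h1.add h2).deriv
        refine h3.trans ?_
        show _ = dR L j.1 j.2 F U + dR L j.1 j.2 H U
        rw [dR_ext hf h, dR_ext hf' h']
      map_smul' := by
        rintro c ⟨F, f, hf, h⟩
        apply Subtype.ext
        funext U
        have h1 := hasDerivAt_extR (L := L) hf h j.1 j.2 U
        have h3 := (h1.const_mul c).deriv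
        refine h3.trans ?_
        show _ = c * dR L j.1 j.2 F U
        rw [dR_ext hf h] }
    (by
      rintro ⟨F, f, hf, h⟩ ⟨H, f', hf', h'⟩
      apply Subtype.ext
      funext U
      have h1 := hasDerivAt_extR (L := L) hf h j.1 j.2 U
      have h2 := hasDerivAt_extR (L := L) hf' h' j.1 j.2 U
      have h3 := (h1.mul h2).deriv
      simp only [shR_zero] at h3
      refine h3.trans ?_
      show _ = F U * dR L j.1 j.2 H U + H U * dR L j.1 j.2 F U
      rw [dR_ext hf h, dR_ext hf' h']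
      ring)

lemma Rv_apply (j : E × Fin n) (F : Sm L E) (U : E → G) :
    (Rv L j F).1 U = dR L j.1 j.2 F.1 U := rfl

lemma fderiv_dextG {f : (E → Mat N) → ℝ} (hf : ContDiff ℝ ∞ f)
    (Λ : (E → Mat N) →L[ℝ] (E → Mat N)) (M w : E → Mat N) :
    fderiv ℝ (fun M => fderiv ℝ f M (Λ M)) M w =
      fderiv ℝ (fderiv ℝ f) M w (Λ M) + fderiv ℝ f M (Λ w) := by
  have h1 : HasFDerivAt (fderiv ℝ f) (fderiv ℝ (fderiv ℝ f) M) M := by
    have := (hf.fderiv_right (m := ∞) (by simp)).differentiable (by simp)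
    exact (this M).hasFDerivAt
  have h2 : HasFDerivAt (fun M => Λ M) Λ M := Λ.hasFDerivAt
  have h3 := (h1.clm_apply h2).fderiv
  refine (congrArg (fun T => T w) h3).trans ?_
  rw [add_comm]
  rfl

lemma vf_vR (e e' : E) (a b : Fin n) (M : E → Mat N) :
    L.vf e a (vR L e' b M) = vR L e' b (L.vf e a M) := by
  unfold LD.vf
  rw [vR_apply, vR_apply]
  by_cases h : e = e'
  · subst h
    rw [Pi.single_eq_same, Pi.single_eq_same, Matrix.mul_assoc]
  · rw [Pi.single_eq_of_ne h, Pi.single_eq_of_ne (Ne.symm h)]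
    simp

lemma Rv_Dv (i j : E × Fin n) (F : Sm L E) : Rv L i (L.Dv j F) = L.Dv j (Rv L i F) := by
  apply Subtype.ext
  funext U
  obtain ⟨F, hF⟩ := F
  obtain ⟨f, hf, h⟩ := id hF
  have h1 : (Rv L i (L.Dv j ⟨F, hF⟩)).1 U =
      fderiv ℝ (fderiv ℝ f) (L.mat U) (vR L i.1 i.2 (L.mat U)) (L.vf j.1 j.2 (L.mat U)) +
        fderiv ℝ f (L.mat U) (L.vf j.1 j.2 (vR L i.1 i.2 (L.mat U))) := by
    refine (dR_ext (contDiff_dext hf j.1 j.2) (fun U => dF_ext hf h j.1 j.2 U) i.1 i.2 U).trans ?_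
    exact fderiv_dextG hf (L.vfL j.1 j.2) _ _
  have h2 : (L.Dv j (Rv L i ⟨F, hF⟩)).1 U =
      fderiv ℝ (fderiv ℝ f) (L.mat U) (L.vf j.1 j.2 (L.mat U)) (vR L i.1 i.2 (L.mat U)) +
        fderiv ℝ f (L.mat U) (vR L i.1 i.2 (L.vf j.1 j.2 (L.mat U))) := by
    refine (dF_ext (contDiff_dextR hf i.1 i.2) (fun U => dR_ext hf h i.1 i.2 U) j.1 j.2 U).trans ?_
    exact fderiv_dextG hf (vRC L i.1 i.2) _ _
  have hsym : fderiv ℝ (fderiv ℝ f) (L.mat U) (vR L i.1 i.2 (L.mat U))
      (L.vf j.1 j.2 (L.mat U)) = fderiv ℝ (fderiv ℝ f) (L.mat U) (L.vf j.1 j.2 (L.mat U))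
      (vR L i.1 i.2 (L.mat U)) := by
    have := (hf.contDiffAt (x := L.mat U)).isSymmSndFDerivAt
      (by simp only [minSmoothness_of_isRCLikeNormedField]; exact WithTop.coe_le_coe.2 (le_top : (2 : ℕ∞) ≤ ⊤))
    exact this _ _
  rw [h1, h2, hsym, vf_vR]

/-- the adjoint action of a configuration -/
def rotA (L : LD G N n) (U : E → G) (j k : E × Fin n) : ℝ :=
  if j.1 = k.1 then L.adm (U j.1) j.2 k.2 else 0

lemma vf_eq_sum (U : E → G) (e : E) (b : Fin n) :
    L.vf e b (L.mat U) = ∑ a, L.adm (U e) b a • vR L e a (L.mat U) := by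
  have h1 : L.X b * L.rho (U e) = ∑ a, L.adm (U e) b a • (L.rho (U e) * L.X a) := by
    have h2 := conj_eq (L := L) (U e)⁻¹ b
    rw [L.rho_inv, conjTranspose_conjTranspose] at h2
    have h3 : L.X b * L.rho (U e) = L.rho (U e) * ((L.rho (U e))ᴴ * L.X b * L.rho (U e)) := by
      rw [← Matrix.mul_assoc, ← Matrix.mul_assoc, L.unit, Matrix.one_mul]
    rw [h3, h2, Finset.mul_sum]
    refine Finset.sum_congr rfl fun a _ => ?_
    rw [adm_inv, mul_smul_comm]
  have h2 : ∀ a, L.adm (U e) b a • vR L e a (L.mat U) =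
      Pi.single e (L.adm (U e) b a • (L.rho (U e) * L.X a)) := by
    intro a
    rw [vR_apply, ← Pi.single_smul]
    rfl
  rw [Finset.sum_congr rfl fun a _ => h2 a]
  unfold LD.vf
  rw [show L.mat U e = L.rho (U e) from rfl, h1]
  exact (map_sum (AddMonoidHom.single (fun _ : E => Mat N) e) _ _)

lemma rotA_D (U : E → G) (j : E × Fin n) (F : Sm L E) :
    L.ev U (L.Dv j F) = ∑ k, rotA L U j k * L.ev U (Rv L k F) := by
  obtain ⟨F, hF⟩ := F
  obtain ⟨f, hf, h⟩ := id hF
  have h1 : L.ev U (L.Dv j ⟨F, hF⟩) = fderiv ℝ f (L.mat U) (L.vf j.1 j.2 (L.mat U)) :=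
    dF_ext hf h j.1 j.2 U
  have h2 : ∀ k, L.ev U (Rv L k ⟨F, hF⟩) = fderiv ℝ f (L.mat U) (vR L k.1 k.2 (L.mat U)) :=
    fun k => dR_ext hf h k.1 k.2 U
  rw [h1, vf_eq_sum, map_sum]
  rw [Fintype.sum_prod_type, Finset.sum_eq_single j.1]
  · refine Finset.sum_congr rfl fun a _ => ?_
    rw [h2, map_smul, smul_eq_mul]
    unfold rotA
    rw [if_pos rfl]
  · intro e _ he
    refine Finset.sum_eq_zero fun a _ => ?_
    unfold rotA
    rw [if_neg (Ne.symm he), zero_mul]
  · intro h'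
    exact absurd (Finset.mem_univ _) h'

lemma rotA_O (U : E → G) (j l : E × Fin n) :
    ∑ k, rotA L U j k * rotA L U l k = if j = l then 1 else 0 := by
  rw [Fintype.sum_prod_type, Finset.sum_eq_single j.1]
  · by_cases h : l.1 = j.1
    · have h1 : ∀ a, rotA L U j (j.1, a) * rotA L U l (j.1, a) =
          L.adm (U j.1) j.2 a * L.adm (U j.1) l.2 a := by
        intro a
        unfold rotA
        rw [if_pos rfl, if_pos h, h]
      rw [Finset.sum_congr rfl fun a _ => h1 a, sum_adm_adm]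
      refine if_congr ?_ rfl rfl
      constructor
      · intro h2; exact Prod.ext h.symm h2
      · intro h2; rw [h2]
    · have h1 : ∀ a, rotA L U j (j.1, a) * rotA L U l (j.1, a) = 0 := by
        intro a
        unfold rotA
        rw [if_neg h, mul_zero]
      rw [Finset.sum_congr rfl fun a _ => h1 a, Finset.sum_const_zero, if_neg]
      intro h2
      exact h (by rw [h2])
  · intro e _ he
    refine Finset.sum_eq_zero fun a _ => ?_
    unfold rotA
    rw [if_neg (Ne.symm he), zero_mul]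
  · intro h'
    exact absurd (Finset.mem_univ _) h'

/-! ### the maximum principle -/

lemma second_test {g g' : ℝ → ℝ} {c : ℝ} (h1 : ∀ t, HasDerivAt g (g' t) t)
    (h2 : HasDerivAt g' c 0) (hmax : ∀ t, g t ≤ g 0) : g' 0 = 0 ∧ c ≤ 0 := by
  have hloc : IsLocalMax g 0 := Filter.Eventually.of_forall hmax
  have h0 : g' 0 = 0 := hloc.hasDerivAt_eq_zero (h1 0)
  refine ⟨h0, ?_⟩
  by_contra hc
  rw [not_le] at hc
  have hd : deriv g = g' := funext fun t => (h1 t).deriv
  have hmin : IsLocalMin g 0 := isLocalMin_of_deriv_deriv_pos (by rw [hd, h2.deriv]; exact hc)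
    (by rw [hd]; exact h0) (h1 0).continuousAt
  have hev : ∀ᶠ t in nhds (0 : ℝ), g t = g 0 := by
    filter_upwards [hmin] with t ht
    exact le_antisymm (hmax t) ht
  have hev2 : ∀ᶠ t in nhds (0 : ℝ), g' t = 0 := by
    filter_upwards [hev.eventually_nhds] with t ht
    have h3 : HasDerivAt g 0 t :=
      (hasDerivAt_const t (g 0)).congr_of_eventuallyEq ht
    exact (h1 t).unique h3
  have h4 : HasDerivAt g' 0 0 := (hasDerivAt_const (0 : ℝ) (0 : ℝ)).congr_of_eventuallyEq hev2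
  have := h2.unique h4
  linarith

lemma Sm_max (f : Sm L E) (x : E → G) (h : ∀ y, L.ev y f ≤ L.ev x f) (j : E × Fin n) :
    L.ev x (L.Dv j f) = 0 ∧ L.ev x (L.Dv j (L.Dv j f)) ≤ 0 := by
  have h1 : ∀ t, HasDerivAt (fun t => f.1 (L.shift j.1 j.2 t x))
      ((L.Dv j f).1 (L.shift j.1 j.2 t x)) t := fun t => hasDerivAt_dF f.2 j.1 j.2 x t
  have h2 := hasDerivAt_dF (L.Dv j f).2 j.1 j.2 x 0
  have h3 := second_test h1 h2 (fun t => by
    rw [L.shift_zero]
    exact h _)
  rw [L.shift_zero] at h3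
  exact h3

/-! ### inverses -/

/-- a smooth positive function equal to the identity on `[c, ∞)` -/
def cutf (c : ℝ) (x : ℝ) : ℝ :=
  Real.smoothTransition ((x - c / 2) / (c / 2)) * x +
    (1 - Real.smoothTransition ((x - c / 2) / (c / 2))) * c

lemma cutf_contDiff (c : ℝ) : ContDiff ℝ ∞ (cutf c) := by
  unfold cutf
  have h1 : ContDiff ℝ ∞ fun x : ℝ => Real.smoothTransition ((x - c / 2) / (c / 2)) :=
    Real.smoothTransition.contDiff.comp ((contDiff_id.sub contDiff_const).div_const _)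
  exact (h1.mul contDiff_id).add ((contDiff_const.sub h1).mul contDiff_const)

lemma cutf_pos {c : ℝ} (hc : 0 < c) (x : ℝ) : 0 < cutf c x := by
  unfold cutf
  have h0 := Real.smoothTransition.nonneg ((x - c / 2) / (c / 2))
  have h1 := Real.smoothTransition.le_one ((x - c / 2) / (c / 2))
  by_cases hx : x ≤ c / 2
  · have h2 : Real.smoothTransition ((x - c / 2) / (c / 2)) = 0 :=
      Real.smoothTransition.zero_of_nonpos (div_nonpos_of_nonpos_of_nonneg (by linarith)
        (by linarith))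
    rw [h2]; linarith
  · rw [not_le] at hx
    have h3 : 0 < x := by linarith
    rcases h0.eq_or_lt with h4 | h4
    · rw [← h4]; linarith
    · have h5 := mul_pos h4 h3
      have h6 := mul_nonneg (sub_nonneg.2 h1) hc.le
      linarith

lemma cutf_eq {c : ℝ} (hc : 0 < c) {x : ℝ} (hx : c ≤ x) : cutf c x = x := by
  unfold cutf
  have h2 : Real.smoothTransition ((x - c / 2) / (c / 2)) = 1 := by
    refine Real.smoothTransition.one_of_one_le ?_
    rw [le_div_iff₀ (by linarith)]; linarith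
  rw [h2]; ring

lemma Sm_inv [CompactSpace G] (f : Sm L E) (h : ∀ x, 0 < L.ev x f) : ∃ g, f * g = 1 := by
  obtain ⟨x0, -, hx0⟩ := isCompact_univ.exists_isMinOn (s := (Set.univ : Set (E → G)))
    ⟨1, trivial⟩ (Sm_cont f).continuousOn
  obtain ⟨c, hc⟩ : ∃ c, c = f.1 x0 := ⟨_, rfl⟩
  have hc0 : 0 < c := by rw [hc]; exact h x0
  have hmin : ∀ U, c ≤ f.1 U := fun U => by rw [hc]; exact hx0 (Set.mem_univ U)
  obtain ⟨F, Ft, hFt, hF⟩ := f
  refine ⟨⟨fun U => (F U)⁻¹, fun M => (cutf c (Ft M))⁻¹, ?_, fun U => ?_⟩, ?_⟩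
  · exact ((cutf_contDiff c).comp hFt).inv fun M => (cutf_pos hc0 _).ne'
  · dsimp only
    rw [← hF, cutf_eq hc0 (hmin U)]
  · refine ev_ext fun U => ?_
    rw [map_mul, map_one]
    exact mul_inv_cancel₀ (h U).ne'

/-! ### curvature -/

/-- the curvature condition for the Lie algebra -/
def Curv (L : LD G N n) (K : ℝ) : Prop :=
  ∀ v : Fin n → ℝ, 4 * K * ∑ c, v c ^ 2 ≤ ∑ a, ∑ b, (∑ c, L.sc a b c * v c) ^ 2

lemma curv_prod {K : ℝ} (hK : Curv L K) (v : E × Fin n → ℝ) :
    4 * K * ∑ k, v k ^ 2 ≤ ∑ i : E × Fin n, ∑ j, (∑ k, L.sig i j k * v k) ^ 2 := by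
  rw [Fintype.sum_prod_type (f := fun i => ∑ j : E × Fin n, (∑ k, L.sig i j k * v k) ^ 2),
    Fintype.sum_prod_type (f := fun k => v k ^ 2), Finset.mul_sum]
  refine Finset.sum_le_sum fun e _ => ?_
  refine (hK fun c => v (e, c)).trans ?_
  refine Finset.sum_le_sum fun a _ => ?_
  have h1 : ∀ j : E × Fin n, ∑ k, L.sig (e, a) j k * v k =
      if e = j.1 then -∑ c, L.sc a j.2 c * v (e, c) else 0 := by
    intro j
    have h2 := sum_sig (L := L) (V := ℝ) (e, a) j v
    simpa [smul_eq_mul] using h2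
  simp only [h1]
  rw [Fintype.sum_prod_type (f := fun j : E × Fin n =>
    (if e = j.1 then -∑ c, L.sc a j.2 c * v (e, c) else 0) ^ 2)]
  refine le_trans ?_ (Finset.single_le_sum (f := fun e' => ∑ b : Fin n,
    (if e = e' then -∑ c, L.sc a b c * v (e, c) else 0) ^ 2)
    (fun e' _ => Finset.sum_nonneg fun b _ => sq_nonneg _) (Finset.mem_univ e))
  refine Finset.sum_le_sum fun b _ => ?_
  rw [if_pos rfl, neg_sq]

variable [IsTopologicalGroup G] [CompactSpace G] [SecondCountableTopology G]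
  [MeasurableSpace G] [BorelSpace G] (μ : Measure G) [IsProbabilityMeasure μ]
  [μ.IsMulLeftInvariant] [μ.IsOpenPosMeasure]

/-- The geometric data of `E → G`. -/
def geo (L : LD G N n) (E : Type*) [Fintype E] [DecidableEq E] {K : ℝ} (hK : 0 < K)
    (hc : Curv L K) : Geo (Sm L E) (E × Fin n) (E → G) where
  D := L.Dv
  R := Rv L
  ev := L.ev
  cont := fun f => Sm_cont f
  ext := fun h => ev_ext h
  sg := L.sig
  comm := Dv_comm
  anti := sig_anti
  RD := Rv_Dv
  LapD := fun j f => (Lap_Dv j f).symm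
  max1 := fun f x h j => (Sm_max f x h j).1
  max2 := fun f x h j => (Sm_max f x h j).2
  inv := Sm_inv
  rot := rotA L
  rotD := rotA_D
  rotO := rotA_O
  I := L.I μ
  I_D := I_D_zero μ
  I_mono := fun h => I_mono μ h
  I_one := I_one μ
  I_def := fun h => eq_zero_of_I μ h
  K := K
  K_pos := hK
  curv := curv_prod hc

end

end Pool.Agent.W504.YM
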