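import Mathlib
import Pool.Agent.W504.YM.Rt

/-!
# Second derivatives of the magnetic energy
-/

open MeasureTheory Matrix Set
open scoped Matrix.Norms.Frobenius ContDiff
open Pool.Agent.H906R3.YM

namespace Pool.Agent.W504.YM

set_option linter.unusedSectionVars false

noncomputable section

/-! ### the Frobenius scalar product -/

section fro

variable {N : ℕ}

lemma ip_cs (A B : Mat N) : (ip A B) ^ 2 ≤ ip A A * ip B B := by
  rw [ip_sum_co, ip_sum_co, ip_sum_co]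
  have := Finset.sum_mul_sq_le_sq_mul_sq Finset.univ (fun c => co c A) (fun c => co c B)
  simpa only [sq] using this

lemma ip_bound {A B : Mat N} {a b : ℝ} (ha : 0 ≤ a) (hb : 0 ≤ b) (hA : ip A A ≤ a ^ 2)
    (hB : ip B B ≤ b ^ 2) : |ip A B| ≤ a * b := by
  refine abs_le_of_sq_le_sq ?_ (mul_nonneg ha hb)
  refine (ip_cs A B).trans ?_
  rw [mul_pow]
  exact mul_le_mul hA hB (ip_self_nonneg B) (sq_nonneg a)

lemma ip_add_bound {A B : Mat N} {a b : ℝ} (ha : 0 ≤ a) (hb : 0 ≤ b) (hA : ip A A ≤ a ^ 2)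
    (hB : ip B B ≤ b ^ 2) : ip (A + B) (A + B) ≤ (a + b) ^ 2 := by
  rw [ip_sum_co] at hA hB ⊢
  have := Geo.vec_add_le (f := fun c => co c A) (g := fun c => co c B) ha hb
    (by simpa only [sq] using hA) (by simpa only [sq] using hB)
  simp only [map_add]
  simpa only [sq] using this

lemma un_comm {P : Mat N} (hP : P * Pᴴ = 1) : Pᴴ * P = 1 := mul_eq_one_comm.1 hP

lemma ip_unit_left {P : Mat N} (hP : P * Pᴴ = 1) (A : Mat N) : ip (P * A) (P * A) = ip A A := by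
  rw [ip_apply, ip_apply, conjTranspose_mul]
  have : Aᴴ * Pᴴ * (P * A) = Aᴴ * (Pᴴ * P) * A := by simp only [Matrix.mul_assoc]
  rw [this, un_comm hP, Matrix.mul_one]

lemma ip_unit_right {P : Mat N} (hP : P * Pᴴ = 1) (A : Mat N) : ip (A * P) (A * P) = ip A A := by
  rw [ip_apply, ip_apply, conjTranspose_mul, trace_mul_comm]
  have : A * P * (Pᴴ * Aᴴ) = A * (P * Pᴴ) * Aᴴ := by simp only [Matrix.mul_assoc]
  rw [this, hP, Matrix.mul_one, trace_mul_comm]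

lemma ip_ct (A : Mat N) : ip Aᴴ Aᴴ = ip A A := by
  rw [ip_apply, ip_apply, conjTranspose_conjTranspose, trace_mul_comm]

lemma trace_bound {A B : Mat N} {a b : ℝ} (ha : 0 ≤ a) (hb : 0 ≤ b) (hA : ip A A ≤ a ^ 2)
    (hB : ip B B ≤ b ^ 2) : |(trace (A * B)).re| ≤ a * b := by
  have h1 : (trace (A * B)).re = ip Aᴴ B := by rw [ip_apply, conjTranspose_conjTranspose]
  rw [h1]
  exact ip_bound ha hb (by rw [ip_ct]; exact hA) hB

end fro

variable {G : Type*} [Group G] [TopologicalSpace G] {N n : ℕ} (L : LD G N n)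
  {E : Type*} [Fintype E] [DecidableEq E]

/-- the Lie algebra element of one link -/
def xe (ξ : E × Fin n → ℝ) (e : E) : Mat N := ∑ a, ξ (e, a) • L.X a

/-- its norm -/
def ne (ξ : E × Fin n → ℝ) (e : E) : ℝ := Real.sqrt (∑ a, ξ (e, a) ^ 2)

lemma ne_nonneg (ξ : E × Fin n → ℝ) (e : E) : 0 ≤ ne ξ e := Real.sqrt_nonneg _

lemma ne_sq (ξ : E × Fin n → ℝ) (e : E) : ne ξ e ^ 2 = ∑ a, ξ (e, a) ^ 2 :=
  Real.sq_sqrt (Finset.sum_nonneg fun _ _ => sq_nonneg _)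

variable {L}

lemma ip_sum_left {ι : Type*} (s : Finset ι) (A : ι → Mat N) (B : Mat N) :
    ip (∑ i ∈ s, A i) B = ∑ i ∈ s, ip (A i) B := by
  rw [ip_comm, map_sum]
  exact Finset.sum_congr rfl fun i _ => ip_comm _ _

lemma ip_smul_left (c : ℝ) (A B : Mat N) : ip (c • A) B = c * ip A B := by
  rw [ip_comm, map_smul, smul_eq_mul, ip_comm]

lemma ip_comb (v : Fin n → ℝ) : ip (∑ a, v a • L.X a) (∑ a, v a • L.X a) = ∑ a, v a ^ 2 := by
  rw [map_sum]
  refine Finset.sum_congr rfl fun a _ => ?_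
  rw [map_smul, ip_sum_left, smul_eq_mul]
  have : ∀ b, ip (v b • L.X b) (L.X a) = v b * if b = a then 1 else 0 := fun b => by
    rw [ip_smul_left, ip_X]
  rw [Finset.sum_congr rfl fun b _ => this b]
  simp [sq]

lemma ip_xe (ξ : E × Fin n → ℝ) (e : E) : ip (xe L ξ e) (xe L ξ e) = ne ξ e ^ 2 := by
  rw [ne_sq]
  exact ip_comb fun a => ξ (e, a)

/-- derivative along the vector field `M_e ↦ Ξ_e M_e` -/
def Ld (L : LD G N n) (ξ : E × Fin n → ℝ) (f f' : (E → Mat N) → Mat N) : Prop :=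
  ∀ M, HasDerivAt (fun t : ℝ => f (M + t • fun e => xe L ξ e * M e)) (f' M) 0

/-- derivative along the vector field `M_e ↦ M_e H_e` -/
def Rd (L : LD G N n) (η : E × Fin n → ℝ) (f f' : (E → Mat N) → Mat N) : Prop :=
  ∀ M, HasDerivAt (fun t : ℝ => f (M + t • fun e => M e * xe L η e)) (f' M) 0

lemma Ld.mul {ξ : E × Fin n → ℝ} {f f' g g' : (E → Mat N) → Mat N} (hf : Ld L ξ f f')
    (hg : Ld L ξ g g') : Ld L ξ (fun M => f M * g M) fun M => f' M * g M + f M * g' M := by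
  intro M
  have := (hf M).mul (hg M)
  refine this.congr_deriv ?_
  simp

lemma Rd.mul {ξ : E × Fin n → ℝ} {f f' g g' : (E → Mat N) → Mat N} (hf : Rd L ξ f f')
    (hg : Rd L ξ g g') : Rd L ξ (fun M => f M * g M) fun M => f' M * g M + f M * g' M := by
  intro M
  have := (hf M).mul (hg M)
  refine this.congr_deriv ?_
  simp

lemma Ld.add {ξ : E × Fin n → ℝ} {f f' g g' : (E → Mat N) → Mat N} (hf : Ld L ξ f f')
    (hg : Ld L ξ g g') : Ld L ξ (fun M => f M + g M) fun M => f' M + g' M :=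
  fun M => (hf M).add (hg M)

lemma Ld.ct {ξ : E × Fin n → ℝ} {f f' : (E → Mat N) → Mat N} (hf : Ld L ξ f f') :
    Ld L ξ (fun M => (f M)ᴴ) fun M => (f' M)ᴴ := fun M => hasDeriv_ct (hf M)

lemma Rd.ct {ξ : E × Fin n → ℝ} {f f' : (E → Mat N) → Mat N} (hf : Rd L ξ f f') :
    Rd L ξ (fun M => (f M)ᴴ) fun M => (f' M)ᴴ := fun M => hasDeriv_ct (hf M)

/-- A matrix function, its left, right and mixed derivatives, with bounds. -/
structure Tri (L : LD G N n) (ξ η : E × Fin n → ℝ) (f fL fR fLR : (E → Mat N) → Mat N)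
    (a b : ℝ) : Prop where
  sm : ContDiff ℝ ∞ f
  smR : ContDiff ℝ ∞ fR
  dL : Ld L ξ f fL
  dR : Rd L η f fR
  dLR : Ld L ξ fR fLR
  ha : 0 ≤ a
  hb : 0 ≤ b
  un : ∀ U : E → G, f (L.mat U) * (f (L.mat U))ᴴ = 1
  nL : ∀ U : E → G, ip (fL (L.mat U)) (fL (L.mat U)) ≤ a ^ 2
  nR : ∀ U : E → G, ip (fR (L.mat U)) (fR (L.mat U)) ≤ b ^ 2
  T : ∀ (U : E → G) (P : Mat N), P * Pᴴ = 1 → |(trace (P * fLR (L.mat U))).re| ≤ a * b

lemma un_mul {P Q : Mat N} (hP : P * Pᴴ = 1) (hQ : Q * Qᴴ = 1) : (P * Q) * (P * Q)ᴴ = 1 := by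
  rw [conjTranspose_mul]
  have : P * Q * (Qᴴ * Pᴴ) = P * (Q * Qᴴ) * Pᴴ := by simp only [Matrix.mul_assoc]
  rw [this, hQ, Matrix.mul_one, hP]

lemma Tri.mul {ξ η : E × Fin n → ℝ} {f fL fR fLR g gL gR gLR : (E → Mat N) → Mat N}
    {a b a' b' : ℝ} (hf : Tri L ξ η f fL fR fLR a b) (hg : Tri L ξ η g gL gR gLR a' b') :
    Tri L ξ η (fun M => f M * g M) (fun M => fL M * g M + f M * gL M)
      (fun M => fR M * g M + f M * gR M)
      (fun M => (fLR M * g M + fR M * gL M) + (fL M * gR M + f M * gLR M)) (a + a') (b + b') where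
  sm := hf.sm.mul hg.sm
  smR := (hf.smR.mul hg.sm).add (hf.sm.mul hg.smR)
  dL := hf.dL.mul hg.dL
  dR := hf.dR.mul hg.dR
  dLR := (hf.dLR.mul hg.dL).add (hf.dL.mul hg.dLR)
  ha := add_nonneg hf.ha hg.ha
  hb := add_nonneg hf.hb hg.hb
  un := fun U => un_mul (hf.un U) (hg.un U)
  nL := fun U => ip_add_bound hf.ha hg.ha (by rw [ip_unit_right (hg.un U)]; exact hf.nL U)
    (by rw [ip_unit_left (hf.un U)]; exact hg.nL U)
  nR := fun U => ip_add_bound hf.hb hg.hb (by rw [ip_unit_right (hg.un U)]; exact hf.nR U)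
    (by rw [ip_unit_left (hf.un U)]; exact hg.nR U)
  T := by
    intro U P hP
    have h1 : |(trace (P * (fLR (L.mat U) * g (L.mat U)))).re| ≤ a * b := by
      have e : trace (P * (fLR (L.mat U) * g (L.mat U))) =
          trace ((g (L.mat U) * P) * fLR (L.mat U)) := by
        rw [← Matrix.mul_assoc, trace_mul_comm, Matrix.mul_assoc]
      rw [e]
      exact hf.T U _ (un_mul (hg.un U) hP)
    have h2 : |(trace (P * (fR (L.mat U) * gL (L.mat U)))).re| ≤ b * a' := by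
      rw [← Matrix.mul_assoc]
      exact trace_bound hf.hb hg.ha (by rw [ip_unit_left hP]; exact hf.nR U) (hg.nL U)
    have h3 : |(trace (P * (fL (L.mat U) * gR (L.mat U)))).re| ≤ a * b' := by
      rw [← Matrix.mul_assoc]
      exact trace_bound hf.ha hg.hb (by rw [ip_unit_left hP]; exact hf.nL U) (hg.nR U)
    have h4 : |(trace (P * (f (L.mat U) * gLR (L.mat U)))).re| ≤ a' * b' := by
      rw [← Matrix.mul_assoc]
      exact hg.T U _ (un_mul hP (hf.un U))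
    simp only [mul_add, trace_add, Complex.add_re]
    rw [abs_le] at h1 h2 h3 h4 ⊢
    constructor <;> nlinarith

lemma Tri.ct {ξ η : E × Fin n → ℝ} {f fL fR fLR : (E → Mat N) → Mat N}
    {a b : ℝ} (hf : Tri L ξ η f fL fR fLR a b) :
    Tri L ξ η (fun M => (f M)ᴴ) (fun M => (fL M)ᴴ) (fun M => (fR M)ᴴ)
      (fun M => (fLR M)ᴴ) a b where
  sm := (ctL N).contDiff.comp hf.sm
  smR := (ctL N).contDiff.comp hf.smR
  dL := hf.dL.ct
  dR := hf.dR.ct
  dLR := hf.dLR.ct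
  ha := hf.ha
  hb := hf.hb
  un := fun U => by
    rw [conjTranspose_conjTranspose]; exact un_comm (hf.un U)
  nL := fun U => by rw [ip_ct]; exact hf.nL U
  nR := fun U => by rw [ip_ct]; exact hf.nR U
  T := by
    intro U P hP
    have e : (trace (P * (fLR (L.mat U))ᴴ)).re = (trace (Pᴴ * fLR (L.mat U))).re := by
      have h1 : trace (P * (fLR (L.mat U))ᴴ) = star (trace (Pᴴ * fLR (L.mat U))) := by
        rw [← trace_conjTranspose, conjTranspose_mul, conjTranspose_conjTranspose, trace_mul_comm]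
      rw [h1]; simp
    rw [e]
    exact hf.T U _ (by rw [conjTranspose_conjTranspose]; exact un_comm hP)

lemma Tri.link (ξ η : E × Fin n → ℝ) (e : E) :
    Tri L ξ η (fun M => M e) (fun M => xe L ξ e * M e) (fun M => M e * xe L η e)
      (fun M => xe L ξ e * M e * xe L η e) (ne ξ e) (ne η e) where
  sm := contDiff_apply ℝ (Mat N) e
  smR := (contDiff_apply ℝ (Mat N) e).mul contDiff_const
  dL := fun M => by
    have h := ((hasDerivAt_id (0 : ℝ)).smul_const (xe L ξ e * M e)).const_add (M e)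
    rw [one_smul] at h
    exact h
  dR := fun M => by
    have h := ((hasDerivAt_id (0 : ℝ)).smul_const (M e * xe L η e)).const_add (M e)
    rw [one_smul] at h
    exact h
  dLR := fun M => by
    have h := (((hasDerivAt_id (0 : ℝ)).smul_const (xe L ξ e * M e)).const_add (M e)).mul_const
      (xe L η e)
    rw [one_smul] at h
    exact h
  ha := ne_nonneg _ _
  hb := ne_nonneg _ _
  un := fun U => L.unit (U e)
  nL := fun U => by
    rw [show L.mat U e = L.rho (U e) from rfl, ip_unit_right (L.unit (U e)), ip_xe]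
  nR := fun U => by
    rw [show L.mat U e = L.rho (U e) from rfl, ip_unit_left (L.unit (U e)), ip_xe]
  T := by
    intro U P hP
    have e1 : P * (xe L ξ e * L.mat U e * xe L η e) =
        (P * xe L ξ e) * (L.mat U e * xe L η e) := by simp only [Matrix.mul_assoc]
    rw [e1]
    refine trace_bound (ne_nonneg _ _) (ne_nonneg _ _) ?_ ?_
    · rw [ip_unit_left hP, ip_xe]
    · rw [show L.mat U e = L.rho (U e) from rfl, ip_unit_left (L.unit (U e)), ip_xe]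

/-- the left field as a combination -/
lemma sum_vf (ξ : E × Fin n → ℝ) (M : E → Mat N) :
    ∑ j, ξ j • L.vf j.1 j.2 M = fun e => xe L ξ e * M e := by
  funext e
  rw [Finset.sum_apply, Fintype.sum_prod_type, Finset.sum_eq_single e]
  · unfold xe
    rw [Finset.sum_mul]
    refine Finset.sum_congr rfl fun a _ => ?_
    rw [Pi.smul_apply]
    unfold LD.vf
    rw [Pi.single_eq_same, smul_mul_assoc]
  · intro e' _ he
    refine Finset.sum_eq_zero fun a _ => ?_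
    rw [Pi.smul_apply]
    unfold LD.vf
    rw [Pi.single_eq_of_ne (Ne.symm he), smul_zero]
  · intro h'
    exact absurd (Finset.mem_univ _) h'

lemma sum_vR (η : E × Fin n → ℝ) (M : E → Mat N) :
    ∑ j, η j • vR L j.1 j.2 M = fun e => M e * xe L η e := by
  funext e
  rw [Finset.sum_apply, Fintype.sum_prod_type, Finset.sum_eq_single e]
  · unfold xe
    rw [Finset.mul_sum]
    refine Finset.sum_congr rfl fun a _ => ?_
    rw [Pi.smul_apply, vR_apply, Pi.single_eq_same, mul_smul_comm]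
  · intro e' _ he
    refine Finset.sum_eq_zero fun a _ => ?_
    rw [Pi.smul_apply, vR_apply, Pi.single_eq_of_ne (Ne.symm he), smul_zero]
  · intro h'
    exact absurd (Finset.mem_univ _) h'

lemma line_deriv {f : (E → Mat N) → Mat N} (hf : ContDiff ℝ ∞ f) (ℓ : Mat N →L[ℝ] ℝ)
    (M v : E → Mat N) {Y : Mat N} (h : HasDerivAt (fun t : ℝ => f (M + t • v)) Y 0) :
    fderiv ℝ (fun M => ℓ (f M)) M v = ℓ Y := by
  have h1 : ContDiff ℝ ∞ fun M => ℓ (f M) := ℓ.contDiff.comp hf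
  have h2 : HasFDerivAt (fun M => ℓ (f M)) (fderiv ℝ (fun M => ℓ (f M)) M) (M + (0 : ℝ) • v) := by
    rw [zero_smul, add_zero]
    exact (h1.differentiable (by simp)).differentiableAt.hasFDerivAt
  have h3 : HasDerivAt (fun t : ℝ => M + t • v) v 0 := by
    have h := ((hasDerivAt_id (0 : ℝ)).smul_const v).const_add M
    rw [one_smul] at h
    exact h
  have h4 := h2.comp_hasDerivAt (0 : ℝ) h3
  have h5 := ℓ.hasFDerivAt.comp_hasDerivAt (0 : ℝ) h
  exact h4.unique h5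

lemma sum_Dv (ξ : E × Fin n → ℝ) {f f' : (E → Mat N) → Mat N} (hf : ContDiff ℝ ∞ f)
    (h : Ld L ξ f f') (ℓ : Mat N →L[ℝ] ℝ) (F : Sm L E)
    (hF : ∀ U, F.1 U = ℓ (f (L.mat U))) (U : E → G) :
    ∑ j, ξ j * L.ev U (L.Dv j F) = ℓ (f' (L.mat U)) := by
  have h1 : ∀ j, L.ev U (L.Dv j F) = fderiv ℝ (fun M => ℓ (f M)) (L.mat U)
      (L.vf j.1 j.2 (L.mat U)) := fun j => dF_ext (ℓ.contDiff.comp hf) hF j.1 j.2 U
  have h2 := line_deriv hf ℓ (L.mat U) (fun e => xe L ξ e * L.mat U e) (h (L.mat U))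
  rw [← sum_vf, map_sum] at h2
  rw [← h2]
  refine Finset.sum_congr rfl fun j _ => ?_
  rw [h1, map_smul, smul_eq_mul]

lemma sum_Rv (η : E × Fin n → ℝ) {f f' : (E → Mat N) → Mat N} (hf : ContDiff ℝ ∞ f)
    (h : Rd L η f f') (ℓ : Mat N →L[ℝ] ℝ) (F : Sm L E)
    (hF : ∀ U, F.1 U = ℓ (f (L.mat U))) (U : E → G) :
    L.ev U (∑ j, η j • Rv L j F) = ℓ (f' (L.mat U)) := by
  have h1 : ∀ j, L.ev U (Rv L j F) = fderiv ℝ (fun M => ℓ (f M)) (L.mat U)
      (vR L j.1 j.2 (L.mat U)) := fun j => dR_ext (ℓ.contDiff.comp hf) hF j.1 j.2 U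
  have h2 := line_deriv hf ℓ (L.mat U) (fun e => L.mat U e * xe L η e) (h (L.mat U))
  rw [← sum_vR, map_sum] at h2
  rw [← h2, map_sum]
  refine Finset.sum_congr rfl fun j _ => ?_
  rw [map_smul, h1, map_smul, smul_eq_mul]

/-- the mixed second derivative of the trace of a matrix function -/
lemma mixed {ξ η : E × Fin n → ℝ} {f fL fR fLR : (E → Mat N) → Mat N}
    {a b : ℝ} (hf : Tri L ξ η f fL fR fLR a b) (F : Sm L E) (c : ℝ)
    (hF : ∀ U : E → G, F.1 U = c - ip 1 (f (L.mat U))) (U : E → G) :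
    |∑ j, ξ j * L.ev U (L.Dv j (∑ k, η k • Rv L k F))| ≤ a * b := by
  have h0 : ∃ F1 : Sm L E, ∀ U : E → G, F1.1 U = ip 1 (f (L.mat U)) :=
    ⟨⟨_, _, (ip (1 : Mat N)).contDiff.comp hf.sm, fun U => rfl⟩, fun U => rfl⟩
  obtain ⟨F1, hF1⟩ := h0
  have hFF : F = c • (1 : Sm L E) - F1 := ev_ext fun U => by
    rw [map_sub, map_smul, map_one, smul_eq_mul, mul_one]
    show F.1 U = c - F1.1 U
    rw [hF, hF1]
  have h1 : (∑ k, η k • Rv L k F : Sm L E) = -∑ k, η k • Rv L k F1 := by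
    rw [← Finset.sum_neg_distrib]
    refine Finset.sum_congr rfl fun k _ => ?_
    rw [hFF, map_sub, Derivation.map_smul, Derivation.map_one_eq_zero, smul_zero, zero_sub,
      smul_neg]
  have h2 : ∑ j, ξ j * L.ev U (L.Dv j (∑ k, η k • Rv L k F)) =
      -∑ j, ξ j * L.ev U (L.Dv j (∑ k, η k • Rv L k F1)) := by
    rw [h1]
    have h4 : ∀ j, ξ j * L.ev U (L.Dv j (-∑ k, η k • Rv L k F1)) =
        -(ξ j * L.ev U (L.Dv j (∑ k, η k • Rv L k F1))) := by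
      intro j
      rw [map_neg (L.Dv j), map_neg (L.ev U), mul_neg]
    rw [Finset.sum_congr rfl fun j _ => h4 j]
    exact Finset.sum_neg_distrib _
  rw [h2, abs_neg]
  have h3 := sum_Dv ξ hf.smR hf.dLR (ip 1) (∑ k, η k • Rv L k F1)
    (fun U => sum_Rv η hf.sm hf.dR (ip 1) F1 hF1 U) U
  rw [h3, ip_apply, conjTranspose_one]
  exact hf.T U 1 (by rw [conjTranspose_one, Matrix.mul_one])

/-! ### the magnetic energy -/

variable {D l : ℕ} [NeZero l]

/-- the sum of the norms over the links of a plaquette -/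
def pn (ξ : Ed D l × Fin n → ℝ) (p : (Fin D → ZMod l) × Fin D × Fin D) : ℝ :=
  ne ξ (p.1, p.2.1) + ne ξ (p.1 + eT p.2.1, p.2.2) + ne ξ (p.1 + eT p.2.2, p.2.1) +
    ne ξ (p.1, p.2.2)

lemma pn_nonneg (ξ : Ed D l × Fin n → ℝ) (p : (Fin D → ZMod l) × Fin D × Fin D) :
    0 ≤ pn ξ p := by
  unfold pn
  have := ne_nonneg ξ (p.1, p.2.1)
  have := ne_nonneg ξ (p.1 + eT p.2.1, p.2.2)
  have := ne_nonneg ξ (p.1 + eT p.2.2, p.2.1)
  have := ne_nonneg ξ (p.1, p.2.2)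
  linarith

lemma pn_sq (ξ : Ed D l × Fin n → ℝ) (p : (Fin D → ZMod l) × Fin D × Fin D) :
    pn ξ p ^ 2 ≤ 4 * (ne ξ (p.1, p.2.1) ^ 2 + ne ξ (p.1 + eT p.2.1, p.2.2) ^ 2 +
      ne ξ (p.1 + eT p.2.2, p.2.1) ^ 2 + ne ξ (p.1, p.2.2) ^ 2) := by
  unfold pn
  obtain ⟨a, ha⟩ : ∃ a, a = ne ξ (p.1, p.2.1) := ⟨_, rfl⟩
  obtain ⟨b, hb⟩ : ∃ a, a = ne ξ (p.1 + eT p.2.1, p.2.2) := ⟨_, rfl⟩
  obtain ⟨c, hc⟩ : ∃ a, a = ne ξ (p.1 + eT p.2.2, p.2.1) := ⟨_, rfl⟩
  obtain ⟨d, hd⟩ : ∃ a, a = ne ξ (p.1, p.2.2) := ⟨_, rfl⟩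
  rw [← ha, ← hb, ← hc, ← hd]
  nlinarith [sq_nonneg (a - b), sq_nonneg (a - c), sq_nonneg (a - d), sq_nonneg (b - c),
    sq_nonneg (b - d), sq_nonneg (c - d)]

/-- each link is in `2 (D - 1)` plaquettes -/
lemma count (f : Ed D l → ℝ) :
    ∑ p : Pl D l, (f (p.1.1, p.1.2.1) + f (p.1.1 + eT p.1.2.1, p.1.2.2) +
      f (p.1.1 + eT p.1.2.2, p.1.2.1) + f (p.1.1, p.1.2.2)) =
      2 * ((D : ℝ) - 1) * ∑ e, f e := by
  obtain ⟨s, hs⟩ : ∃ s : Fin D → ℝ, s = fun μ => ∑ x : Fin D → ZMod l, f (x, μ) := ⟨_, rfl⟩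
  have hsh : ∀ μ (y : Fin D → ZMod l), ∑ x : Fin D → ZMod l, f (x + y, μ) = s μ := by
    intro μ y
    rw [hs]
    exact Fintype.sum_equiv (Equiv.addRight y) _ _ fun x => rfl
  have h1 : ∑ p : Pl D l, (f (p.1.1, p.1.2.1) + f (p.1.1 + eT p.1.2.1, p.1.2.2) +
      f (p.1.1 + eT p.1.2.2, p.1.2.1) + f (p.1.1, p.1.2.2)) =
      ∑ p ∈ (Finset.univ.filter fun p : (Fin D → ZMod l) × Fin D × Fin D => p.2.1 < p.2.2),
        (f (p.1, p.2.1) + f (p.1 + eT p.2.1, p.2.2) +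
      f (p.1 + eT p.2.2, p.2.1) + f (p.1, p.2.2)) := by
    rw [Finset.sum_subtype (p := fun p : (Fin D → ZMod l) × Fin D × Fin D => p.2.1 < p.2.2)]
    intro p; simp
  rw [h1, Finset.sum_filter, Fintype.sum_prod_type, Finset.sum_comm, Fintype.sum_prod_type]
  have h2 : ∀ μ ν : Fin D, ∑ x : Fin D → ZMod l, (if μ < ν then
      f (x, μ) + f (x + eT μ, ν) + f (x + eT ν, μ) + f (x, ν) else 0) =
      (if μ < ν then 2 * s μ else 0) + (if μ < ν then 2 * s ν else 0) := by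
    intro μ ν
    split_ifs with h
    · rw [Finset.sum_add_distrib, Finset.sum_add_distrib, Finset.sum_add_distrib, hsh, hsh]
      have e1 : ∑ x : Fin D → ZMod l, f (x, μ) = s μ := by rw [hs]
      have e2 : ∑ x : Fin D → ZMod l, f (x, ν) = s ν := by rw [hs]
      rw [e1, e2]; ring
    · simp
  simp only [h2]
  have h3 : ∑ μ : Fin D, ∑ ν : Fin D, ((if μ < ν then 2 * s μ else 0) +
      (if μ < ν then 2 * s ν else 0)) =
      ∑ μ : Fin D, ∑ ν : Fin D, ((if μ < ν then 2 * s μ else 0) +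
        (if ν < μ then 2 * s μ else 0)) := by
    simp only [Finset.sum_add_distrib]
    congr 1
    rw [Finset.sum_comm]
  rw [h3]
  have h4 : ∀ μ : Fin D, ∑ ν : Fin D, ((if μ < ν then 2 * s μ else 0) +
        (if ν < μ then 2 * s μ else 0)) = 2 * ((D : ℝ) - 1) * s μ := by
    intro μ
    have h5 : ∀ ν : Fin D, ((if μ < ν then 2 * s μ else 0) +
        (if ν < μ then 2 * s μ else 0)) = 2 * s μ - if ν = μ then 2 * s μ else 0 := by
      intro ν
      rcases lt_trichotomy μ ν with h | h | h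
      · rw [if_pos h, if_neg (not_lt.2 h.le), if_neg h.ne']; ring
      · subst h; simp
      · rw [if_neg (not_lt.2 h.le), if_pos h, if_neg h.ne]; ring
    rw [Finset.sum_congr rfl fun ν _ => h5 ν, Finset.sum_sub_distrib]
    simp
    ring
  rw [Finset.sum_congr rfl fun μ _ => h4 μ, ← Finset.mul_sum]
  congr 1
  rw [hs, Fintype.sum_prod_type, Finset.sum_comm]

lemma sum_pn (ξ : Ed D l × Fin n → ℝ) :
    ∑ p : Pl D l, pn ξ p.1 ^ 2 ≤ 8 * ((D : ℝ) - 1) * ∑ j, ξ j ^ 2 := by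
  refine (Finset.sum_le_sum fun p _ => pn_sq ξ p.1).trans ?_
  rw [← Finset.mul_sum, count (fun e => ne ξ e ^ 2), Fintype.sum_prod_type (f := fun j => ξ j ^ 2)]
  simp only [ne_sq]
  have : 4 * (2 * ((D : ℝ) - 1) * ∑ x, ∑ a, ξ (x, a) ^ 2) =
    8 * ((D : ℝ) - 1) * ∑ x, ∑ y, ξ (x, y) ^ 2 := by ring
  rw [this]

lemma mixed_VT (ξ η : Ed D l × Fin n → ℝ) (U : Ed D l → G) :
    |∑ j, ξ j * L.ev U (L.Dv j (∑ k, η k • Rv L k (VT L D l)))| ≤
      ∑ p : Pl D l, pn ξ p.1 * pn η p.1 := by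
  have h1 : ∑ j, ξ j * L.ev U (L.Dv j (∑ k, η k • Rv L k (VT L D l))) =
      ∑ p : Pl D l, ∑ j, ξ j * L.ev U (L.Dv j (∑ k, η k • Rv L k
        (lin (ip 1) _ (SmM_plqT (L := L) p.1.1 p.1.2.1 p.1.2.2)))) := by
    rw [Finset.sum_comm]
    refine Finset.sum_congr rfl fun j _ => ?_
    rw [← Finset.mul_sum, ← map_sum, ← map_sum, Finset.sum_comm]
    congr 3
    refine Finset.sum_congr rfl fun k _ => ?_
    rw [← Finset.smul_sum]
    congr 1
    unfold VT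
    rw [map_sum]
  rw [h1]
  refine (Finset.abs_sum_le_sum_abs _ _).trans (Finset.sum_le_sum fun p _ => ?_)
  have hT := (((Tri.link (L := L) ξ η (p.1.1, p.1.2.1)).mul
    (Tri.link (L := L) ξ η (p.1.1 + eT p.1.2.1, p.1.2.2))).mul
    (Tri.link (L := L) ξ η (p.1.1 + eT p.1.2.2, p.1.2.1)).ct).mul
    (Tri.link (L := L) ξ η (p.1.1, p.1.2.2)).ct
  refine mixed hT _ (ip 1 (1 : Mat N)) (fun U => ?_) U
  rw [lin_apply, map_sub]
  congr 2
  unfold plqT
  rw [map_mul, map_mul, map_mul, L.rho_inv, L.rho_inv]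
  rfl

lemma sum_pn_mul (ξ η : Ed D l × Fin n → ℝ) (hD : 1 ≤ D) :
    (∑ p : Pl D l, pn ξ p.1 * pn η p.1) ^ 2 ≤
      (8 * ((D : ℝ) - 1)) ^ 2 * ((∑ j, ξ j ^ 2) * ∑ j, η j ^ 2) := by
  have hD' : (0 : ℝ) ≤ D - 1 := by
    have : (1 : ℝ) ≤ D := by exact_mod_cast hD
    linarith
  have h1 := Finset.sum_mul_sq_le_sq_mul_sq Finset.univ (fun p : Pl D l => pn ξ p.1)
    (fun p => pn η p.1)
  refine h1.trans ?_
  have hn : 0 ≤ ∑ j, ξ j ^ 2 := Finset.sum_nonneg fun k _ => sq_nonneg _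
  calc (∑ p : Pl D l, pn ξ p.1 ^ 2) * (∑ p : Pl D l, pn η p.1 ^ 2)
      ≤ (8 * ((D : ℝ) - 1) * ∑ j, ξ j ^ 2) * (8 * ((D : ℝ) - 1) * ∑ j, η j ^ 2) :=
        mul_le_mul (sum_pn ξ) (sum_pn η) (Finset.sum_nonneg fun _ _ => sq_nonneg _)
          (by positivity)
    _ = _ := by ring

/-- The bound for the mixed second derivatives of the magnetic energy. -/
lemma VT_bound (η : Ed D l × Fin n → ℝ) (hD : 1 ≤ D) (U : Ed D l → G) :
    ∑ j, L.ev U (L.Dv j (∑ k, η k • Rv L k (VT L D l))) ^ 2 ≤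
      (8 * ((D : ℝ) - 1)) ^ 2 * ∑ j, η j ^ 2 := by
  obtain ⟨ξ, hξ⟩ : ∃ ξ : Ed D l × Fin n → ℝ,
    ξ = fun j => L.ev U (L.Dv j (∑ k, η k • Rv L k (VT L D l))) := ⟨_, rfl⟩
  have h1 := mixed_VT (L := L) ξ η U
  have h2 := sum_pn_mul ξ η hD
  obtain ⟨Z, hZ⟩ : ∃ Z, Z = ∑ j, ξ j ^ 2 := ⟨_, rfl⟩
  have h3 : ∑ j, ξ j * L.ev U (L.Dv j (∑ k, η k • Rv L k (VT L D l))) = Z := by
    rw [hZ, hξ]
    exact Finset.sum_congr rfl fun j _ => by rw [sq]
  have hZ' : ∑ j, L.ev U (L.Dv j (∑ k, η k • Rv L k (VT L D l))) ^ 2 = Z := by rw [hZ, hξ]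
  rw [hZ']
  rw [h3] at h1
  rw [← hZ] at h2
  have hZ0 : 0 ≤ Z := by rw [hZ]; exact Finset.sum_nonneg fun k _ => sq_nonneg _
  have h4 : Z ^ 2 ≤ (8 * ((D : ℝ) - 1)) ^ 2 * (Z * ∑ j, η j ^ 2) :=
    (pow_le_pow_left₀ hZ0 ((le_abs_self _).trans h1) 2).trans h2
  rcases hZ0.eq_or_lt with h | h
  · rw [← h]
    have hn : 0 ≤ ∑ j, η j ^ 2 := Finset.sum_nonneg fun k _ => sq_nonneg _
    positivity
  · have h5 : Z * Z ≤ Z * ((8 * ((D : ℝ) - 1)) ^ 2 * ∑ j, η j ^ 2) := by nlinarith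
    exact le_of_mul_le_mul_left h5 h

end

end Pool.Agent.W504.YM
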