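import Mathlib
import Pool.Agent.W504.YM.Vb

/-!
# Oscillation of functions with bounded gradient
-/

open MeasureTheory Matrix Set
open scoped Matrix.Norms.Frobenius ContDiff
open Pool.Agent.H906R3.YM

namespace Pool.Agent.W504.YM

set_option linter.unusedSectionVars false

noncomputable section

variable {G : Type*} [Group G] [TopologicalSpace G] {N n : ℕ} (L : LD G N n)
  {E : Type*} [Fintype E] [DecidableEq E]

/-- The path `exp (t ∑ v_a X_a)`. -/
structure Pth (v : Fin n → ℝ) (c : ℝ → G) : Prop where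
  zero : c 0 = 1
  d : ∀ t, HasDerivAt (fun t => L.rho (c t)) ((∑ a, v a • L.X a) * L.rho (c t)) t

/-- Products of ends of paths of total length `r`. -/
inductive Pd : ℝ → G → Prop
  | one : Pd 0 1
  | step {r : ℝ} {h : G} {v : Fin n → ℝ} {c : ℝ → G} (hp : Pd r h) (hc : Pth L v c) :
      Pd (r + Real.sqrt (∑ a, v a ^ 2)) (c 1 * h)

variable {L}

/-- moving one link -/
def mv (U : E → G) (e : E) (h : G) : E → G := Function.update U e (h * U e)

lemma mv_one (U : E → G) (e : E) : mv U e (1 : G) = U := by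
  unfold mv
  rw [one_mul, Function.update_eq_self]

lemma mv_mul (U : E → G) (e : E) (h h' : G) : mv (mv U e h) e h' = mv U e (h' * h) := by
  unfold mv
  rw [Function.update_self, Function.update_idem, mul_assoc]

lemma hasDerivAt_mv (U : E → G) (e : E) {v : Fin n → ℝ} {c : ℝ → G} (hc : Pth L v c) (t : ℝ) :
    HasDerivAt (fun t => L.mat (mv U e (c t)))
      (∑ a, v a • L.vf e a (L.mat (mv U e (c t)))) t := by
  refine hasDerivAt_pi.2 fun e' => ?_
  rw [Finset.sum_apply]
  by_cases h : e' = e
  · subst h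
    have h1 : (fun t => L.mat (mv U e' (c t)) e') = fun t => L.rho (c t) * L.rho (U e') := by
      funext t
      unfold LD.mat mv
      rw [Function.update_self, map_mul]
    rw [h1]
    have h2 : ∑ a, (v a • L.vf e' a (L.mat (mv U e' (c t)))) e' =
        ((∑ a, v a • L.X a) * L.rho (c t)) * L.rho (U e') := by
      rw [Matrix.mul_assoc, Finset.sum_mul]
      refine Finset.sum_congr rfl fun a _ => ?_
      rw [Pi.smul_apply]
      unfold LD.vf LD.mat mv
      rw [Pi.single_eq_same, Function.update_self, map_mul, smul_mul_assoc]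
    rw [h2]
    exact (hc.d t).mul_const _
  · have h1 : (fun t => L.mat (mv U e (c t)) e') = fun t => L.rho (U e') := by
      funext t
      unfold LD.mat mv
      rw [Function.update_of_ne h]
    rw [h1]
    have h2 : ∑ a, (v a • L.vf e a (L.mat (mv U e (c t)))) e' = 0 := by
      refine Finset.sum_eq_zero fun a _ => ?_
      rw [Pi.smul_apply]
      unfold LD.vf
      rw [Pi.single_eq_of_ne h, smul_zero]
    rw [h2]
    exact hasDerivAt_const _ _

lemma osc_path (f : Sm L E) {C : ℝ} (hC : 0 ≤ C)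
    (hf : ∀ x, L.ev x (Gam L.Dv f f) ≤ C ^ 2) (U : E → G) (e : E) {v : Fin n → ℝ}
    {c : ℝ → G} (hc : Pth L v c) :
    |L.ev (mv U e (c 1)) f - L.ev U f| ≤ Real.sqrt (∑ a, v a ^ 2) * C := by
  obtain ⟨F, hF⟩ := f
  obtain ⟨Ft, hFt, h⟩ := id hF
  have h1 : ∀ t, HasDerivAt (fun t => F (mv U e (c t)))
      (∑ a, v a * L.ev (mv U e (c t)) (L.Dv (e, a) ⟨F, hF⟩)) t := by
    intro t
    refine (hasDerivAt_curve hFt h (hasDerivAt_mv U e hc t)).congr_deriv ?_
    rw [map_sum]
    refine Finset.sum_congr rfl fun a _ => ?_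
    rw [map_smul, smul_eq_mul]
    congr 1
    exact (dF_ext hFt h e a _).symm
  have h2 : ∀ t, |∑ a, v a * L.ev (mv U e (c t)) (L.Dv (e, a) ⟨F, hF⟩)| ≤
      Real.sqrt (∑ a, v a ^ 2) * C := by
    intro t
    refine abs_le_of_sq_le_sq ?_ (mul_nonneg (Real.sqrt_nonneg _) hC)
    refine (Finset.sum_mul_sq_le_sq_mul_sq Finset.univ v
      (fun a => L.ev (mv U e (c t)) (L.Dv (e, a) ⟨F, hF⟩))).trans ?_
    rw [mul_pow, Real.sq_sqrt (Finset.sum_nonneg fun _ _ => sq_nonneg _)]
    refine mul_le_mul_of_nonneg_left ?_ (Finset.sum_nonneg fun _ _ => sq_nonneg _)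
    refine le_trans ?_ (hf (mv U e (c t)))
    unfold Gam
    rw [map_sum, Fintype.sum_prod_type]
    refine le_trans (le_of_eq ?_) (Finset.single_le_sum (f := fun e' => ∑ a : Fin n,
      L.ev (mv U e (c t)) (L.Dv (e', a) ⟨F, hF⟩ * L.Dv (e', a) ⟨F, hF⟩))
      (fun e' _ => Finset.sum_nonneg fun b _ => by rw [map_mul]; exact mul_self_nonneg _)
      (Finset.mem_univ e))
    exact Finset.sum_congr rfl fun a _ => by rw [map_mul, sq]
  obtain ⟨t, -, ht⟩ := exists_hasDerivAt_eq_slope (fun t => F (mv U e (c t)))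
    (fun t => ∑ a, v a * L.ev (mv U e (c t)) (L.Dv (e, a) ⟨F, hF⟩)) zero_lt_one
    (fun r _ => (h1 r).continuousAt.continuousWithinAt) fun r _ => h1 r
  rw [sub_zero, div_one, hc.zero, mv_one] at ht
  have h3 := h2 t
  rw [ht] at h3
  exact h3

lemma osc_Pd (f : Sm L E) {C : ℝ} (hC : 0 ≤ C)
    (hf : ∀ x, L.ev x (Gam L.Dv f f) ≤ C ^ 2) (U : E → G) (e : E) {r : ℝ} {h : G}
    (hp : Pd L r h) : |L.ev (mv U e h) f - L.ev U f| ≤ r * C := by
  induction hp with
  | one => rw [mv_one, sub_self, abs_zero, zero_mul]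
  | @step r h v c hp hc ih =>
    have h1 := osc_path f hC hf (mv U e h) e hc
    rw [mv_mul] at h1
    rw [add_mul]
    have h2 := abs_sub_le (L.ev (mv U e (c 1 * h)) f) (L.ev (mv U e h) f) (L.ev U f)
    linarith

/-- all elements of the group are reached -/
def Cn (L : LD G N n) (r : ℝ) : Prop := ∀ h : G, ∃ r' ≤ r, Pd L r' h

lemma osc_all {r : ℝ} (hr : Cn L r) (f : Sm L E) {C : ℝ} (hC : 0 ≤ C)
    (hf : ∀ x, L.ev x (Gam L.Dv f f) ≤ C ^ 2) (x y : E → G) :
    L.ev x f - L.ev y f ≤ (Fintype.card E * r) * C := by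
  have key : ∀ s : Finset E, |L.ev (fun e => if e ∈ s then x e else y e) f - L.ev y f| ≤
      (s.card * r) * C := by
    intro s
    induction s using Finset.induction_on with
    | empty => simp
    | insert e s he ih =>
      obtain ⟨r', hr', hp⟩ := hr (x e * (y e)⁻¹)
      have h1 := osc_Pd f hC hf (fun e => if e ∈ s then x e else y e) e hp
      have h2 : mv (fun e => if e ∈ s then x e else y e) e (x e * (y e)⁻¹) =
          fun e' => if e' ∈ insert e s then x e' else y e' := by
        funext e'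
        unfold mv
        by_cases h : e' = e
        · subst h
          rw [Function.update_self]
          dsimp only
          rw [if_neg he, if_pos (Finset.mem_insert_self _ _), inv_mul_cancel_right]
        · rw [Function.update_of_ne h]
          simp [Finset.mem_insert, h]
      rw [h2] at h1
      have h3 := abs_sub_le (L.ev (fun e' => if e' ∈ insert e s then x e' else y e') f)
        (L.ev (fun e => if e ∈ s then x e else y e) f) (L.ev y f)
      have h4 : r' * C ≤ r * C := mul_le_mul_of_nonneg_right hr' hC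
      rw [Finset.card_insert_of_notMem he]
      push_cast
      nlinarith
  have h1 := key Finset.univ
  simp only [Finset.mem_univ, if_true] at h1
  exact (le_abs_self _).trans h1

end

end Pool.Agent.W504.YM
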