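import Mathlib
import Pool.Agent.W504.YM.Osc
import Pool.Agent.W504.YM.Log
import Pool.Agent.H906R3.YM.Conc

/-!
# The special unitary group: paths and curvature
-/

open MeasureTheory Matrix
open scoped Matrix.Norms.Frobenius ContDiff Real
open Pool.Agent.H906R3.YM

namespace Pool.Agent.W504.YM

set_option linter.unusedSectionVars false

noncomputable section

variable {N n : ℕ}

/-! ### exponentials -/

lemma exp_skew {Y : Mat N} (h : Yᴴ = -Y) :
    NormedSpace.exp Y * (NormedSpace.exp Y)ᴴ = 1 := by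
  rw [← Matrix.exp_conjTranspose, h,
    ← Matrix.exp_add_of_commute _ _ (Commute.neg_right (Commute.refl Y)), add_neg_cancel,
    NormedSpace.exp_zero]

lemma det_exp_diag (v : Fin N → ℂ) :
    NormedSpace.exp (diagonal v) = diagonal fun k => Complex.exp (v k) := by
  rw [Matrix.exp_diagonal]
  congr 1
  funext k
  rw [Pi.coe_exp, Complex.exp_eq_exp_ℂ]

lemma det_exp_herm {H : Mat N} (h : Hᴴ = H) :
    (NormedSpace.exp (Complex.I • H)).det = Complex.exp (Complex.I * trace H) := by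
  have hH : H.IsHermitian := h
  obtain ⟨U, hU⟩ : ∃ U : Mat N, U = (hH.eigenvectorUnitary : Mat N) := ⟨_, rfl⟩
  have hUU : U * star U = 1 := by
    rw [hU]; exact (Unitary.mem_iff.1 hH.eigenvectorUnitary.2).2
  have hinv : U⁻¹ = star U := Matrix.inv_eq_right_inv hUU
  have hunit : IsUnit U := ⟨⟨U, star U, hUU, mul_eq_one_comm.1 hUU⟩, rfl⟩
  have h1 : H = U * diagonal (fun k => ((hH.eigenvalues k : ℝ) : ℂ)) * star U := by
    have h2 := hH.spectral_theorem
    rw [Unitary.conjStarAlgAut_apply] at h2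
    rw [hU]
    exact h2
  have h3 : Complex.I • H = U * diagonal (fun k => Complex.I * ((hH.eigenvalues k : ℝ) : ℂ)) *
      U⁻¹ := by
    rw [hinv]
    conv_lhs => rw [h1]
    rw [← Matrix.smul_mul, ← Matrix.mul_smul, ← Matrix.diagonal_smul]
    rfl
  rw [h3, Matrix.exp_conj _ _ hunit, det_exp_diag, Matrix.det_mul, Matrix.det_mul,
    Matrix.det_diagonal, ← Complex.exp_sum, ← Finset.mul_sum, hH.trace_eq_sum_eigenvalues]
  have h4 : U.det * (U⁻¹).det = 1 := by
    rw [← Matrix.det_mul, hinv, hUU, Matrix.det_one]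
  rw [mul_right_comm, h4, one_mul]
  rfl

variable {G : Subgroup (UN N)} (B : Frame G n)

lemma mt_inj {g h : G} (e : mt g = mt h) : g = h := by
  apply Subtype.ext
  apply Subtype.ext
  exact e

/-- The path of an element of the Lie algebra. -/
lemma Pth_of {Y : Mat N} (hY : ∀ t : ℝ, ∃ g : G, mt g = NormedSpace.exp (t • Y)) :
    ∃ (v : Fin n → ℝ) (c : ℝ → G), Pth B.toLD v c ∧ mt (c 1) = NormedSpace.exp Y ∧
      ∑ a, v a ^ 2 = ip Y Y := by
  obtain ⟨v, hv⟩ := (Submodule.mem_span_range_iff_exists_fun ℝ).1 (B.full Y hY)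
  choose c hc using hY
  refine ⟨v, c, ⟨?_, fun t => ?_⟩, ?_, ?_⟩
  · apply mt_inj
    rw [hc, zero_smul, NormedSpace.exp_zero]
    rfl
  · have h1 : (fun t => B.toLD.rho (c t)) = fun t : ℝ => NormedSpace.exp (t • Y) := by
      funext t; exact hc t
    have h2 : B.toLD.rho (c t) = NormedSpace.exp (t • Y) := hc t
    have h3 : ∑ a, v a • B.toLD.X a = Y := hv
    rw [h1, h2, h3]
    exact hasDerivAt_exp_smul_const' (𝕂 := ℝ) Y t
  · rw [hc, one_smul]
  · rw [← hv]
    exact (ip_comb (L := B.toLD) v).symm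

/-- `G` is the special unitary group -/
def IsSU (G : Subgroup (UN N)) : Prop := ∀ g : UN N, g ∈ G ↔ (g : Mat N).det = 1

variable {B}

lemma su_exp (hG : IsSU G) {H : Mat N} (hH : Hᴴ = H) (htr : trace H = 0) (t : ℝ) :
    ∃ g : G, mt g = NormedSpace.exp (t • (Complex.I • H)) := by
  have h0 : t • (Complex.I • H) = Complex.I • (t • H) := smul_comm _ _ _
  have hHt : (t • H)ᴴ = t • H := by
    rw [conjTranspose_smul, hH]; simp
  have h1 : NormedSpace.exp (Complex.I • (t • H)) *
      (NormedSpace.exp (Complex.I • (t • H)))ᴴ = 1 := by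
    refine exp_skew ?_
    rw [conjTranspose_smul, hHt]
    simp
  have h2 : (NormedSpace.exp (Complex.I • (t • H))).det = 1 := by
    rw [det_exp_herm hHt, trace_smul, htr, smul_zero, mul_zero, Complex.exp_zero]
  rw [h0]
  exact ⟨⟨⟨_, Matrix.mem_unitaryGroup_iff.2 h1⟩, (hG _).2 h2⟩, rfl⟩

lemma ip_diag (v : Fin N → ℂ) : ip (diagonal v) (diagonal v) = ∑ k, ‖v k‖ ^ 2 := by
  rw [ip_apply, diagonal_conjTranspose, diagonal_mul_diagonal, trace_diagonal, Complex.re_sum]
  refine Finset.sum_congr rfl fun k _ => ?_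
  rw [Pi.star_apply, RCLike.star_def, ← Complex.normSq_eq_conj_mul_self, Complex.ofReal_re,
    Complex.normSq_eq_norm_sq]

lemma ip_one_one : ip (1 : Mat N) 1 = N := by
  rw [ip_apply, conjTranspose_one, one_mul, trace_one, Fintype.card_fin]; simp

/-- the special unitary group is reached by pairs of exponentials -/
lemma Cn_su (hG : IsSU G) (B : Frame G n) (hN : 0 < N) : ∃ r, Cn B.toLD r := by
  obtain ⟨C0, hC0⟩ := exists_log N
  obtain ⟨C, hC⟩ : ∃ C, C = max C0 0 := ⟨_, rfl⟩
  have hC' : 0 ≤ C := by rw [hC]; exact le_max_right _ _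
  obtain ⟨T, hT⟩ : ∃ T, T = Real.sqrt (N * C) := ⟨_, rfl⟩
  have hT0 : 0 ≤ T := by rw [hT]; exact Real.sqrt_nonneg _
  have hT2 : T ^ 2 = N * C := by rw [hT]; exact Real.sq_sqrt (by positivity)
  obtain ⟨b, hb⟩ : ∃ b, b = Real.sqrt N * (2 * T) := ⟨_, rfl⟩
  have hb0 : 0 ≤ b := by rw [hb]; positivity
  have hb2 : b ^ 2 = N * (2 * T) ^ 2 := by
    rw [hb, mul_pow, Real.sq_sqrt (by positivity)]
  refine ⟨(Real.sqrt C + b) + b, fun h => ?_⟩
  have hu : mt h ∈ Matrix.unitaryGroup (Fin N) ℂ := (h : UN N).2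
  obtain ⟨H, hH, hexp, hHC⟩ := hC0 (mt h) hu
  have hHC' : ip H H ≤ C := by rw [hC]; exact hHC.trans (le_max_left _ _)
  have hdet : (mt h).det = 1 := (hG _).1 h.2
  rw [← hexp, det_exp_herm hH] at hdet
  obtain ⟨m, hm⟩ := Complex.exp_eq_one_iff.1 hdet
  have hNc : (N : ℂ) ≠ 0 := by exact_mod_cast hN.ne'
  have hN1 : (1 : ℝ) ≤ N := by exact_mod_cast hN
  -- the trace
  have htr : trace H = 2 * π * m := by
    have h1 : Complex.I * trace H = Complex.I * (2 * π * m) := by rw [hm]; ring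
    exact mul_left_cancel₀ Complex.I_ne_zero h1
  obtain ⟨y, hy⟩ : ∃ y : ℝ, y = 2 * π * m := ⟨_, rfl⟩
  have htr2 : trace H = (y : ℂ) := by rw [htr, hy]; push_cast; ring
  have hy2 : y ^ 2 ≤ T ^ 2 := by
    have h1 := ip_cs 1 H
    have h2 : ip 1 H = y := by
      rw [ip_apply, conjTranspose_one, one_mul, htr2, Complex.ofReal_re]
    rw [h2, ip_one_one] at h1
    rw [hT2]
    exact h1.trans (mul_le_mul_of_nonneg_left hHC' (by positivity))
  have hyT : |y| ≤ T := abs_le_of_sq_le_sq hy2 hT0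
  -- the diagonal matrix
  obtain ⟨w, hw⟩ : ∃ w : Fin N → ℝ, w = fun k => y / N - if k = ⟨0, hN⟩ then y else 0 := ⟨_, rfl⟩
  have hwb : ∀ k, |w k| ≤ 2 * T := by
    intro k
    have h1 : |y / N| ≤ T := by
      rw [abs_div, Nat.abs_cast]
      exact (div_le_self (abs_nonneg _) hN1).trans hyT
    have h2 : |if k = ⟨0, hN⟩ then y else 0| ≤ T := by
      split_ifs
      · exact hyT
      · rw [abs_zero]; exact hT0
    rw [hw]
    exact (abs_sub _ _).trans (by linarith)
  have hwsum : ∑ k, w k = 0 := by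
    rw [hw, Finset.sum_sub_distrib]
    simp
    field_simp
    ring
  obtain ⟨Dg, hDg⟩ : ∃ Dg : Mat N, Dg = diagonal fun k => (w k : ℂ) := ⟨_, rfl⟩
  have hDgH : Dgᴴ = Dg := by
    rw [hDg, diagonal_conjTranspose]
    congr 1
    funext k
    simp
  have hDgt : trace Dg = 0 := by
    rw [hDg, trace_diagonal]
    rw [← Complex.ofReal_sum, hwsum, Complex.ofReal_zero]
  have hDgb : ip (Complex.I • Dg) (Complex.I • Dg) ≤ b ^ 2 := by
    have h1 : Complex.I • Dg = diagonal fun k => Complex.I * (w k : ℂ) := by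
      rw [hDg, ← Matrix.diagonal_smul]; rfl
    rw [h1, ip_diag, hb2]
    have h2 : ∀ k ∈ Finset.univ, ‖Complex.I * (w k : ℂ)‖ ^ 2 ≤ (2 * T) ^ 2 := by
      intro k _
      rw [norm_mul, Complex.norm_I, one_mul, Complex.norm_real, Real.norm_eq_abs]
      exact pow_le_pow_left₀ (abs_nonneg _) (hwb k) 2
    have h3 := Finset.sum_le_card_nsmul Finset.univ _ _ h2
    rw [Finset.card_univ, Fintype.card_fin, nsmul_eq_mul] at h3
    exact h3
  have hDe : NormedSpace.exp (Complex.I • Dg) =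
      diagonal fun _ : Fin N => Complex.exp (Complex.I * ((y / N : ℝ) : ℂ)) := by
    have h1 : Complex.I • Dg = diagonal fun k => Complex.I * (w k : ℂ) := by
      rw [hDg, ← Matrix.diagonal_smul]; rfl
    rw [h1, det_exp_diag]
    congr 1
    funext k
    rw [hw]
    dsimp only
    split_ifs with hk
    · have h2 : Complex.I * ((y / N - y : ℝ) : ℂ) = Complex.I * ((y / N : ℝ) : ℂ) -
          m * (2 * π * Complex.I) := by
        rw [hy]; push_cast; ring
      rw [h2, Complex.exp_sub, Complex.exp_int_mul_two_pi_mul_I, div_one]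
    · rw [sub_zero]
  -- the first factor
  obtain ⟨H1, hH1⟩ : ∃ H1 : Mat N, H1 = H - diagonal fun _ => ((y / N : ℝ) : ℂ) := ⟨_, rfl⟩
  have hH1H : H1ᴴ = H1 := by
    rw [hH1, conjTranspose_sub, hH, diagonal_conjTranspose]
    congr 2
    funext k
    simp
  have hH1t : trace H1 = 0 := by
    rw [hH1, trace_sub, htr2, trace_diagonal]
    simp
    field_simp
    ring
  have hH1e : NormedSpace.exp (Complex.I • H1) = mt h *
      diagonal fun _ : Fin N => Complex.exp (-(Complex.I * ((y / N : ℝ) : ℂ))) := by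
    have h1 : Complex.I • H1 = Complex.I • H +
        diagonal fun _ => -(Complex.I * ((y / N : ℝ) : ℂ)) := by
      rw [hH1, smul_sub, sub_eq_add_neg, ← Matrix.diagonal_smul, Matrix.diagonal_neg]
      rfl
    have h2 : Commute (Complex.I • H) (diagonal fun _ => -(Complex.I * ((y / N : ℝ) : ℂ))) := by
      have h3 : (diagonal fun _ : Fin N => -(Complex.I * ((y / N : ℝ) : ℂ))) =
          (-(Complex.I * ((y / N : ℝ) : ℂ))) • (1 : Mat N) := by
        rw [← Matrix.diagonal_one, ← Matrix.diagonal_smul]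
        congr 1
        funext k
        simp
      rw [h3]
      exact (Commute.one_right _).smul_right _
    rw [h1, Matrix.exp_add_of_commute _ _ h2, hexp, det_exp_diag]
  have hH1b : ip (Complex.I • H1) (Complex.I • H1) ≤ (Real.sqrt C + b) ^ 2 := by
    have h1 : Complex.I • H1 = Complex.I • H +
        diagonal fun _ => -(Complex.I * ((y / N : ℝ) : ℂ)) := by
      rw [hH1, smul_sub, sub_eq_add_neg, ← Matrix.diagonal_smul, Matrix.diagonal_neg]
      rfl
    rw [h1]
    refine ip_add_bound (Real.sqrt_nonneg _) hb0 ?_ ?_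
    · rw [Real.sq_sqrt hC']
      refine le_trans (le_of_eq ?_) hHC'
      rw [ip_apply, ip_apply, conjTranspose_smul, smul_mul_assoc, mul_smul_comm, smul_smul]
      have : star Complex.I * Complex.I = 1 := by simp
      rw [this, one_smul]
    · rw [ip_diag, hb2]
      have h2 : ∀ k ∈ (Finset.univ : Finset (Fin N)),
          ‖-(Complex.I * ((y / N : ℝ) : ℂ))‖ ^ 2 ≤ (2 * T) ^ 2 := by
        intro k _
        rw [norm_neg, norm_mul, Complex.norm_I, one_mul, Complex.norm_real, Real.norm_eq_abs]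
        refine pow_le_pow_left₀ (abs_nonneg _) ?_ 2
        have h1 : |y / N| ≤ T := by
          rw [abs_div, Nat.abs_cast]
          exact (div_le_self (abs_nonneg _) hN1).trans hyT
        linarith
      have h3 := Finset.sum_le_card_nsmul Finset.univ _ _ h2
      rw [Finset.card_univ, Fintype.card_fin, nsmul_eq_mul] at h3
      exact h3
  obtain ⟨v1, c1, hc1, he1, hn1⟩ := Pth_of B (su_exp hG hH1H hH1t)
  obtain ⟨v2, c2, hc2, he2, hn2⟩ := Pth_of B (su_exp hG hDgH hDgt)
  have hprod : h = c1 1 * (c2 1 * 1) := by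
    apply mt_inj
    rw [mul_one]
    have h1 : mt (c1 1 * c2 1) = mt (c1 1) * mt (c2 1) := rfl
    rw [h1, he1, he2, hH1e, hDe, Matrix.mul_assoc, diagonal_mul_diagonal]
    have h2 : (diagonal fun _ : Fin N => Complex.exp (-(Complex.I * ((y / N : ℝ) : ℂ))) *
        Complex.exp (Complex.I * ((y / N : ℝ) : ℂ))) = 1 := by
      rw [← Matrix.diagonal_one]
      congr 1
      funext k
      rw [← Complex.exp_add, neg_add_cancel, Complex.exp_zero]
    rw [h2, mul_one]
  refine ⟨0 + Real.sqrt (∑ a, v2 a ^ 2) + Real.sqrt (∑ a, v1 a ^ 2), ?_, ?_⟩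
  · rw [hn1, hn2]
    have h1 : Real.sqrt (ip (Complex.I • H1) (Complex.I • H1)) ≤ Real.sqrt C + b :=
      Real.sqrt_le_iff.2 ⟨add_nonneg (Real.sqrt_nonneg _) hb0, hH1b⟩
    have h2 : Real.sqrt (ip (Complex.I • Dg) (Complex.I • Dg)) ≤ b :=
      Real.sqrt_le_iff.2 ⟨hb0, hDgb⟩
    linarith
  · rw [hprod]
    exact Pd.step (Pd.step Pd.one hc2) hc1

end

end Pool.Agent.W504.YM
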