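import Mathlib
import Pool.Agent.W504.YM.SU

/-!
# The curvature of the special unitary group
-/

open MeasureTheory Matrix
open scoped Matrix.Norms.Frobenius ContDiff Real
open Pool.Agent.H906R3.YM

namespace Pool.Agent.W504.YM

set_option linter.unusedSectionVars false

noncomputable section

variable {N n : ℕ}

/-! ### sums over matrix units -/

lemma ip_unit_re (k l : Fin N) (M : Mat N) : ip (Matrix.single k l (1 : ℂ)) M = (M k l).re := by
  rw [ip_apply, Matrix.conjTranspose_single, star_one]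
  congr 1
  have : trace (Matrix.single l k (1 : ℂ) * M) = M k l := by
    rw [Matrix.trace_single_mul]; simp
  exact this

lemma ip_unit_im (k l : Fin N) (M : Mat N) :
    ip (Complex.I • Matrix.single k l (1 : ℂ)) M = (M k l).im := by
  rw [ip_apply, conjTranspose_smul, Matrix.conjTranspose_single, star_one, smul_mul_assoc,
    trace_smul]
  have : trace (Matrix.single l k (1 : ℂ) * M) = M k l := by
    rw [Matrix.trace_single_mul]; simp
  rw [this]
  simp

lemma ip_entries (M : Mat N) : ip M M = ∑ k, ∑ l, ((M k l).re ^ 2 + (M k l).im ^ 2) := by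
  have h := sum_co_sq M
  have h1 : ip M M = (trace (Mᴴ * M)).re := rfl
  rw [h1, ← h, Fintype.sum_prod_type]
  refine Finset.sum_congr rfl fun k _ => ?_
  rw [Fintype.sum_prod_type]
  refine Finset.sum_congr rfl fun l _ => ?_
  rw [Fintype.sum_bool]
  rfl

lemma ip_I (M : Mat N) : ip (Complex.I • M) (Complex.I • M) = ip M M := by
  rw [ip_apply, ip_apply, conjTranspose_smul, smul_mul_assoc, mul_smul_comm, smul_smul]
  have : star Complex.I * Complex.I = 1 := by simp
  rw [this, one_smul]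

lemma ip_sub_sq (A C : Mat N) : ip (A - C) (A - C) = ip A A - 2 * ip A C + ip C C := by
  rw [map_sub, sub_eq_add_neg A C, ip_add_left, ip_add_left, ← neg_one_smul ℝ C, ip_smul_left,
    ip_smul_left, ip_comm C A]
  ring

lemma sum_comm_units {Y : Mat N} (hY : trace Y = 0) :
    ∑ k, ∑ l, ip (Matrix.single k l (1 : ℂ) * Y - Y * Matrix.single k l (1 : ℂ))
      (Matrix.single k l (1 : ℂ) * Y - Y * Matrix.single k l (1 : ℂ)) = 2 * N * ip Y Y := by
  have h1 : ∀ k l : Fin N, ip (Matrix.single k l (1 : ℂ) * Y) (Matrix.single k l (1 : ℂ) * Y) =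
      ((Y * Yᴴ) l l).re := by
    intro k l
    rw [ip_apply, conjTranspose_mul, Matrix.conjTranspose_single, star_one]
    have e1 : trace (Yᴴ * Matrix.single l k (1 : ℂ) * (Matrix.single k l (1 : ℂ) * Y)) =
        trace (Matrix.single l l (1 : ℂ) * (Y * Yᴴ)) := by
      rw [Matrix.mul_assoc, trace_mul_comm]
      congr 1
      rw [← Matrix.mul_assoc (Matrix.single l k (1 : ℂ)), Matrix.single_mul_single_same, mul_one,
        Matrix.mul_assoc]
    rw [e1, Matrix.trace_single_mul]
    simp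
  have h2 : ∀ k l : Fin N, ip (Y * Matrix.single k l (1 : ℂ)) (Y * Matrix.single k l (1 : ℂ)) =
      ((Yᴴ * Y) k k).re := by
    intro k l
    rw [ip_apply, conjTranspose_mul, Matrix.conjTranspose_single, star_one]
    have e1 : trace (Matrix.single l k (1 : ℂ) * Yᴴ * (Y * Matrix.single k l (1 : ℂ))) =
        trace (Matrix.single k k (1 : ℂ) * (Yᴴ * Y)) := by
      have e2 : Matrix.single l k (1 : ℂ) * Yᴴ * (Y * Matrix.single k l (1 : ℂ)) =
          (Matrix.single l k (1 : ℂ) * (Yᴴ * Y)) * Matrix.single k l (1 : ℂ) := by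
        simp only [Matrix.mul_assoc]
      rw [e2, trace_mul_comm, ← Matrix.mul_assoc, Matrix.single_mul_single_same, mul_one]
    rw [e1, Matrix.trace_single_mul]
    simp
  have h3 : ∀ k l : Fin N, ip (Matrix.single k l (1 : ℂ) * Y) (Y * Matrix.single k l (1 : ℂ)) =
      (Y k k * Yᴴ l l).re := by
    intro k l
    rw [ip_apply, conjTranspose_mul, Matrix.conjTranspose_single, star_one]
    have e1 : trace (Yᴴ * Matrix.single l k (1 : ℂ) * (Y * Matrix.single k l (1 : ℂ))) =
        trace (Matrix.single l k (1 : ℂ) * (Y * Matrix.single k l (1 : ℂ) * Yᴴ)) := by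
      rw [Matrix.mul_assoc, trace_mul_comm, Matrix.mul_assoc]
    rw [e1, Matrix.trace_single_mul]
    congr 1
    rw [smul_eq_mul, one_mul, Matrix.mul_apply, Finset.sum_eq_single l]
    · rw [Matrix.mul_single_apply_same, mul_one]
    · intro b _ hb
      rw [Matrix.mul_single_apply_of_ne _ _ _ _ _ hb, zero_mul]
    · intro h; exact absurd (Finset.mem_univ _) h
  have h4 : ∑ k, ∑ l, (Y k k * Yᴴ l l).re = 0 := by
    have e1 : ∑ k, ∑ l, (Y k k * Yᴴ l l).re = (trace Y * trace Yᴴ).re := by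
      unfold trace
      rw [Finset.sum_mul_sum, Complex.re_sum]
      refine Finset.sum_congr rfl fun k _ => ?_
      rw [Complex.re_sum]
      rfl
    rw [e1, hY, zero_mul, Complex.zero_re]
  have h5 : ∑ k : Fin N, ∑ l, ((Y * Yᴴ) l l).re = N * ip Y Y := by
    rw [Finset.sum_const, Finset.card_univ, Fintype.card_fin, nsmul_eq_mul]
    congr 1
    rw [ip_apply, trace_mul_comm]
    unfold trace
    rw [Complex.re_sum]
    rfl
  have h6 : ∑ k : Fin N, ∑ l : Fin N, ((Yᴴ * Y) k k).re = N * ip Y Y := by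
    rw [Finset.sum_comm, Finset.sum_const, Finset.card_univ, Fintype.card_fin, nsmul_eq_mul]
    congr 1
    rw [ip_apply]
    unfold trace
    rw [Complex.re_sum]
    rfl
  simp only [ip_sub_sq, h1, h2, h3, Finset.sum_add_distrib, Finset.sum_sub_distrib,
    ← Finset.mul_sum]
  rw [h4, h5, h6]
  ring

variable {G : Subgroup (UN N)} {B : Frame G n}

lemma skewB (a : Fin n) : (B.X a)ᴴ = -B.X a := B.skewX a

lemma su_mem (hG : IsSU G) {Z : Mat N} (h1 : Zᴴ = -Z) (h2 : trace Z = 0) :
    Z ∈ Submodule.span ℝ (Set.range B.X) := by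
  have h3 : (-(Complex.I • Z))ᴴ = -(Complex.I • Z) := by
    rw [conjTranspose_neg, conjTranspose_smul, h1]
    simp
  have h4 : Complex.I • (-(Complex.I • Z)) = Z := by
    rw [smul_neg, smul_smul, Complex.I_mul_I]; simp
  have h5 := su_exp hG h3 (by rw [trace_neg, trace_smul, h2, smul_zero, neg_zero])
  simp only [h4] at h5
  exact B.full Z h5

lemma su_trace (hG : IsSU G) (a : Fin n) : trace (B.X a) = 0 := by
  have h1 : (-(Complex.I • B.X a))ᴴ = -(Complex.I • B.X a) := by
    rw [conjTranspose_neg, conjTranspose_smul, B.skewX]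
    simp
  have h4 : Complex.I • (-(Complex.I • B.X a)) = B.X a := by
    rw [smul_neg, smul_smul, Complex.I_mul_I]; simp
  have h5 : ∀ t : ℝ, Complex.exp ((t : ℂ) * trace (B.X a)) = 1 := by
    intro t
    have e1 : (t • (-(Complex.I • B.X a)))ᴴ = t • (-(Complex.I • B.X a)) := by
      rw [conjTranspose_smul, h1]; simp
    have e2 := det_exp_herm e1
    have e3 : Complex.I • (t • (-(Complex.I • B.X a))) = t • B.X a := by
      rw [smul_comm, h4]
    have e4 : Complex.I * trace (t • (-(Complex.I • B.X a))) = (t : ℂ) * trace (B.X a) := by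
      rw [trace_smul, trace_neg, trace_smul]
      rw [Complex.real_smul, smul_eq_mul]
      linear_combination -((t : ℂ) * trace (B.X a)) * Complex.I_mul_I
    rw [e3, e4] at e2
    rw [← e2, ← B.ex_eq]
    exact (hG _).1 (B.ex a t).2
  have h6 : HasDerivAt (fun t : ℝ => Complex.exp ((t : ℂ) * trace (B.X a)))
      (Complex.exp (((0 : ℝ) : ℂ) * trace (B.X a)) * (1 * trace (B.X a))) 0 := by
    refine HasDerivAt.cexp ?_
    exact (Complex.ofRealCLM.hasDerivAt (x := (0 : ℝ))).mul_const _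
  have h7 : (fun t : ℝ => Complex.exp ((t : ℂ) * trace (B.X a))) = fun _ => 1 := funext h5
  rw [h7] at h6
  have h8 := h6.unique (hasDerivAt_const (0 : ℝ) (1 : ℂ))
  simpa using h8

lemma parseval {Z : Mat N} (hZ : Z ∈ Submodule.span ℝ (Set.range B.X)) :
    ∑ a, ip Z (B.X a) ^ 2 = ip Z Z := by
  obtain ⟨v, hv⟩ := (Submodule.mem_span_range_iff_exists_fun ℝ).1 hZ
  have h1 : ∀ b, ip Z (B.X b) = v b := by
    intro b
    rw [← hv, ip_sum_left]
    have : ∀ a, ip (v a • B.X a) (B.X b) = v a * if a = b then 1 else 0 := fun a => by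
      rw [ip_smul_left]
      congr 1
      exact B.orth a b
    rw [Finset.sum_congr rfl fun a _ => this a]
    simp
  rw [Finset.sum_congr rfl fun a _ => by rw [h1 a], ← hv]
  exact (ip_comb (L := B.toLD) v).symm

/-- the skew part -/
def sk (A : Mat N) : Mat N := (1 / 2 : ℝ) • (A - Aᴴ)

lemma sk_skew (A : Mat N) : (sk A)ᴴ = -sk A := by
  unfold sk
  rw [conjTranspose_smul, conjTranspose_sub, conjTranspose_conjTranspose, ← smul_neg, neg_sub]
  simp

lemma ip_sk {Z : Mat N} (hZ : Zᴴ = -Z) (A : Mat N) : ip A Z = ip (sk A) Z := by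
  have h1 : ip Aᴴ Z = -ip A Z := by
    rw [ip_comm, ip_apply, ip_apply, ← conjTranspose_mul, trace_conjTranspose]
    have h2 : (trace (Aᴴ * Z)).re = -(trace (A * Z)).re := by
      have h3 : trace (A * Z) = -star (trace (Aᴴ * Z)) := by
        rw [← trace_conjTranspose, conjTranspose_mul, conjTranspose_conjTranspose, hZ, neg_mul,
          trace_neg, neg_neg, trace_mul_comm]
      rw [h3]; simp
    rw [h2]; simp
  unfold sk
  rw [ip_smul_left, sub_eq_add_neg, ip_add_left, ← neg_one_smul ℝ Aᴴ, ip_smul_left, h1]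
  ring

lemma sk_sum (A : Mat N) : ip (sk A) (sk A) + ip (sk (Complex.I • A)) (sk (Complex.I • A)) =
    ip A A := by
  have h1 : sk (Complex.I • A) = Complex.I • ((1 / 2 : ℝ) • (A + Aᴴ)) := by
    unfold sk
    rw [conjTranspose_smul, smul_comm Complex.I, smul_add]
    congr 1
    have : star Complex.I = -Complex.I := by simp
    rw [this, neg_smul, sub_neg_eq_add]
  have h2 : A + Aᴴ = A - -Aᴴ := by rw [sub_neg_eq_add]
  have h3 : ip (-Aᴴ) (-Aᴴ) = ip A A := by
    rw [← neg_one_smul ℝ Aᴴ, ip_smul_left, map_smul, smul_eq_mul, ip_ct]; ring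
  have h4 : ip A (-Aᴴ) = -ip A Aᴴ := map_neg _ _
  rw [h1, ip_I]
  unfold sk
  rw [ip_smul_left, map_smul, ip_smul_left, map_smul, smul_eq_mul, smul_eq_mul, h2, ip_sub_sq,
    ip_sub_sq, h3, h4, ip_ct]
  ring

lemma two_parseval (hG : IsSU G) {A : Mat N} (hA : trace A = 0) :
    ∑ a, (ip A (B.X a) ^ 2 + ip (Complex.I • A) (B.X a) ^ 2) = ip A A := by
  have h0 : ∀ A : Mat N, trace A = 0 → ∑ a, ip A (B.X a) ^ 2 = ip (sk A) (sk A) := by
    intro A hA
    have h1 : trace (sk A) = 0 := by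
      unfold sk
      rw [trace_smul, trace_sub, trace_conjTranspose, hA]; simp
    rw [← parseval (B := B) (su_mem hG (sk_skew A) h1)]
    exact Finset.sum_congr rfl fun a _ => by rw [ip_sk (B.skewX a)]
  rw [Finset.sum_add_distrib, h0 A hA, h0 (Complex.I • A) (by rw [trace_smul, hA, smul_zero]),
    sk_sum]

lemma ip_brk {Y : Mat N} (hY : Yᴴ = -Y) (A Z : Mat N) :
    ip A (Z * Y - Y * Z) = -ip (A * Y - Y * A) Z := by
  have h1 : ip A (Z * Y) = -ip (A * Y) Z := by
    rw [ip_apply, ip_apply, conjTranspose_mul, hY, neg_mul, neg_mul, trace_neg, Complex.neg_re,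
      neg_neg, ← Matrix.mul_assoc, trace_mul_comm, Matrix.mul_assoc]
  have h2 : ip A (Y * Z) = -ip (Y * A) Z := by
    rw [ip_apply, ip_apply, conjTranspose_mul, hY, mul_neg, neg_mul, trace_neg, Complex.neg_re,
      neg_neg, ← Matrix.mul_assoc]
  rw [map_sub, h1, h2, sub_eq_add_neg (A * Y), ip_add_left, ← neg_one_smul ℝ (Y * A),
    ip_smul_left]
  ring

/-- The curvature of the special unitary group. -/
lemma curv_su (hG : IsSU G) (B : Frame G n) : Curv B.toLD (N / 2) := by
  intro v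
  obtain ⟨Y, hY⟩ : ∃ Y : Mat N, Y = ∑ c, v c • B.X c := ⟨_, rfl⟩
  have hYs : Yᴴ = -Y := by
    rw [hY, conjTranspose_sum, ← Finset.sum_neg_distrib]
    refine Finset.sum_congr rfl fun c _ => ?_
    rw [conjTranspose_smul, B.skewX]; simp
  have hYt : trace Y = 0 := by
    rw [hY, trace_sum]
    refine Finset.sum_eq_zero fun c _ => ?_
    rw [trace_smul, su_trace hG, smul_zero]
  have hYn : ip Y Y = ∑ c, v c ^ 2 := by
    rw [hY]; exact ip_comb (L := B.toLD) v
  have h1 : ∀ a b, ∑ c, B.toLD.sc a b c * v c = -ip (B.X a * Y - Y * B.X a) (B.X b) := by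
    intro a b
    have e1 : ∀ c, B.toLD.sc a b c * v c =
        ip (v c • B.X c) (B.X a * B.X b - B.X b * B.X a) := by
      intro c
      rw [ip_smul_left, sc_ip]
      exact mul_comm _ _
    rw [Finset.sum_congr rfl fun c _ => e1 c, ← ip_sum_left, ← hY, ip_brk (B.skewX b)]
    have e2 : ip (Y * B.X b - B.X b * Y) (B.X a) = ip (B.X a * Y - Y * B.X a) (B.X b) := by
      rw [ip_comm, ← neg_sub (B.X b * Y), map_neg, ip_brk hYs, neg_neg]
    rw [e2]
  have h2 : ∀ a, ∑ b, (∑ c, B.toLD.sc a b c * v c) ^ 2 =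
      ip (B.X a * Y - Y * B.X a) (B.X a * Y - Y * B.X a) := by
    intro a
    have e1 : ∀ b, (∑ c, B.toLD.sc a b c * v c) ^ 2 =
        ip (B.X a * Y - Y * B.X a) (B.X b) ^ 2 := fun b => by rw [h1, neg_sq]
    rw [Finset.sum_congr rfl fun b _ => e1 b]
    refine parseval (su_mem hG ?_ ?_)
    · rw [conjTranspose_sub, conjTranspose_mul, conjTranspose_mul, B.skewX, hYs, neg_mul_neg,
        neg_mul_neg, neg_sub]
    · rw [trace_sub, trace_mul_comm, sub_self]
  rw [Finset.sum_congr rfl fun a _ => h2 a]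
  have h3 : ∀ a, ip (B.X a * Y - Y * B.X a) (B.X a * Y - Y * B.X a) = ∑ k, ∑ l,
      (ip (Matrix.single k l (1 : ℂ) * Y - Y * Matrix.single k l (1 : ℂ)) (B.X a) ^ 2 +
      ip (Complex.I • (Matrix.single k l (1 : ℂ) * Y - Y * Matrix.single k l (1 : ℂ)))
        (B.X a) ^ 2) := by
    intro a
    rw [ip_entries]
    refine Finset.sum_congr rfl fun k _ => Finset.sum_congr rfl fun l _ => ?_
    rw [← ip_unit_re, ← ip_unit_im, ip_brk hYs, ip_brk hYs, neg_sq, neg_sq, smul_mul_assoc,
      mul_smul_comm, ← smul_sub]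
  rw [Finset.sum_congr rfl fun a _ => h3 a, Finset.sum_comm]
  have h4 : ∀ k : Fin N, ∑ a, ∑ l,
      (ip (Matrix.single k l (1 : ℂ) * Y - Y * Matrix.single k l (1 : ℂ)) (B.X a) ^ 2 +
      ip (Complex.I • (Matrix.single k l (1 : ℂ) * Y - Y * Matrix.single k l (1 : ℂ)))
        (B.X a) ^ 2) = ∑ l, ip (Matrix.single k l (1 : ℂ) * Y - Y * Matrix.single k l (1 : ℂ))
          (Matrix.single k l (1 : ℂ) * Y - Y * Matrix.single k l (1 : ℂ)) := by
    intro k
    rw [Finset.sum_comm]
    refine Finset.sum_congr rfl fun l _ => ?_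
    refine two_parseval hG ?_
    rw [trace_sub, trace_mul_comm, sub_self]
  rw [Finset.sum_congr rfl fun k _ => h4 k, sum_comm_units hYt, hYn]
  refine le_of_eq ?_
  ring

end

end Pool.Agent.W504.YM
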