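import Mathlib
import Pool.Agent.W504.YM.SUc

/-!
# Closed connected subgroups of the unitary group: all elements are reached
-/

open MeasureTheory Matrix Filter Topology
open scoped Matrix.Norms.Frobenius ContDiff Real
open Pool.Agent.H906R3.YM

namespace Pool.Agent.W504.YM

set_option linter.unusedSectionVars false

noncomputable section

variable {N n : ℕ} {G : Subgroup (UN N)} (B : Frame G n)

/-! ### elements of the complement of the Lie algebra -/

lemma range_closed (hG : IsClosed (G : Set (UN N))) : IsClosed (Set.range (mt (G := G))) := by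
  have h1 : CompactSpace G := isCompact_iff_compactSpace.1 hG.isCompact
  exact (isCompact_range (rhoG_cont (G := G))).isClosed

lemma mt_pow (g : G) (k : ℕ) : mt (g ^ k) = mt g ^ k := by
  have := map_pow (rhoG G) g k
  exact this

/-- Limits of directions of logarithms are in the Lie algebra. -/
lemma lim_dir (hG : IsClosed (G : Set (UN N))) {Z : ℕ → Mat N} {W : Mat N}
    (h0 : ∀ k, Z k ≠ 0) (h1 : Tendsto Z atTop (𝓝 0))
    (h2 : Tendsto (fun k => ‖Z k‖⁻¹ • Z k) atTop (𝓝 W))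
    (h3 : ∀ k, ∃ g : G, mt g = NormedSpace.exp (Z k)) (s : ℝ) :
    ∃ g : G, mt g = NormedSpace.exp (s • W) := by
  wlog hs : 0 ≤ s generalizing s
  · obtain ⟨g, hg⟩ := this (-s) (by linarith)
    refine ⟨g⁻¹, ?_⟩
    have h4 : mt (g⁻¹) * mt g = 1 := by
      have : mt (g⁻¹ * g) = mt g⁻¹ * mt g := rfl
      rw [← this, inv_mul_cancel]
      rfl
    have h5 : NormedSpace.exp (s • W) * mt g = 1 := by
      rw [hg, ← Matrix.exp_add_of_commute _ _
        (((Commute.refl W).smul_left s).smul_right (-s)), ← add_smul, add_neg_cancel, zero_smul,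
        NormedSpace.exp_zero]
    have h6 : mt g * mt g⁻¹ = 1 := mul_eq_one_comm.1 h4
    calc mt g⁻¹ = 1 * mt g⁻¹ := (one_mul _).symm
      _ = NormedSpace.exp (s • W) * mt g * mt g⁻¹ := by rw [h5]
      _ = _ := by rw [mul_assoc, h6, mul_one]
  have hn : ∀ k, 0 < ‖Z k‖ := fun k => norm_pos_iff.2 (h0 k)
  have h4 : Tendsto (fun k => (⌊s / ‖Z k‖⌋₊ : ℝ) * ‖Z k‖) atTop (𝓝 s) := by
    have h5 : Tendsto (fun k => ‖Z k‖) atTop (𝓝 0) := by
      simpa using h1.norm
    have h6 : Tendsto (fun k => s - ‖Z k‖) atTop (𝓝 s) := by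
      simpa using (tendsto_const_nhds (x := s)).sub h5
    refine tendsto_of_tendsto_of_tendsto_of_le_of_le h6 tendsto_const_nhds (fun k => ?_)
      fun k => ?_
    · have h7 := Nat.lt_floor_add_one (s / ‖Z k‖)
      rw [div_lt_iff₀ (hn k)] at h7
      dsimp only
      nlinarith [hn k]
    · have h7 := Nat.floor_le (div_nonneg hs (hn k).le)
      rw [le_div_iff₀ (hn k)] at h7
      exact h7
  have h5 : Tendsto (fun k => ((⌊s / ‖Z k‖⌋₊ : ℝ) * ‖Z k‖) • (‖Z k‖⁻¹ • Z k)) atTop
      (𝓝 (s • W)) := h4.smul h2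
  have h6 : ∀ k, ((⌊s / ‖Z k‖⌋₊ : ℝ) * ‖Z k‖) • (‖Z k‖⁻¹ • Z k) = ⌊s / ‖Z k‖⌋₊ • Z k := by
    intro k
    rw [smul_smul, mul_assoc, mul_inv_cancel₀ (hn k).ne', mul_one, Nat.cast_smul_eq_nsmul]
  simp only [h6] at h5
  have h7 : Tendsto (fun k => NormedSpace.exp (⌊s / ‖Z k‖⌋₊ • Z k)) atTop
      (𝓝 (NormedSpace.exp (s • W))) :=
    ((NormedSpace.exp_continuous (𝔸 := Mat N)).tendsto _).comp h5
  have h8 : ∀ k, NormedSpace.exp (⌊s / ‖Z k‖⌋₊ • Z k) ∈ Set.range (mt (G := G)) := by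
    intro k
    obtain ⟨g, hg⟩ := h3 k
    refine ⟨g ^ ⌊s / ‖Z k‖⌋₊, ?_⟩
    rw [mt_pow, hg, Matrix.exp_nsmul]
  have h9 := (range_closed hG).mem_of_tendsto h7 (Eventually.of_forall h8)
  obtain ⟨g, hg⟩ := h9
  exact ⟨g, hg⟩

/-- Small elements of the complement whose exponential is in the group vanish. -/
lemma no_transverse (hG : IsClosed (G : Set (UN N))) : ∃ δ : ℝ, 0 < δ ∧ ∀ Z : Mat N, ‖Z‖ < δ →
    (∀ a, ip (B.X a) Z = 0) → (∃ g : G, mt g = NormedSpace.exp Z) → Z = 0 := by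
  by_contra hcon
  push Not at hcon
  have h1 : ∀ k : ℕ, ∃ Z : Mat N, ‖Z‖ < 1 / ((k : ℝ) + 1) ∧ (∀ a, ip (B.X a) Z = 0) ∧
      (∃ g : G, mt g = NormedSpace.exp Z) ∧ Z ≠ 0 := by
    intro k
    obtain ⟨Z, h1, h2, h3, h4⟩ := hcon (1 / ((k : ℝ) + 1)) (by positivity)
    exact ⟨Z, h1, h2, h3, h4⟩
  choose Z hZ1 hZ2 hZ3 hZ4 using h1
  have hn : ∀ k, 0 < ‖Z k‖ := fun k => norm_pos_iff.2 (hZ4 k)
  have hprop : ProperSpace (Mat N) := FiniteDimensional.proper ℝ _
  have hcomp : IsCompact (Metric.sphere (0 : Mat N) 1) := isCompact_sphere _ _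
  obtain ⟨W, hW, φ, hφ, hlim⟩ := hcomp.tendsto_subseq (x := fun k => ‖Z k‖⁻¹ • Z k) (fun k => by
    rw [mem_sphere_zero_iff_norm, norm_smul, norm_inv, norm_norm, inv_mul_cancel₀ (hn k).ne'])
  have hZ0 : Tendsto Z atTop (𝓝 0) :=
    tendsto_zero_iff_norm_tendsto_zero.2 (squeeze_zero (fun k => norm_nonneg _)
      (fun k => (hZ1 k).le) tendsto_one_div_add_atTop_nhds_zero_nat)
  have h2 := fun s => lim_dir hG (fun k => hZ4 (φ k)) (hZ0.comp hφ.tendsto_atTop) hlim
    (fun k => hZ3 (φ k)) s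
  have h3 := B.full W h2
  have h4 : ∀ a, ip (B.X a) W = 0 := by
    intro a
    have h5 : Tendsto (fun k => ip (B.X a) (‖Z (φ k)‖⁻¹ • Z (φ k))) atTop (𝓝 (ip (B.X a) W)) :=
      ((ip (B.X a)).continuous.tendsto W).comp hlim
    have h6 : ∀ k, ip (B.X a) (‖Z (φ k)‖⁻¹ • Z (φ k)) = 0 := fun k => by
      rw [map_smul, hZ2, smul_zero]
    simp only [h6] at h5
    exact (tendsto_nhds_unique h5 tendsto_const_nhds)
  have h5 := parseval (B := B) h3
  have h6 : ip W W = 0 := by
    rw [← h5]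
    refine Finset.sum_eq_zero fun a _ => ?_
    rw [ip_comm, h4]; ring
  have h7 : W = 0 := by
    have h8 := ip_entries W
    rw [h6] at h8
    ext k l
    have h9 : ∀ k, ∑ l, ((W k l).re ^ 2 + (W k l).im ^ 2) = 0 := fun k =>
      (Finset.sum_eq_zero_iff_of_nonneg fun k _ => Finset.sum_nonneg fun l _ => by positivity).1
        h8.symm k (Finset.mem_univ k)
    have h10 : (W k l).re ^ 2 + (W k l).im ^ 2 = 0 :=
      (Finset.sum_eq_zero_iff_of_nonneg fun l _ => by positivity).1 (h9 k) l (Finset.mem_univ l)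
    apply Complex.ext
    · have : (W k l).re ^ 2 = 0 := by nlinarith [sq_nonneg (W k l).re, sq_nonneg (W k l).im]
      exact pow_eq_zero_iff two_ne_zero |>.1 this
    · have : (W k l).im ^ 2 = 0 := by nlinarith [sq_nonneg (W k l).re, sq_nonneg (W k l).im]
      exact pow_eq_zero_iff two_ne_zero |>.1 this
  rw [h7, mem_sphere_zero_iff_norm, norm_zero] at hW
  exact zero_ne_one hW

/-! ### coordinates of the second kind -/

/-- products of the one-parameter subgroups of a list -/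
def gm (t : Fin n → ℝ) : List (Fin n) → G
  | [] => 1
  | a :: l => B.ex a (t a) * gm t l

lemma Pth_ex (a : Fin n) (r : ℝ) : Pth B.toLD (Pi.single a r) fun s => B.ex a (s * r) := by
  have h0 : ∀ s, B.toLD.rho (B.ex a (s * r)) = NormedSpace.exp (s • (r • B.X a)) := by
    intro s
    rw [smul_smul]
    exact B.ex_eq a (s * r)
  refine ⟨?_, fun t => ?_⟩
  · rw [zero_mul]; exact B.ex_zero a
  · simp only [h0]
    have h1 : ∑ b, (Pi.single a r : Fin n → ℝ) b • B.toLD.X b = r • B.X a := by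
      rw [Finset.sum_eq_single a]
      · rw [Pi.single_eq_same]; rfl
      · intro b _ hb
        rw [Pi.single_eq_of_ne hb, zero_smul]
      · intro h; exact absurd (Finset.mem_univ _) h
    rw [h1]
    exact hasDerivAt_exp_smul_const' (𝕂 := ℝ) (r • B.X a) t

lemma Pd_gm (t : Fin n → ℝ) (l : List (Fin n)) :
    Pd B.toLD ((l.map fun a => |t a|).sum) (gm B t l) := by
  induction l with
  | nil => exact Pd.one
  | cons a l ih =>
    have h1 := Pd.step ih (Pth_ex B a (t a))
    have h2 : Real.sqrt (∑ b, (Pi.single a (t a) : Fin n → ℝ) b ^ 2) = |t a| := by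
      rw [Finset.sum_eq_single a]
      · rw [Pi.single_eq_same, Real.sqrt_sq_eq_abs]
      · intro b _ hb
        rw [Pi.single_eq_of_ne hb]; ring
      · intro h; exact absurd (Finset.mem_univ _) h
    rw [h2, one_mul] at h1
    rw [List.map_cons, List.sum_cons, add_comm]
    exact h1

/-- the matrices of the products, with derivative at `0` -/
lemma gm_strict (l : List (Fin n)) : HasStrictFDerivAt (fun t : Fin n → ℝ => mt (gm B t l))
    ((l.map fun a => (ContinuousLinearMap.proj (R := ℝ) (φ := fun _ : Fin n => ℝ) a).smulRight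
      (B.X a)).sum : (Fin n → ℝ) →L[ℝ] Mat N) 0 := by
  induction l with
  | nil =>
    have h1 : (fun t : Fin n → ℝ => mt (gm B t [])) = fun _ => 1 := rfl
    rw [h1]
    exact hasStrictFDerivAt_const _ _
  | cons a l ih =>
    have h1 : (fun t : Fin n → ℝ => mt (gm B t (a :: l))) =
        fun t => NormedSpace.exp (t a • B.X a) * mt (gm B t l) := by
      funext t
      have : mt (gm B t (a :: l)) = mt (B.ex a (t a)) * mt (gm B t l) := rfl
      rw [this, B.ex_eq]
    rw [h1]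
    have h2 : HasStrictFDerivAt (fun t : Fin n → ℝ => t a • B.X a)
        ((ContinuousLinearMap.proj (R := ℝ) (φ := fun _ : Fin n => ℝ) a).smulRight (B.X a))
        (0 : Fin n → ℝ) :=
      ((ContinuousLinearMap.proj (R := ℝ) (φ := fun _ : Fin n => ℝ) a).smulRight
        (B.X a)).hasStrictFDerivAt
    have h3 : HasStrictFDerivAt (NormedSpace.exp : Mat N → Mat N) (1 : Mat N →L[ℝ] Mat N)
        ((0 : Fin n → ℝ) a • B.X a) := by
      rw [Pi.zero_apply, zero_smul]
      exact hasStrictFDerivAt_exp_zero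
    have h4 := h3.comp (0 : Fin n → ℝ) h2
    have h5 := h4.mul' ih
    refine h5.congr_fderiv ?_
    have h6 : ∀ l : List (Fin n), mt (gm B (0 : Fin n → ℝ) l) = 1 := by
      intro l
      induction l with
      | nil => rfl
      | cons b l ih =>
        have : mt (gm B (0 : Fin n → ℝ) (b :: l)) =
            mt (B.ex b 0) * mt (gm B (0 : Fin n → ℝ) l) := rfl
        rw [this, ih, mul_one, B.ex_eq, zero_smul, NormedSpace.exp_zero]
    refine ContinuousLinearMap.ext fun t => ?_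
    obtain ⟨Q, hQ⟩ : ∃ Q : (Fin n → ℝ) →L[ℝ] Mat N, Q = (l.map fun a =>
      (ContinuousLinearMap.proj (R := ℝ) (φ := fun _ : Fin n => ℝ) a).smulRight
        (B.X a)).sum := ⟨_, rfl⟩
    rw [h6, Pi.zero_apply, zero_smul, NormedSpace.exp_zero, List.map_cons, List.sum_cons, ← hQ]
    show (1 : Mat N) * Q t + (t a • B.X a) * (1 : Mat N) = t a • B.X a + Q t
    rw [one_mul, mul_one, add_comm]

/-- the projection to the complement of the Lie algebra -/
def prL : Mat N →L[ℝ] Mat N :=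
  ContinuousLinearMap.id ℝ (Mat N) - ∑ a, (ip (B.X a)).smulRight (B.X a)

lemma prL_apply (W : Mat N) : prL B W = W - ∑ a, ip (B.X a) W • B.X a := by
  unfold prL
  rw [ContinuousLinearMap.sub_apply, ContinuousLinearMap.sum_apply]
  rfl

lemma ip_prL (W : Mat N) (b : Fin n) : ip (B.X b) (prL B W) = 0 := by
  rw [prL_apply, map_sub, map_sum]
  have h1 : ∀ a, ip (B.X b) (ip (B.X a) W • B.X a) =
      ip (B.X a) W * if b = a then 1 else 0 := by
    intro a
    rw [map_smul, smul_eq_mul]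
    congr 1
    exact B.orth b a
  rw [Finset.sum_congr rfl fun a _ => h1 a]
  simp

/-- the local parametrisation of the matrices -/
def PhiM (p : (Fin n → ℝ) × Mat N) : Mat N :=
  mt (gm B p.1 (List.finRange n)) * NormedSpace.exp (prL B p.2)

lemma PhiM_nhds {𝒰 : Set ((Fin n → ℝ) × Mat N)} (hU : 𝒰 ∈ 𝓝 (0 : (Fin n → ℝ) × Mat N)) :
    PhiM B '' 𝒰 ∈ 𝓝 (1 : Mat N) := by
  obtain ⟨Q, hQ⟩ : ∃ Q : (Fin n → ℝ) →L[ℝ] Mat N, Q = ((List.finRange n).map fun a =>
      (ContinuousLinearMap.proj (R := ℝ) (φ := fun _ : Fin n => ℝ) a).smulRight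
        (B.X a)).sum := ⟨_, rfl⟩
  have hQa : ∀ t, Q t = ∑ a, t a • B.X a := by
    intro t
    have h1 : ∀ l : List (Fin n), ((l.map fun a =>
        (ContinuousLinearMap.proj (R := ℝ) (φ := fun _ : Fin n => ℝ) a).smulRight
          (B.X a)).sum : (Fin n → ℝ) →L[ℝ] Mat N) t = (l.map fun a => t a • B.X a).sum := by
      intro l
      induction l with
      | nil => rfl
      | cons a l ih =>
        rw [List.map_cons, List.sum_cons, ContinuousLinearMap.add_apply, ih, List.map_cons,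
          List.sum_cons]
        rfl
    rw [hQ, h1, ← List.ofFn_eq_map, List.sum_ofFn]
  have h1 := gm_strict B (List.finRange n)
  rw [← hQ] at h1
  have hgm0 : ∀ l : List (Fin n), mt (gm B (0 : Fin n → ℝ) l) = 1 := by
    intro l
    induction l with
    | nil => rfl
    | cons b l ih =>
      have : mt (gm B (0 : Fin n → ℝ) (b :: l)) =
          mt (B.ex b 0) * mt (gm B (0 : Fin n → ℝ) l) := rfl
      rw [this, ih, mul_one, B.ex_eq, zero_smul, NormedSpace.exp_zero]
  have h2 : HasStrictFDerivAt (fun p : (Fin n → ℝ) × Mat N => mt (gm B p.1 (List.finRange n)))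
      (Q.comp (ContinuousLinearMap.fst ℝ (Fin n → ℝ) (Mat N))) 0 :=
    HasStrictFDerivAt.comp (0 : (Fin n → ℝ) × Mat N) h1
      (ContinuousLinearMap.fst ℝ (Fin n → ℝ) (Mat N)).hasStrictFDerivAt
  have h3 : HasStrictFDerivAt (fun p : (Fin n → ℝ) × Mat N => NormedSpace.exp (prL B p.2))
      ((1 : Mat N →L[ℝ] Mat N).comp ((prL B).comp
        (ContinuousLinearMap.snd ℝ (Fin n → ℝ) (Mat N)))) 0 := by
    have e1 : HasStrictFDerivAt (NormedSpace.exp : Mat N → Mat N) (1 : Mat N →L[ℝ] Mat N)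
        (prL B ((0 : (Fin n → ℝ) × Mat N).2)) := by
      rw [Prod.snd_zero, map_zero]
      exact hasStrictFDerivAt_exp_zero
    have e2 : HasStrictFDerivAt (fun p : (Fin n → ℝ) × Mat N => prL B p.2)
        ((prL B).comp (ContinuousLinearMap.snd ℝ (Fin n → ℝ) (Mat N))) 0 :=
      ((prL B).comp (ContinuousLinearMap.snd ℝ (Fin n → ℝ) (Mat N))).hasStrictFDerivAt
    exact HasStrictFDerivAt.comp (0 : (Fin n → ℝ) × Mat N) e1 e2
  have h4 := h2.mul' h3
  have h5 : HasStrictFDerivAt (PhiM B)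
      (Q.comp (ContinuousLinearMap.fst ℝ (Fin n → ℝ) (Mat N)) +
        (prL B).comp (ContinuousLinearMap.snd ℝ (Fin n → ℝ) (Mat N))) 0 := by
    refine h4.congr_fderiv ?_
    refine ContinuousLinearMap.ext fun p => ?_
    show mt (gm B (0 : Fin n → ℝ) (List.finRange n)) * (prL B p.2) +
      Q p.1 * NormedSpace.exp (prL B 0) = Q p.1 + prL B p.2
    rw [hgm0, one_mul, map_zero, NormedSpace.exp_zero, mul_one, add_comm]
  have h6 := h5.map_nhds_eq_of_surj (by
    rw [LinearMap.range_eq_top]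
    intro M
    refine ⟨((fun a => ip (B.X a) M), M), ?_⟩
    show Q (fun a => ip (B.X a) M) + prL B M = M
    rw [hQa, prL_apply]
    abel)
  have h7 : PhiM B 0 = 1 := by
    show mt (gm B (0 : Fin n → ℝ) (List.finRange n)) * NormedSpace.exp (prL B 0) = 1
    rw [hgm0, one_mul, map_zero, NormedSpace.exp_zero]
  rw [h7] at h6
  have h8 := Filter.image_mem_map (m := PhiM B) hU
  exact (congrArg (fun F : Filter (Mat N) => PhiM B '' 𝒰 ∈ F) h6).mp h8

/-- A neighbourhood of the unit is reached. -/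
lemma nbhd_reached (hG : IsClosed (G : Set (UN N))) :
    {h : G | ∃ r' ≤ (n : ℝ), Pd B.toLD r' h} ∈ 𝓝 (1 : G) := by
  obtain ⟨δ, hδ, hZ⟩ := no_transverse B hG
  obtain ⟨𝒰, h𝒰⟩ : ∃ 𝒰 : Set ((Fin n → ℝ) × Mat N),
    𝒰 = {p | (∀ a, |p.1 a| < 1) ∧ ‖prL B p.2‖ < δ} := ⟨_, rfl⟩
  have h1 : 𝒰 ∈ 𝓝 (0 : (Fin n → ℝ) × Mat N) := by
    have ho : IsOpen 𝒰 := by
      have e1 : 𝒰 = (⋂ a, {p : (Fin n → ℝ) × Mat N | |p.1 a| < 1}) ∩
          {p | ‖prL B p.2‖ < δ} := by
        rw [h𝒰]
        ext p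
        simp
      rw [e1]
      refine IsOpen.inter (isOpen_iInter_of_finite fun a => ?_) ?_
      · exact isOpen_lt ((continuous_apply a).comp continuous_fst).abs continuous_const
      · exact isOpen_lt ((prL B).continuous.comp continuous_snd).norm continuous_const
    refine ho.mem_nhds ?_
    rw [h𝒰]
    refine ⟨fun a => ?_, ?_⟩
    · show |(0 : ℝ)| < 1
      rw [abs_zero]; exact one_pos
    · show ‖prL B 0‖ < δ
      rw [map_zero, norm_zero]; exact hδ
  have h2 := PhiM_nhds B h1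
  have hc : Continuous (mt (G := G)) := rhoG_cont (G := G)
  have h3 : mt (1 : G) = 1 := rfl
  have h4 : (mt (G := G)) ⁻¹' (PhiM B '' 𝒰) ∈ 𝓝 (1 : G) := by
    refine hc.continuousAt.preimage_mem_nhds ?_
    rw [h3]; exact h2
  refine Filter.mem_of_superset h4 ?_
  rintro g ⟨p, hp, hpg⟩
  rw [h𝒰] at hp
  have h5 : mt ((gm B p.1 (List.finRange n))⁻¹ * g) = NormedSpace.exp (prL B p.2) := by
    have e1 : mt ((gm B p.1 (List.finRange n))⁻¹ * g) =
        mt (gm B p.1 (List.finRange n))⁻¹ * mt g := rfl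
    have e2 : mt (gm B p.1 (List.finRange n))⁻¹ * mt (gm B p.1 (List.finRange n)) = 1 := by
      have : mt ((gm B p.1 (List.finRange n))⁻¹ * gm B p.1 (List.finRange n)) =
        mt (gm B p.1 (List.finRange n))⁻¹ * mt (gm B p.1 (List.finRange n)) := rfl
      rw [← this, inv_mul_cancel]
      rfl
    rw [e1, ← hpg]
    unfold PhiM
    rw [← mul_assoc, e2, one_mul]
  have h6 := hZ _ hp.2 (ip_prL B p.2) ⟨_, h5⟩
  rw [h6, NormedSpace.exp_zero] at h5
  have h7 : (gm B p.1 (List.finRange n))⁻¹ * g = 1 := mt_inj h5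
  have h8 : g = gm B p.1 (List.finRange n) := (inv_mul_eq_one.1 h7).symm
  refine ⟨((List.finRange n).map fun a => |p.1 a|).sum, ?_, ?_⟩
  · rw [← List.ofFn_eq_map, List.sum_ofFn]
    refine (Finset.sum_le_sum fun a _ => (hp.1 a).le).trans ?_
    simp
  · rw [h8]
    exact Pd_gm B p.1 _

lemma Pd_mul {G : Type*} [Group G] [TopologicalSpace G] {N n : ℕ} {L : LD G N n} {r r' : ℝ}
    {h h' : G} (hp : Pd L r h) (hp' : Pd L r' h') : Pd L (r + r') (h * h') := by
  induction hp with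
  | one => rw [zero_add, one_mul]; exact hp'
  | @step r h v c hp hc ih =>
    have h1 := Pd.step ih hc
    rw [mul_assoc]
    have h2 : r + Real.sqrt (∑ a, v a ^ 2) + r' = r + r' + Real.sqrt (∑ a, v a ^ 2) := by ring
    rw [h2]
    exact h1

/-- All elements of a closed connected subgroup are reached. -/
theorem Cn_conn (hG : IsClosed (G : Set (UN N))) [ConnectedSpace G] : ∃ r, Cn B.toLD r := by
  have hcomp : CompactSpace G := isCompact_iff_compactSpace.1 hG.isCompact
  obtain ⟨P, hP⟩ : ∃ P : ℕ → Set G, P = fun m : ℕ => {h : G | ∃ r' ≤ (m : ℝ) * (n : ℝ), Pd B.toLD r' h} :=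
    ⟨_, rfl⟩
  have hP1 : P 1 ∈ 𝓝 (1 : G) := by
    have h1 := nbhd_reached B hG
    rw [hP]
    simpa using h1
  have hmul : ∀ m (h h' : G), h ∈ P m → h' ∈ P 1 → h * h' ∈ P (m + 1) := by
    intro m h h' h1 h2
    rw [hP] at h1 h2 ⊢
    obtain ⟨r, hr, hp⟩ := h1
    obtain ⟨r', hr', hp'⟩ := h2
    refine ⟨r + r', ?_, Pd_mul hp hp'⟩
    push_cast at hr' ⊢
    linarith
  have hint : ∀ m, P m ⊆ interior (P (m + 1)) := by
    intro m h hh
    rw [mem_interior_iff_mem_nhds]
    have h1 : (fun x : G => h⁻¹ * x) ⁻¹' (P 1) ∈ 𝓝 h := by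
      have hc : Continuous fun x : G => h⁻¹ * x := continuous_const.mul continuous_id
      refine hc.continuousAt.preimage_mem_nhds ?_
      rw [inv_mul_cancel]; exact hP1
    refine Filter.mem_of_superset h1 fun x hx => ?_
    have := hmul m h (h⁻¹ * x) hh hx
    rwa [mul_inv_cancel_left] at this
  have hopen : IsOpen (⋃ m, P m) := by
    rw [isOpen_iff_mem_nhds]
    intro h hh
    obtain ⟨m, hm⟩ := Set.mem_iUnion.1 hh
    exact Filter.mem_of_superset (mem_interior_iff_mem_nhds.1 (hint m hm))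
      (Set.subset_iUnion P (m + 1))
  have hclosed : IsClosed (⋃ m, P m) := by
    rw [← isOpen_compl_iff, isOpen_iff_mem_nhds]
    intro g hg
    have h1 : (fun x : G => x⁻¹ * g) ⁻¹' (P 1) ∈ 𝓝 g := by
      have hc : Continuous fun x : G => x⁻¹ * g := continuous_inv.mul continuous_const
      refine hc.continuousAt.preimage_mem_nhds ?_
      rw [inv_mul_cancel]; exact hP1
    refine Filter.mem_of_superset h1 fun x hx hxU => ?_
    obtain ⟨m, hm⟩ := Set.mem_iUnion.1 hxU
    have := hmul m x (x⁻¹ * g) hm hx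
    rw [mul_inv_cancel_left] at this
    exact hg (Set.mem_iUnion.2 ⟨m + 1, this⟩)
  have h1mem : (1 : G) ∈ P 0 := by
    rw [hP]
    exact ⟨0, by simp, Pd.one⟩
  have huniv : (⋃ m, P m) = Set.univ := by
    rcases isClopen_iff.1 ⟨hclosed, hopen⟩ with h | h
    · exfalso
      have : (1 : G) ∈ ⋃ m, P m := Set.mem_iUnion.2 ⟨0, h1mem⟩
      rw [h] at this
      exact this
    · exact h
  have hmono : Monotone P := by
    intro m k hmk h hh
    rw [hP] at hh ⊢
    obtain ⟨r, hr, hp⟩ := hh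
    refine ⟨r, hr.trans ?_, hp⟩
    exact mul_le_mul_of_nonneg_right (by exact_mod_cast hmk) (by positivity)
  obtain ⟨m, hm⟩ := isCompact_univ.elim_directed_cover (fun m => interior (P (m + 1)))
    (fun m => isOpen_interior) (by
      rw [← huniv]
      exact Set.iUnion_mono fun m => hint m) (by
      refine Monotone.directed_le fun m k hmk => ?_
      exact interior_mono (hmono (by omega)))
  refine ⟨((m + 1 : ℕ) : ℝ) * n, fun h => ?_⟩
  have h1 := interior_subset (hm (Set.mem_univ h))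
  rw [hP] at h1
  exact h1

end

end Pool.Agent.W504.YM
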