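import Mathlib
import Pool.Agent.W504.YM.Vb
import Pool.Agent.H906R3.YM.Approx

/-!
# Mollifiers for two functions
-/

open MeasureTheory Matrix
open scoped Matrix.Norms.Frobenius ContDiff
open Pool.Agent.H906R3.YM

namespace Pool.Agent.W504.YM

set_option linter.unusedSectionVars false

noncomputable section

variable {G : Type*} [Group G] [TopologicalSpace G] {N n : ℕ} {L : LD G N n}
variable {E : Type*} [Fintype E] [DecidableEq E]
variable [IsTopologicalGroup G] [CompactSpace G] [SecondCountableTopology G]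
  [MeasurableSpace G] [BorelSpace G] (μ : Measure G) [IsProbabilityMeasure μ]
  [μ.IsMulLeftInvariant] [μ.IsOpenPosMeasure]

theorem exists_moll2 (hN : 0 < N) (u v : Sm L E) {τ : ℝ} (hτ : 0 < τ) :
    ∃ M : Moll L E μ, (∀ U, |L.ev U (M.M u) - L.ev U u| ≤ τ) ∧
      ∀ U, |L.ev U (M.M v) - L.ev U v| ≤ τ := by
  -- uniform continuity
  have hcont1 : Continuous fun x : (E → G) × (E → G) => |u.1 (x.1 * x.2) - u.1 x.1| +
      |v.1 (x.1 * x.2) - v.1 x.1| :=
    (((Sm_cont u).comp (continuous_fst.mul continuous_snd)).sub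
      ((Sm_cont u).comp continuous_fst)).abs.add
    (((Sm_cont v).comp (continuous_fst.mul continuous_snd)).sub
      ((Sm_cont v).comp continuous_fst)).abs
  have hcont2 : Continuous fun x : (E → G) × (E → G) => 1 - xi L x.2 :=
    continuous_const.sub (xi_cont.comp continuous_snd)
  obtain ⟨C, hC0, hC⟩ := soft_gen hcont1 hcont2 (fun x => by
    have := xi_le_one (L := L) hN x.2; linarith) (fun x hx => by
      have h1 : xi L x.2 = 1 := by linarith
      have h2 : L.mat (x.1 * x.2) = L.mat x.1 := by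
        funext e
        show L.rho (x.1 e * x.2 e) = L.rho (x.1 e)
        rw [map_mul, xi_eq_one hN h1 e, mul_one]
      obtain ⟨F, f, hf, h⟩ := u
      obtain ⟨F', f', hf', h'⟩ := v
      show |F (x.1 * x.2) - F x.1| + |F' (x.1 * x.2) - F' x.1| ≤ 0
      rw [h, h, h', h', h2, sub_self, abs_zero, sub_self, abs_zero, add_zero]) (half_pos hτ)
  obtain ⟨k, hk⟩ := conc (ME μ E) xi_cont (xi_nonneg (L := L) hN) (xi_le_one hN) xi_one
    (show 0 < τ / (2 * (C + 1)) by positivity)
  set c := ∫ Z, xi L Z ^ k ∂(ME μ E) with hc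
  have hc0 : 0 < c := xi_int_pos μ hN k
  obtain ⟨ι, hι, p, q, hpq⟩ := FR_xi (L := L) (E := E) hN c⁻¹ k
  set ker : (E → G) → Sm L E := fun U => ∑ i, L.ev U (p i) • q i with hker
  have hkerev : ∀ U W, L.ev W (ker U) = c⁻¹ * xi L (U⁻¹ * W) ^ k := by
    intro U W
    have h := hpq U W
    dsimp only at h
    rw [h, hker]
    dsimp only
    rw [map_sum]
    exact Finset.sum_congr rfl fun i _ => by rw [map_smul, smul_eq_mul]
  have hsymker : ∀ U W, L.ev W (ker U) = L.ev U (ker W) := fun U W => by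
    rw [hkerev, hkerev, xi_symm]
  have hker1 : ∀ U, L.I μ (ker U) = 1 := by
    intro U
    rw [I_apply]
    have h1 : ∀ W, (ker U).1 W = c⁻¹ * xi L (U⁻¹ * W) ^ k := fun W => hkerev U W
    simp only [h1]
    rw [integral_const_mul, integral_left μ (fun Z => xi L Z ^ k) U, ← hc]
    exact inv_mul_cancel₀ hc0.ne'
  set Mf : Sm L E →ₗ[ℝ] Sm L E :=
    ∑ i, ((L.I μ).comp (LinearMap.mulLeft ℝ (q i))).smulRight (p i) with hMf
  have hMfa : ∀ v, Mf v = ∑ i, (L.I μ (q i * v)) • p i := by
    intro v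
    rw [hMf, LinearMap.sum_apply]
    rfl
  have hMev : ∀ U v, L.ev U (Mf v) = L.I μ (ker U * v) := by
    intro U v
    rw [hMfa, map_sum, hker]
    dsimp only
    rw [Finset.sum_mul, map_sum]
    refine Finset.sum_congr rfl fun i _ => ?_
    rw [map_smul, smul_mul_assoc, map_smul, smul_eq_mul, smul_eq_mul, mul_comm]
  have hM2 : ∀ v, Mf v = ∑ i, (L.I μ (p i * v)) • q i := by
    intro v
    refine ev_ext fun W => ?_
    rw [hMev]
    have h1 : ker W = ∑ i, L.ev W (q i) • p i := by
      refine ev_ext fun U => ?_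
      rw [← hsymker U W, hker, map_sum, map_sum]
      refine Finset.sum_congr rfl fun i _ => ?_
      rw [map_smul, map_smul, smul_eq_mul, smul_eq_mul, mul_comm]
    rw [h1, Finset.sum_mul, map_sum, map_sum]
    refine Finset.sum_congr rfl fun i _ => ?_
    rw [map_smul, smul_mul_assoc, map_smul, smul_eq_mul, smul_eq_mul, mul_comm]
  have hsymm : ∀ u v, L.I μ (Mf u * v) = L.I μ (u * Mf v) := by
    intro u v
    rw [hMfa u, hM2 v, Finset.sum_mul, Finset.mul_sum, map_sum, map_sum]
    refine Finset.sum_congr rfl fun i _ => ?_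
    rw [smul_mul_assoc, mul_smul_comm, map_smul, map_smul, smul_eq_mul, smul_eq_mul,
      mul_comm u (q i), mul_comm]
  have hone : Mf 1 = 1 := by
    refine ev_ext fun U => ?_
    rw [hMev, mul_one, hker1, map_one]
  have hcomm : ∀ j v, L.Dv j (Mf v) = Mf (L.Dv j v) := by
    intro j v
    refine ev_ext fun U => ?_
    rw [hMev]
    have h1 : ∑ i, L.ev U (L.Dv j (p i)) • q i = -L.Dv j (ker U) := by
      refine ev_ext fun W => ?_
      have d1 : HasDerivAt (fun t => ∑ i, (p i).1 (L.shift j.1 j.2 t U) * (q i).1 W)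
          (∑ i, (L.Dv j (p i)).1 U * (q i).1 W) 0 := by
        refine HasDerivAt.fun_sum fun i _ => ?_
        have := hasDerivAt_dF (p i).2 j.1 j.2 U 0
        rw [L.shift_zero] at this
        exact this.mul_const _
      have d2 : HasDerivAt (fun t => (ker U).1 (L.shift j.1 j.2 t W)) ((L.Dv j (ker U)).1 W) 0 := by
        have := hasDerivAt_dF (ker U).2 j.1 j.2 W 0
        rw [L.shift_zero] at this
        exact this
      have d2' : HasDerivAt (fun t => (ker U).1 (L.shift j.1 j.2 t W))
          ((L.Dv j (ker U)).1 W) (-0) := by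
        rw [neg_zero]; exact d2
      have d3 := HasDerivAt.comp (0 : ℝ) d2' (hasDerivAt_neg (0 : ℝ))
      have h2 : (fun t => ∑ i, (p i).1 (L.shift j.1 j.2 t U) * (q i).1 W) =
          (fun t => (ker U).1 (L.shift j.1 j.2 t W)) ∘ fun t => -t := by
        funext t
        have e1 : ∑ i, (p i).1 (L.shift j.1 j.2 t U) * (q i).1 W =
            c⁻¹ * xi L ((L.shift j.1 j.2 t U)⁻¹ * W) ^ k := (hpq _ _).symm
        have e2 : (ker U).1 (L.shift j.1 j.2 (-t) W) =
            c⁻¹ * xi L (U⁻¹ * L.shift j.1 j.2 (-t) W) ^ k := hkerev _ _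
        rw [e1, shift_kernel]
        exact e2.symm
      rw [h2] at d1
      have h3 := d1.unique d3
      rw [map_sum, map_neg]
      have h4 : ∑ i, L.ev W (L.ev U (L.Dv j (p i)) • q i) =
          ∑ i, (L.Dv j (p i)).1 U * (q i).1 W :=
        Finset.sum_congr rfl fun i _ => by rw [map_smul, smul_eq_mul]; rfl
      rw [h4, h3]
      have h5 : L.ev W (L.Dv j (ker U)) = (L.Dv j (ker U)).1 W := rfl
      rw [h5]; ring
    have h6 := Pool.Agent.H906R3.YM.I_D (D := L.Dv (E := E)) (L.I μ) (I_D_zero μ) j (ker U) v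
    have e8 : (-L.Dv j (ker U)) * v = -(L.Dv j (ker U) * v) := ev_ext fun W => by
      rw [map_mul, map_neg, map_neg, map_mul]; ring
    have h7 : L.I μ (ker U * L.Dv j v) = L.I μ ((-L.Dv j (ker U)) * v) := by
      rw [e8, map_neg, h6, neg_neg]
    rw [h7, ← h1, hMfa, map_sum, map_sum, Finset.sum_mul, map_sum]
    refine Finset.sum_congr rfl fun i _ => ?_
    rw [Derivation.map_smul, map_smul, smul_mul_assoc, map_smul, smul_eq_mul, smul_eq_mul,
      mul_comm]
  have happ : ∀ z : Sm L E, (∀ U W, |z.1 (U * W) - z.1 U| ≤ τ / 2 + C * (1 - xi L W)) →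
      ∀ U, |L.ev U (Mf z) - L.ev U z| ≤ τ := by
    intro u hC U
    have h1 : L.ev U (Mf u) - L.ev U u =
        ∫ W, L.ev W (ker U) * (L.ev W u - L.ev U u) ∂(ME μ E) := by
      have h2 : L.I μ (ker U * (u - L.ev U u • 1)) = L.ev U (Mf u) - L.ev U u := by
        rw [mul_sub, map_sub, ← hMev, mul_smul_comm, mul_one, map_smul, hker1, smul_eq_mul,
          mul_one]
      rw [← h2, I_apply]
      refine integral_congr_ae (Filter.Eventually.of_forall fun W => ?_)
      show (ker U).1 W * (u.1 W - (L.ev U u) * 1) = (ker U).1 W * (u.1 W - L.ev U u)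
      rw [mul_one]
    rw [h1]
    refine (abs_integral_le_integral_abs).trans ?_
    have h3 : ∫ W, |L.ev W (ker U) * (L.ev W u - L.ev U u)| ∂(ME μ E) ≤
        ∫ W, (fun Z => c⁻¹ * xi L Z ^ k * (τ / 2 + C * (1 - xi L Z))) (U⁻¹ * W) ∂(ME μ E) := by
      refine integral_mono (integrable_cont μ ?_) (integrable_cont μ ?_) fun W => ?_
      · exact ((Sm_cont (ker U)).mul ((Sm_cont u).sub continuous_const)).abs
      · have hm : Continuous fun W : E → G => U⁻¹ * W := continuous_const.mul continuous_id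
        exact ((continuous_const.mul (xi_cont.pow k)).mul (continuous_const.add
          (continuous_const.mul (continuous_const.sub xi_cont)))).comp hm
      · dsimp only
        rw [abs_mul, hkerev, abs_of_nonneg (mul_nonneg (inv_nonneg.2 hc0.le)
          (pow_nonneg (xi_nonneg hN _) _))]
        refine mul_le_mul_of_nonneg_left ?_ (mul_nonneg (inv_nonneg.2 hc0.le)
          (pow_nonneg (xi_nonneg hN _) _))
        have h4 := hC U (U⁻¹ * W)
        rw [mul_inv_cancel_left] at h4
        exact h4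
    refine h3.trans ?_
    rw [integral_left μ (fun Z => c⁻¹ * xi L Z ^ k * (τ / 2 + C * (1 - xi L Z))) U]
    have h4 : ∫ Z, c⁻¹ * xi L Z ^ k * (τ / 2 + C * (1 - xi L Z)) ∂(ME μ E) =
        τ / 2 + C * c⁻¹ * ∫ Z, (1 - xi L Z) * xi L Z ^ k ∂(ME μ E) := by
      have h5 : ∀ Z : E → G, c⁻¹ * xi L Z ^ k * (τ / 2 + C * (1 - xi L Z)) =
          (τ / 2 * c⁻¹) * xi L Z ^ k + (C * c⁻¹) * ((1 - xi L Z) * xi L Z ^ k) := by
        intro Z; ring
      simp only [h5]
      rw [integral_add, integral_const_mul, integral_const_mul, ← hc]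
      · have : τ / 2 * c⁻¹ * c = τ / 2 := by field_simp
        rw [this]
      · exact (integrable_cont μ (xi_cont.pow k)).const_mul _
      · exact (integrable_cont μ ((continuous_const.sub xi_cont).mul
          (xi_cont.pow k))).const_mul _
    rw [h4]
    have h6 : C * c⁻¹ * ∫ Z, (1 - xi L Z) * xi L Z ^ k ∂(ME μ E) ≤
        C * c⁻¹ * (τ / (2 * (C + 1)) * c) := mul_le_mul_of_nonneg_left hk (by positivity)
    have h7 : C * c⁻¹ * (τ / (2 * (C + 1)) * c) ≤ τ / 2 := by
      have h8 : C * c⁻¹ * (τ / (2 * (C + 1)) * c) = C / (C + 1) * (τ / 2) := by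
        field_simp
      rw [h8]
      refine mul_le_of_le_one_left (by positivity) ?_
      rw [div_le_one (by positivity)]; linarith
    linarith
  refine ⟨{ M := Mf, ker := ker, eq := fun U v => hMev U v, pos := fun U W => ?_, one := hone,
            symm := fun u v => hsymm u v, comm := hcomm,
            fin := ⟨ι, hι, q, p, fun v => hMfa v⟩, conj := ?_ }, fun U => ?_, fun U => ?_⟩
  · rw [hkerev]
    exact mul_nonneg (inv_nonneg.2 hc0.le) (pow_nonneg (xi_nonneg hN _) _)
  · intro f hf U W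
    rw [hkerev, hkerev]
    congr 2
    unfold xi
    refine Finset.prod_congr rfl fun e _ => ?_
    show zet L ((f e (U e))⁻¹ * f e (W e)) = zet L ((U e)⁻¹ * W e)
    unfold zet
    rw [hf]
  · refine happ u (fun U W => ?_) U
    have h1 := hC (U, W)
    dsimp only at h1
    have h2 := abs_nonneg (v.1 (U * W) - v.1 U)
    linarith
  · refine happ v (fun U W => ?_) U
    have h1 := hC (U, W)
    dsimp only at h1
    have h2 := abs_nonneg (u.1 (U * W) - u.1 U)
    linarith

end

end Pool.Agent.W504.YM
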