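import Mathlib
import Pool.Agent.W504.YM.Moll2
import Pool.Agent.W504.YM.Osc

/-!
# Representative functions; the gap on the torus
-/

open MeasureTheory Matrix Set Filter Topology
open scoped Matrix.Norms.Frobenius ContDiff
open Pool.Agent.H906R3.YM

namespace Pool.Agent.W504.YM

set_option linter.unusedSectionVars false
set_option linter.unusedVariables false

noncomputable section

variable {G : Type*} [Group G] [TopologicalSpace G] {N n : ℕ} {L : LD G N n}
  {E : Type*} [Fintype E] [DecidableEq E]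
  [IsTopologicalGroup G] [CompactSpace G] [SecondCountableTopology G]
  [MeasurableSpace G] [BorelSpace G] (μ : Measure G) [IsProbabilityMeasure μ]
  [μ.IsMulLeftInvariant] [μ.IsOpenPosMeasure]
  {K : ℝ} (hK : 0 < K) (hc : Curv L K)

/-- matrix functions with representative entries -/
def RepM (F : (E → G) → Mat N) : Prop :=
  ∀ c, ∃ f : Sm L E, (geo μ L E hK hc).Rep f ∧ ∀ U, L.ev U f = co c (F U)

variable {μ hK hc}

lemma co_mul_false (i j : Fin N) (A B : Mat N) : co (i, j, false) (A * B) =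
    ∑ k, (co (i, k, true) A * co (k, j, false) B + co (i, k, false) A * co (k, j, true) B) := by
  have h1 : co (i, j, false) (A * B) = ((A * B) i j).im := rfl
  rw [h1, Matrix.mul_apply, Complex.im_sum]
  refine Finset.sum_congr rfl fun k _ => ?_
  rw [Complex.mul_im]
  rfl

lemma co_mul_true (i j : Fin N) (A B : Mat N) : co (i, j, true) (A * B) =
    ∑ k, (co (i, k, true) A * co (k, j, true) B +
      -1 * (co (i, k, false) A * co (k, j, false) B)) := by
  have h1 : co (i, j, true) (A * B) = ((A * B) i j).re := rfl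
  rw [h1, Matrix.mul_apply, Complex.re_sum]
  refine Finset.sum_congr rfl fun k _ => ?_
  have h2 : co (i, k, true) A * co (k, j, true) B +
      -1 * (co (i, k, false) A * co (k, j, false) B) =
      (A i k).re * (B k j).re + -1 * ((A i k).im * (B k j).im) := rfl
  rw [h2, Complex.mul_re]
  ring

lemma co_ct_true (i j : Fin N) (A : Mat N) : co (i, j, true) Aᴴ = co (j, i, true) A := by
  have h1 : co (i, j, true) Aᴴ = (Aᴴ i j).re := rfl
  have h2 : co (j, i, true) A = (A j i).re := rfl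
  rw [h1, h2, conjTranspose_apply]
  simp

lemma co_ct_false (i j : Fin N) (A : Mat N) :
    co (i, j, false) Aᴴ = -1 * co (j, i, false) A := by
  have h1 : co (i, j, false) Aᴴ = (Aᴴ i j).im := rfl
  have h2 : co (j, i, false) A = (A j i).im := rfl
  rw [h1, h2, conjTranspose_apply]
  simp

lemma RepM.mul {F H : (E → G) → Mat N} (hF : RepM μ hK hc F) (hH : RepM μ hK hc H) :
    RepM μ hK hc fun U => F U * H U := by
  rintro ⟨i, j, b⟩
  choose f hf hf' using hF
  choose h hh hh' using hH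
  cases b
  · refine ⟨∑ k, (f (i, k, true) * h (k, j, false) + f (i, k, false) * h (k, j, true)),
      Geo.Rep.sum _ fun k _ => ((hf _).mul (hh _)).add ((hf _).mul (hh _)), fun U => ?_⟩
    rw [map_sum, co_mul_false]
    refine Finset.sum_congr rfl fun k _ => ?_
    rw [map_add, map_mul, map_mul, hf', hf', hh', hh']
  · refine ⟨∑ k, (f (i, k, true) * h (k, j, true) + (-1 : ℝ) • (f (i, k, false) *
      h (k, j, false))), Geo.Rep.sum _ fun k _ => ((hf _).mul (hh _)).add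
      (((hf _).mul (hh _)).smul _), fun U => ?_⟩
    rw [map_sum, co_mul_true]
    refine Finset.sum_congr rfl fun k _ => ?_
    rw [map_add, map_smul, map_mul, map_mul, hf', hf', hh', hh', smul_eq_mul]

lemma RepM.ct {F : (E → G) → Mat N} (hF : RepM μ hK hc F) :
    RepM μ hK hc fun U => (F U)ᴴ := by
  rintro ⟨i, j, b⟩
  cases b
  · obtain ⟨f, hf, hf'⟩ := hF (j, i, false)
    refine ⟨(-1 : ℝ) • f, hf.smul _, fun U => ?_⟩
    rw [map_smul, hf', co_ct_false, smul_eq_mul]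
  · obtain ⟨f, hf, hf'⟩ := hF (j, i, true)
    exact ⟨f, hf, fun U => by rw [hf', co_ct_true]⟩

/-- linear functionals of one link -/
def lk (L : LD G N n) (e : E) : Module.Dual ℝ (Mat N) →ₗ[ℝ] Sm L E where
  toFun ℓ := lin (LinearMap.toContinuousLinearMap ℓ) _ (SmM.link e)
  map_add' ℓ ℓ' := ev_ext fun U => rfl
  map_smul' c ℓ := ev_ext fun U => rfl

lemma Dv_lk (e : E) (ℓ : Module.Dual ℝ (Mat N)) (j : E × Fin n) :
    L.Dv j (lk L e ℓ) = if j.1 = e then lk L e (ℓ ∘ₗ LinearMap.mulLeft ℝ (L.X j.2)) else 0 := by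
  refine ev_ext fun U => ?_
  have h1 := hasDerivAt_pi.1 (L.hasDerivAt_mat j.1 j.2 U) e
  have h2 := Dv_lin (LinearMap.toContinuousLinearMap ℓ) _ (SmM.link (L := L) e) j U h1
  have h3 : L.ev U (L.Dv j (lk L e ℓ)) = ℓ (L.vf j.1 j.2 (L.mat U) e) := h2
  rw [h3]
  unfold LD.vf
  by_cases h : j.1 = e
  · subst h
    rw [Pi.single_eq_same, if_pos rfl]
    rfl
  · rw [Pi.single_eq_of_ne (Ne.symm h), if_neg h, map_zero, map_zero]

lemma RepM.link (e : E) : RepM μ hK hc fun U : E → G => L.rho (U e) := by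
  intro c
  refine ⟨lk L e (co c).toLinearMap, ⟨LinearMap.range (lk L e), ?_, ⟨_, rfl⟩, ?_⟩, fun U => rfl⟩
  · have : Module.Finite ℝ (LinearMap.range (lk L e)) := Module.Finite.range _
    exact Module.Finite.iff_fg.1 this
  · rintro j g ⟨ℓ, rfl⟩
    show L.Dv j (lk L e ℓ) ∈ _
    rw [Dv_lk]
    split_ifs
    · exact ⟨_, rfl⟩
    · exact Submodule.zero_mem _

variable {D l : ℕ} [NeZero l]

lemma Rep_VT : (geo μ L (Ed D l) hK hc).Rep (VT L D l) := by
  unfold VT
  refine Geo.Rep.sum _ fun p _ => ?_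
  have h1 : RepM μ hK hc fun U : Ed D l → G =>
      L.rho (plqT U p.1.1 p.1.2.1 p.1.2.2) := by
    have h2 := ((((RepM.link (μ := μ) (hK := hK) (hc := hc) (p.1.1, p.1.2.1)).mul
      (RepM.link (p.1.1 + eT p.1.2.1, p.1.2.2))).mul
      (RepM.link (p.1.1 + eT p.1.2.2, p.1.2.1)).ct).mul
      (RepM.link (p.1.1, p.1.2.2)).ct)
    have h3 : (fun U : Ed D l → G => L.rho (plqT U p.1.1 p.1.2.1 p.1.2.2)) =
        fun U => L.rho (U (p.1.1, p.1.2.1)) * L.rho (U (p.1.1 + eT p.1.2.1, p.1.2.2)) *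
          (L.rho (U (p.1.1 + eT p.1.2.2, p.1.2.1)))ᴴ * (L.rho (U (p.1.1, p.1.2.2)))ᴴ := by
      funext U
      unfold plqT
      rw [map_mul, map_mul, map_mul, L.rho_inv, L.rho_inv]
    rw [h3]
    exact h2
  choose f hf hf' using h1
  obtain ⟨c0, hc0⟩ : ∃ c0 : ℝ, c0 = ip (1 : Mat N) 1 := ⟨_, rfl⟩
  have h4 : lin (ip 1) _ (SmM_plqT (L := L) p.1.1 p.1.2.1 p.1.2.2) =
      c0 • (1 : Sm L (Ed D l)) + ∑ c, (-co c (1 : Mat N)) • f c := by
    refine ev_ext fun U => ?_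
    rw [map_add, map_smul, map_one, map_sum]
    have h5 : L.ev U (lin (ip 1) _ (SmM_plqT (L := L) p.1.1 p.1.2.1 p.1.2.2)) =
        c0 - ip 1 (L.rho (plqT U p.1.1 p.1.2.1 p.1.2.2)) := by
      rw [hc0]
      show ip (1 : Mat N) (1 - _) = _
      rw [map_sub]
    rw [h5, ip_sum_co 1 (L.rho (plqT U p.1.1 p.1.2.1 p.1.2.2)), smul_eq_mul, mul_one,
      sub_eq_add_neg, ← Finset.sum_neg_distrib]
    congr 1
    refine Finset.sum_congr rfl fun c _ => ?_
    rw [map_smul, hf', smul_eq_mul]; ring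
  rw [h4]
  exact (Geo.Rep.one.smul _).add (Geo.Rep.sum _ fun c _ => (hf c).smul _)

lemma Rep_Moll (M : Moll L E μ) (u : Sm L E) : (geo μ L E hK hc).Rep (M.M u) := by
  refine ⟨LinearMap.range M.M, ?_, ⟨u, rfl⟩, ?_⟩
  · obtain ⟨ι, _, q, p, hqp⟩ := M.fin
    have h1 : LinearMap.range M.M ≤ Submodule.span ℝ (Set.range p) := by
      rintro _ ⟨v, rfl⟩
      rw [hqp]
      exact Submodule.sum_mem _ fun i _ => Submodule.smul_mem _ _ (Submodule.subset_span ⟨i, rfl⟩)
    have h2 : (Submodule.span ℝ (Set.range p)).FG := Submodule.fg_span (Set.finite_range p)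
    have h3 : FiniteDimensional ℝ (Submodule.span ℝ (Set.range p)) := Module.Finite.iff_fg.2 h2
    have h4 : FiniteDimensional ℝ (LinearMap.range M.M) := Submodule.finiteDimensional_of_le h1
    exact Module.Finite.iff_fg.1 h4
  · rintro j _ ⟨v, rfl⟩
    exact ⟨L.Dv j v, (M.comm j v).symm⟩

lemma Inv_P {f : Sm L (Ed D l)} (hf : (geo μ L (Ed D l) hK hc).Rep f) (hi : Inv f) {s : ℝ}
    (hs : 0 ≤ s) : Inv ((geo μ L (Ed D l) hK hc).P s f) := by
  intro γ
  have h1 : (geo μ L (Ed D l) hK hc).Heat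
      fun s => gs γ ((geo μ L (Ed D l) hK hc).P s f) := by
    have h2 := FC.map (Geo.P_heat hf) (gs (L := L) γ).toLinearMap
    unfold Geo.Heat
    have h3 : ∀ s, Lap (geo μ L (Ed D l) hK hc).D (gs γ ((geo μ L (Ed D l) hK hc).P s f)) =
        gs γ (Lap (geo μ L (Ed D l) hK hc).D ((geo μ L (Ed D l) hK hc).P s f)) :=
      fun s => Lap_gs γ _
    simp only [h3]
    exact h2
  exact h1.unique (Geo.P_heat hf) (by rw [Geo.P_zero hf, hi]) hs

/-! ### the gap on the torus -/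

/-- the energy form -/
def en (μ : Measure G) [IsProbabilityMeasure μ] (g : ℝ) (f : Sm L (Ed D l)) : ℝ :=
  g ^ 2 / 2 * L.I μ (Gam L.Dv f f) + 1 / g ^ 2 * L.I μ (VT L D l * (f * f))

lemma we_bound (U : Ed D l → G) : 0 ≤ L.ev U (VT L D l) := by
  rw [VT_apply]
  exact Finset.sum_nonneg fun _ _ => we_nonneg _

/-- the gap for two functions -/
theorem torus_gap (hK : 0 < K) (hc : Curv L K) {r : ℝ} (hr : Cn L r) (hD : 1 ≤ D) {g : ℝ} (hg : 0 < g) (hN : 0 < N)
    {Y0 : ℝ} (hY0 : 0 < Y0) (hY : 2 * Y0 ^ 2 - K * Y0 + 16 * ((D : ℝ) - 1) / g ^ 4 < 0)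
    {E0 : ℝ} (hE0 : 0 ≤ E0)
    (hE : ∀ f : Sm L (Ed D l), Inv f → E0 * L.I μ (f * f) ≤ en μ g f)
    {Ψ Φ : Sm L (Ed D l)} (h11 : L.I μ (Ψ * Ψ) = 1) (h22 : L.I μ (Φ * Φ) = 1)
    (h12 : L.I μ (Ψ * Φ) = 0) {E : ℝ}
    (hE2 : ∀ a b : ℝ, a ^ 2 + b ^ 2 = 1 → en μ g (a • Ψ + b • Φ) ≤ E) :
    E0 + g ^ 2 / 2 * (K - 2 * Y0) ≤ E := by
  have hD' : (0 : ℝ) ≤ D - 1 := by
    have : (1 : ℝ) ≤ D := by exact_mod_cast hD
    linarith
  have hg2 : 0 < g ^ 2 := by positivity
  have hg4 : 0 < g ^ 4 := by positivity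
  obtain ⟨S, hS⟩ : ∃ S, S = geo μ L (Ed D l) hK hc := ⟨_, rfl⟩
  have hSD : S.D = L.Dv := by rw [hS]; rfl
  have hSI : S.I = L.I μ := by rw [hS]; rfl
  have hSK : S.K = K := by rw [hS]; rfl
  have hSG : ∀ f, S.G2 f = Gam L.Dv f f := by intro f; rw [hS]; rfl
  have hSev : ∀ x, S.ev x = L.ev x := by intro x; rw [hS]; rfl
  obtain ⟨V, hV⟩ : ∃ V : Sm L (Ed D l), V = (2 / g ^ 4) • VT L D l := ⟨_, rfl⟩
  have hVrep : S.Rep V := by rw [hV, hS]; exact Rep_VT.smul _
  have hV0 : ∀ x, 0 ≤ S.ev x V := by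
    intro x
    rw [hSev, hV, map_smul, smul_eq_mul]
    exact mul_nonneg (by positivity) (we_bound x)
  have hen : ∀ f, en μ g f = g ^ 2 / 2 * (S.I (S.G2 f) + S.I (V * (f * f))) := by
    intro f
    unfold en
    rw [hSG, hSI, hV, smul_mul_assoc, map_smul, smul_eq_mul]
    field_simp
  obtain ⟨B, hB⟩ : ∃ B, B = 16 * ((D : ℝ) - 1) / g ^ 4 := ⟨_, rfl⟩
  have hB0 : 0 ≤ B := by rw [hB]; positivity
  have hBb : ∀ x (η : Ed D l × Fin n → ℝ), ∑ k, η k ^ 2 = 1 →
      S.ev x (S.G2 (S.Rη η V)) ≤ B ^ 2 := by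
    intro x η hη
    have h1 : S.Rη η V = (2 / g ^ 4) • ∑ k, η k • Rv L k (VT L D l) := by
      rw [hS, hV]
      unfold Geo.Rη
      rw [Finset.smul_sum]
      refine Finset.sum_congr rfl fun k _ => ?_
      rw [Derivation.map_smul, smul_comm]
      rfl
    have h2 := VT_bound (L := L) η hD x
    rw [hη, mul_one] at h2
    rw [h1, Geo.G2_smul, map_smul, smul_eq_mul, hSG, hSev]
    have h3 : L.ev x (Gam L.Dv (∑ k, η k • Rv L k (VT L D l))
        (∑ k, η k • Rv L k (VT L D l))) =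
        ∑ j, L.ev x (L.Dv j (∑ k, η k • Rv L k (VT L D l))) ^ 2 := by
      unfold Gam
      rw [map_sum]
      exact Finset.sum_congr rfl fun j _ => by rw [map_mul, sq]
    rw [h3]
    calc (2 / g ^ 4) ^ 2 * ∑ j, L.ev x (L.Dv j (∑ k, η k • Rv L k (VT L D l))) ^ 2
        ≤ (2 / g ^ 4) ^ 2 * (8 * ((D : ℝ) - 1)) ^ 2 :=
          mul_le_mul_of_nonneg_left h2 (sq_nonneg _)
      _ = B ^ 2 := by rw [hB]; ring
  have hosc : ∀ f c, 0 ≤ c → (∀ x, S.ev x (S.G2 f) ≤ c ^ 2) → ∀ x y,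
      S.ev x f - S.ev y f ≤ (Fintype.card (Ed D l) * r) * c := by
    intro f c hc0 hf x y
    rw [hSev, hSev]
    exact osc_all hr f hc0 (fun z => by have := hf z; rwa [hSG, hSev] at this) x y
  have hE0' : 0 ≤ 2 / g ^ 2 * E0 := by positivity
  -- the abstract theorem for mollified functions
  have key : ∀ δ : ℝ, 0 < δ → δ ≤ 1 / 2 → ∀ Vm : ℝ, 0 ≤ Vm → (∀ x, S.ev x V ≤ Vm) →
      (2 / g ^ 2 * E0 + (K - 2 * Y0)) * (1 - δ) ≤ 2 / g ^ 2 * E + Vm * δ := by
    intro δ hδ hδ2 Vm hVm0 hVm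
    obtain ⟨C1, hC10, hC1⟩ := Geo.exists_bound (S := S) Ψ
    obtain ⟨C2, hC20, hC2⟩ := Geo.exists_bound (S := S) Φ
    obtain ⟨τ, hτ⟩ : ∃ τ, τ = δ / (2 * (2 * (C1 + C2) + 2)) := ⟨_, rfl⟩
    have hτ0 : 0 < τ := by rw [hτ]; positivity
    have hτ1 : τ * (2 * (2 * (C1 + C2) + 2)) = δ := by
      rw [hτ]; exact div_mul_cancel₀ _ (by positivity)
    have hτ2 : τ ≤ 1 := by nlinarith
    obtain ⟨M, hM1, hM2⟩ := exists_moll2 μ hN Ψ Φ hτ0
    obtain ⟨F1, hF1⟩ : ∃ F1, F1 = M.M Ψ := ⟨_, rfl⟩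
    obtain ⟨F2, hF2⟩ : ∃ F2, F2 = M.M Φ := ⟨_, rfl⟩
    have hF1r : S.Rep F1 := by rw [hS, hF1]; exact Rep_Moll M Ψ
    have hF2r : S.Rep F2 := by rw [hS, hF2]; exact Rep_Moll M Φ
    have hcomb : ∀ a b : ℝ, a ^ 2 + b ^ 2 = 1 →
        (∀ x, |S.ev x ((a • F1 + b • F2) * (a • F1 + b • F2)) -
          S.ev x ((a • Ψ + b • Φ) * (a • Ψ + b • Φ))| ≤ δ) := by
      intro a b hab x
      have ha : |a| ≤ 1 := (sq_le_one_iff_abs_le_one _).1 (by nlinarith [sq_nonneg b])
      have hb : |b| ≤ 1 := (sq_le_one_iff_abs_le_one _).1 (by nlinarith [sq_nonneg a])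
      simp only [map_mul, map_add, map_smul, smul_eq_mul, hSev]
      have e1 := hM1 x
      have e2 := hM2 x
      have e3 := hC1 x
      have e4 := hC2 x
      rw [hSev] at e3 e4
      rw [← hF1] at e1
      rw [← hF2] at e2
      obtain ⟨p, hp⟩ : ∃ p, p = L.ev x F1 := ⟨_, rfl⟩
      obtain ⟨q, hq⟩ : ∃ q, q = L.ev x F2 := ⟨_, rfl⟩
      obtain ⟨p', hp'⟩ : ∃ p, p = L.ev x Ψ := ⟨_, rfl⟩
      obtain ⟨q', hq'⟩ : ∃ q, q = L.ev x Φ := ⟨_, rfl⟩
      rw [← hp, ← hp'] at e1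
      rw [← hq, ← hq'] at e2
      rw [← hp'] at e3
      rw [← hq'] at e4
      rw [← hp, ← hq, ← hp', ← hq']
      have e5 : |(a * p + b * q) - (a * p' + b * q')| ≤ 2 * τ := by
        have : (a * p + b * q) - (a * p' + b * q') = a * (p - p') + b * (q - q') := by ring
        rw [this]
        refine (abs_add_le _ _).trans ?_
        rw [abs_mul, abs_mul]
        have h1 : |a| * |p - p'| ≤ 1 * τ := mul_le_mul ha e1 (abs_nonneg _) zero_le_one
        have h2 : |b| * |q - q'| ≤ 1 * τ := mul_le_mul hb e2 (abs_nonneg _) zero_le_one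
        linarith
      have e6 : |a * p' + b * q'| ≤ C1 + C2 := by
        refine (abs_add_le _ _).trans ?_
        rw [abs_mul, abs_mul]
        have h1 : |a| * |p'| ≤ 1 * C1 := mul_le_mul ha e3 (abs_nonneg _) zero_le_one
        have h2 : |b| * |q'| ≤ 1 * C2 := mul_le_mul hb e4 (abs_nonneg _) zero_le_one
        linarith
      have e7 : |(a * p + b * q) + (a * p' + b * q')| ≤ 2 * (C1 + C2) + 2 := by
        have : (a * p + b * q) + (a * p' + b * q') =
            ((a * p + b * q) - (a * p' + b * q')) + 2 * (a * p' + b * q') := by ring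
        rw [this]
        refine (abs_add_le _ _).trans ?_
        rw [abs_mul, abs_two]
        linarith
      have e8 : (a * p + b * q) * (a * p + b * q) - (a * p' + b * q') * (a * p' + b * q') =
          ((a * p + b * q) - (a * p' + b * q')) * ((a * p + b * q) + (a * p' + b * q')) := by ring
      rw [e8, abs_mul, ← hτ1]
      calc |a * p + b * q - (a * p' + b * q')| * |a * p + b * q + (a * p' + b * q')|
          ≤ (2 * τ) * (2 * (C1 + C2) + 2) := mul_le_mul e5 e7 (abs_nonneg _) (by positivity)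
        _ = _ := by ring
    have hnorm : ∀ a b : ℝ, a ^ 2 + b ^ 2 = 1 →
        S.I ((a • Ψ + b • Φ) * (a • Ψ + b • Φ)) = 1 := by
      intro a b hab
      have e1 : (a • Ψ + b • Φ) * (a • Ψ + b • Φ) = (a ^ 2) • (Ψ * Ψ) + (2 * (a * b)) • (Ψ * Φ) +
          (b ^ 2) • (Φ * Φ) := by
        refine ev_ext fun U => ?_
        simp only [map_mul, map_add, map_smul, smul_eq_mul]; ring
      rw [e1, hSI, map_add, map_add, map_smul, map_smul, map_smul, h11, h22, h12, smul_eq_mul,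
        smul_eq_mul, smul_eq_mul]
      linarith
    have hlow : ∀ a b : ℝ, a ^ 2 + b ^ 2 = 1 →
        1 - δ ≤ S.I ((a • F1 + b • F2) * (a • F1 + b • F2)) := by
      intro a b hab
      rw [← hnorm a b hab]
      have e1 : S.I ((a • Ψ + b • Φ) * (a • Ψ + b • Φ)) - δ =
          S.I ((a • Ψ + b • Φ) * (a • Ψ + b • Φ) - δ • 1) := by
        rw [map_sub, map_smul, S.I_one, smul_eq_mul, mul_one]
      rw [e1]
      refine S.I_mono fun x => ?_
      rw [map_sub, map_smul, map_one, smul_eq_mul, mul_one]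
      have := (abs_le.1 (hcomb a b hab x)).1
      linarith
    have hVle : ∀ a b : ℝ, a ^ 2 + b ^ 2 = 1 →
        S.I (V * ((a • F1 + b • F2) * (a • F1 + b • F2))) ≤
          S.I (V * ((a • Ψ + b • Φ) * (a • Ψ + b • Φ))) + Vm * δ := by
      intro a b hab
      have e1 : S.I (V * ((a • Ψ + b • Φ) * (a • Ψ + b • Φ))) + Vm * δ =
          S.I (V * ((a • Ψ + b • Φ) * (a • Ψ + b • Φ)) + (Vm * δ) • 1) := by
        rw [map_add, map_smul, S.I_one, smul_eq_mul, mul_one]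
      rw [e1]
      refine S.I_mono fun x => ?_
      rw [map_add, map_smul, map_one, smul_eq_mul, mul_one, map_mul (S.ev x) V,
        map_mul (S.ev x) V]
      have e2 := (abs_le.1 (hcomb a b hab x)).2
      have e3 : S.ev x V * (S.ev x ((a • F1 + b • F2) * (a • F1 + b • F2)) -
          S.ev x ((a • Ψ + b • Φ) * (a • Ψ + b • Φ))) ≤ Vm * δ :=
        (mul_le_mul_of_nonneg_left e2 (hV0 x)).trans (mul_le_mul_of_nonneg_right (hVm x) hδ.le)
      linarith
    have hGle : ∀ a b : ℝ, S.I (S.G2 (a • F1 + b • F2)) ≤ S.I (S.G2 (a • Ψ + b • Φ)) := by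
      intro a b
      have e1 : a • F1 + b • F2 = M.M (a • Ψ + b • Φ) := by
        rw [map_add, map_smul, map_smul, hF1, hF2]
      rw [e1, hSG, hSG, hSI]
      unfold Gam
      rw [map_sum, map_sum]
      refine Finset.sum_le_sum fun j _ => ?_
      rw [M.comm]
      have e2 := M.contr (L.Dv j (a • Ψ + b • Φ))
      have e3 := pow_le_pow_left₀ (nr_nonneg _) e2 2
      rw [nr_sq, nr_sq] at e3
      exact e3
    have hnum : ∀ a b : ℝ, a ^ 2 + b ^ 2 = 1 → S.I (S.G2 (a • F1 + b • F2)) +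
        S.I (V * ((a • F1 + b • F2) * (a • F1 + b • F2))) ≤ 2 / g ^ 2 * E + Vm * δ := by
      intro a b hab
      have e1 := hVle a b hab
      have e2 := hGle a b
      have e3 := hE2 a b hab
      rw [hen] at e3
      have e4 : S.I (S.G2 (a • Ψ + b • Φ)) + S.I (V * ((a • Ψ + b • Φ) * (a • Ψ + b • Φ))) ≤
          2 / g ^ 2 * E := by
        have := mul_le_mul_of_nonneg_left e3 (show 0 ≤ 2 / g ^ 2 by positivity)
        rw [← mul_assoc] at this
        have e5 : 2 / g ^ 2 * (g ^ 2 / 2) = 1 := by field_simp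
        rw [e5, one_mul] at this
        exact this
      linarith
    have hn0 : 0 ≤ 2 / g ^ 2 * E + Vm * δ := by
      have e1 := hnum 1 0 (by norm_num)
      have e2 := Geo.I_G2_nonneg (S := S) ((1 : ℝ) • F1 + (0 : ℝ) • F2)
      have e3 : 0 ≤ S.I (V * (((1 : ℝ) • F1 + (0 : ℝ) • F2) * ((1 : ℝ) • F1 + (0 : ℝ) • F2))) :=
        Geo.I_nonneg fun x => by
          rw [map_mul, map_mul]
          exact mul_nonneg (hV0 x) (mul_self_nonneg _)
      linarith
    have hfin := Geo.gap_abs (S := S) hVrep hV0 hB0 hBb hosc hY0 (by rw [hSK, hB]; exact hY)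
      (fun f => Inv f) Inv.one (fun τ f hf => by
        refine (Inv.one.sub ?_).mul hf
        refine Inv.smul τ ?_
        rw [hV]
        exact Inv.smul _ fun γ => gs_VT γ) (fun f s hs hf hi => by
          rw [hS] at hf ⊢
          exact Inv_P hf hi hs) hE0' (fun f hf hi => by
          have h1 := hE f hi
          rw [hen] at h1
          rw [hSI] at h1 ⊢
          have h2 := mul_le_mul_of_nonneg_left h1 (show 0 ≤ 2 / g ^ 2 by positivity)
          rw [← mul_assoc, ← mul_assoc] at h2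
          have e5 : 2 / g ^ 2 * (g ^ 2 / 2) = 1 := by field_simp
          rw [e5, one_mul] at h2
          exact h2) hF1r hF2r (m := 1 - δ) (E1 := (2 / g ^ 2 * E + Vm * δ) / (1 - δ))
        (by linarith) hlow (fun a b hab => by
          refine (hnum a b hab).trans ?_
          have h1 : (2 / g ^ 2 * E + Vm * δ) / (1 - δ) * (1 - δ) = 2 / g ^ 2 * E + Vm * δ :=
            div_mul_cancel₀ _ (by linarith)
          conv_lhs => rw [← h1]
          exact mul_le_mul_of_nonneg_left (hlow a b hab) (div_nonneg hn0 (by linarith)))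
    rw [hSK, le_div_iff₀ (by linarith)] at hfin
    exact hfin
  obtain ⟨Vm, hVm0, hVm⟩ := Geo.exists_bound (S := S) V
  have hVm' : ∀ x, S.ev x V ≤ Vm := fun x => (le_abs_self _).trans (hVm x)
  obtain ⟨Q, hQ⟩ : ∃ Q, Q = 2 / g ^ 2 * E0 + (K - 2 * Y0) := ⟨_, rfl⟩
  have hfinal : Q ≤ 2 / g ^ 2 * E := by
    by_contra hcon
    rw [not_le] at hcon
    obtain ⟨C', hC'⟩ : ∃ C', C' = |Q| + Vm + 1 := ⟨_, rfl⟩
    have hC'0 : 0 < C' := by rw [hC']; positivity
    obtain ⟨δ, hδ⟩ : ∃ δ, δ = min (1 / 2) ((Q - 2 / g ^ 2 * E) / (2 * C')) := ⟨_, rfl⟩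
    have hδ0 : 0 < δ := by
      rw [hδ]
      exact lt_min (by norm_num) (div_pos (by linarith) (by linarith))
    have h1 := key δ hδ0 (by rw [hδ]; exact min_le_left _ _) Vm hVm0 hVm'
    rw [← hQ] at h1
    have h2 : δ * C' ≤ (Q - 2 / g ^ 2 * E) / 2 := by
      have : δ ≤ (Q - 2 / g ^ 2 * E) / (2 * C') := by rw [hδ]; exact min_le_right _ _
      calc δ * C' ≤ (Q - 2 / g ^ 2 * E) / (2 * C') * C' :=
            mul_le_mul_of_nonneg_right this hC'0.le
        _ = _ := by field_simp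
    have h3 : Q * δ ≤ |Q| * δ := mul_le_mul_of_nonneg_right (le_abs_self Q) hδ0.le
    have h4 : δ * C' = |Q| * δ + Vm * δ + δ := by rw [hC']; ring
    linarith
  rw [hQ] at hfinal
  have h1 := mul_le_mul_of_nonneg_left hfinal (show 0 ≤ g ^ 2 / 2 by positivity)
  have h2 : g ^ 2 / 2 * (2 / g ^ 2 * E0 + (K - 2 * Y0)) = E0 + g ^ 2 / 2 * (K - 2 * Y0) := by
    field_simp
  have h3 : g ^ 2 / 2 * (2 / g ^ 2 * E) = E := by field_simp
  rw [h2, h3] at h1
  exact h1

end

end Pool.Agent.W504.YM
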