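import Mathlib
import Pool.Agent.W504.YM.Rp
import Pool.Agent.W504.YM.Cart

/-!
# The gap with the explicit constant, and the curvature condition in terms of matrices
-/

open MeasureTheory Matrix Filter Topology
open scoped Matrix.Norms.Frobenius ContDiff Real
open Pool.Agent.H906R3.YM

namespace Pool.Agent.W504.YM

set_option linter.unusedSectionVars false

noncomputable section

section curv

variable {N n : ℕ} {G : Subgroup (UN N)}

/-- The curvature condition follows from the one for commutators. -/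
lemma curv_of (B : Frame G n) {K : ℝ}
    (h : ∀ Y ∈ Submodule.span ℝ (Set.range B.X), 4 * K * ip Y Y ≤
      ∑ a, ip (B.X a * Y - Y * B.X a) (B.X a * Y - Y * B.X a)) : Curv B.toLD K := by
  intro v
  obtain ⟨Y, hY⟩ : ∃ Y : Mat N, Y = ∑ c, v c • B.X c := ⟨_, rfl⟩
  have hYs : Yᴴ = -Y := by
    rw [hY, conjTranspose_sum, ← Finset.sum_neg_distrib]
    refine Finset.sum_congr rfl fun c _ => ?_
    rw [conjTranspose_smul, B.skewX]; simp
  have hYm : Y ∈ Submodule.span ℝ (Set.range B.X) :=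
    (Submodule.mem_span_range_iff_exists_fun ℝ).2 ⟨v, hY.symm⟩
  have hYn : ip Y Y = ∑ c, v c ^ 2 := by
    rw [hY]; exact ip_comb (L := B.toLD) v
  have h1 : ∀ a b, ∑ c, B.toLD.sc a b c * v c = -ip (B.X a * Y - Y * B.X a) (B.X b) := by
    intro a b
    have e1 : ∀ c, B.toLD.sc a b c * v c =
        ip (v c • B.X c) (B.X a * B.X b - B.X b * B.X a) := by
      intro c
      rw [ip_smul_left, sc_ip]
      exact mul_comm _ _
    rw [Finset.sum_congr rfl fun c _ => e1 c, ← ip_sum_left, ← hY, ip_brk (B.skewX b)]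
    have e2 : ip (Y * B.X b - B.X b * Y) (B.X a) = ip (B.X a * Y - Y * B.X a) (B.X b) := by
      rw [ip_comm, ← neg_sub (B.X b * Y), map_neg, ip_brk hYs, neg_neg]
    rw [e2]
  have h2 : ∀ a, ∑ b, (∑ c, B.toLD.sc a b c * v c) ^ 2 =
      ip (B.X a * Y - Y * B.X a) (B.X a * Y - Y * B.X a) := by
    intro a
    have e1 : ∀ b, (∑ c, B.toLD.sc a b c * v c) ^ 2 =
        ip (B.X a * Y - Y * B.X a) (B.X b) ^ 2 := fun b => by rw [h1, neg_sq]
    rw [Finset.sum_congr rfl fun b _ => e1 b]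
    refine parseval ?_
    have e3 : B.X a * Y - Y * B.X a = ∑ c, v c • (B.X a * B.X c - B.X c * B.X a) := by
      rw [hY, Finset.mul_sum, Finset.sum_mul, ← Finset.sum_sub_distrib]
      refine Finset.sum_congr rfl fun c _ => ?_
      rw [mul_smul_comm, smul_mul_assoc, smul_sub]
    rw [e3]
    exact Submodule.sum_mem _ fun c _ => Submodule.smul_mem _ _ (B.toLD.brk_mem a c)
  rw [Finset.sum_congr rfl fun a _ => h2 a, ← hYn]
  exact h Y hYm

end curv

section gap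

variable {G : Type*} [Group G] [TopologicalSpace G] {N n : ℕ} {L : LD G N n}
  [IsTopologicalGroup G] [CompactSpace G] [SecondCountableTopology G] [MeasurableSpace G]
  [BorelSpace G] {μ : Measure G} [IsProbabilityMeasure μ] [μ.IsMulLeftInvariant]
  [μ.IsOpenPosMeasure] {D l : ℕ} [NeZero l]

/-- The gap with the explicit constant. -/
theorem torus_gap_sqrt {K : ℝ} (hK : 0 < K) (hc : Curv L K) {r : ℝ} (hr : Cn L r) (hD : 1 ≤ D)
    {g : ℝ} (hg : 0 < g) (hN : 0 < N) (hgK : 128 * ((D : ℝ) - 1) < g ^ 4 * K ^ 2)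
    {E0 : ℝ} (hE0 : 0 ≤ E0)
    (hE : ∀ f : Sm L (Ed D l), Inv f → E0 * L.I μ (f * f) ≤ en μ g f)
    {Ψ Φ : Sm L (Ed D l)} (h11 : L.I μ (Ψ * Ψ) = 1) (h22 : L.I μ (Φ * Φ) = 1)
    (h12 : L.I μ (Ψ * Φ) = 0) {E : ℝ}
    (hE2 : ∀ a b : ℝ, a ^ 2 + b ^ 2 = 1 → en μ g (a • Ψ + b • Φ) ≤ E) :
    E0 + g ^ 2 / 4 * (K + Real.sqrt (K ^ 2 - 128 * ((D : ℝ) - 1) / g ^ 4)) ≤ E := by
  have hD' : (0 : ℝ) ≤ D - 1 := by
    have : (1 : ℝ) ≤ D := by exact_mod_cast hD
    linarith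
  have hg2 : 0 < g ^ 2 := by positivity
  have hg4 : 0 < g ^ 4 := by positivity
  obtain ⟨q, hq⟩ : ∃ q, q = 128 * ((D : ℝ) - 1) / g ^ 4 := ⟨_, rfl⟩
  have hq0 : 0 ≤ q := by rw [hq]; positivity
  have hqK : q < K ^ 2 := by
    rw [hq, div_lt_iff₀ hg4]
    linarith
  rw [← hq]
  obtain ⟨t0, ht0⟩ : ∃ t0, t0 = Real.sqrt (K ^ 2 - q) := ⟨_, rfl⟩
  rw [← ht0]
  have ht00 : 0 < t0 := by rw [ht0]; exact Real.sqrt_pos.2 (by linarith)
  have ht02 : t0 ^ 2 = K ^ 2 - q := by rw [ht0]; exact Real.sq_sqrt (by linarith)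
  have ht0K : t0 ≤ K := by
    refine abs_le_of_sq_le_sq' ?_ hK.le |>.2
    rw [ht02]; linarith
  have key : ∀ t, 0 < t → t < t0 → E0 + g ^ 2 / 4 * (K + t) ≤ E := by
    intro t ht htt
    have h1 := torus_gap (μ := μ) (L := L) hK hc hr hD hg hN (Y0 := (K - t) / 4) (by linarith) (by
      have e1 : 16 * ((D : ℝ) - 1) / g ^ 4 = q / 8 := by rw [hq]; ring
      rw [e1]
      have e2 : t ^ 2 < t0 ^ 2 := by nlinarith
      nlinarith) hE0 hE h11 h22 h12 hE2
    have e3 : g ^ 2 / 2 * (K - 2 * ((K - t) / 4)) = g ^ 2 / 4 * (K + t) := by ring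
    rw [e3] at h1
    exact h1
  by_contra hcon
  rw [not_le] at hcon
  obtain ⟨d, hd⟩ : ∃ d, d = (E0 + g ^ 2 / 4 * (K + t0) - E) / (g ^ 2 / 4) := ⟨_, rfl⟩
  have hd0 : 0 < d := by rw [hd]; exact div_pos (by linarith) (by positivity)
  have hd1 : g ^ 2 / 4 * d = E0 + g ^ 2 / 4 * (K + t0) - E := by
    rw [hd]; field_simp
  have h1 := key (max (t0 / 2) (t0 - d / 2)) (lt_max_of_lt_left (by linarith))
    (max_lt (by linarith) (by linarith))
  have h2 : t0 - d / 2 ≤ max (t0 / 2) (t0 - d / 2) := le_max_right _ _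
  have h3 : g ^ 2 / 4 * (K + (t0 - d / 2)) ≤
      g ^ 2 / 4 * (K + max (t0 / 2) (t0 - d / 2)) :=
    mul_le_mul_of_nonneg_left (by linarith) (by positivity)
  have h4 : 0 < g ^ 2 / 4 * d := mul_pos (by positivity) hd0
  nlinarith

end gap

end

end Pool.Agent.W504.YM
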