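import Mathlib
import Pool.Agent.W504.YM.Gap

/-!
# Approximate ground states with the bound for the second derivatives of the logarithm
-/

open Pool.Agent.H906R3.YM Filter Topology Set MeasureTheory

namespace Pool.Agent.W504.YM

noncomputable section

variable {A : Type*} [CommRing A] [Algebra ℝ A] {J X : Type*} [Fintype J] [DecidableEq J]
    [TopologicalSpace X]

namespace Geo

variable {S : Geo A J X}

/-- the bound for the second derivatives of the logarithm along left derivatives -/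
lemma hess_le {ψ p : A} (h : ψ * p = 1) {x : X} {Y : ℝ} (hY : 0 ≤ Y)
    (hH : ∀ η : J → ℝ, ∑ k, η k ^ 2 = 1 → S.ev x (S.G2 (p * S.Rη η ψ)) ≤ Y ^ 2) (ξ : J → ℝ) :
    ∑ i, ∑ j, ξ j * ξ i * S.ev x (S.D j (p * S.D i ψ)) ≤ Y * ∑ j, ξ j ^ 2 := by
  rw [hess_eq h]
  have hH' := homog hH (S.tr x ξ)
  rw [tr_sq, ev_G2] at hH'
  have c1 := Finset.sum_mul_sq_le_sq_mul_sq Finset.univ ξ
    (fun i => S.ev x (S.D i (p * S.Rη (S.tr x ξ) ψ)))
  have hn : 0 ≤ ∑ j, ξ j ^ 2 := Finset.sum_nonneg fun j _ => sq_nonneg _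
  have c2 : (∑ i, ξ i * S.ev x (S.D i (p * S.Rη (S.tr x ξ) ψ))) ^ 2 ≤ (Y * ∑ j, ξ j ^ 2) ^ 2 := by
    refine c1.trans ?_
    calc (∑ j, ξ j ^ 2) * ∑ i, S.ev x (S.D i (p * S.Rη (S.tr x ξ) ψ)) ^ 2
        ≤ (∑ j, ξ j ^ 2) * (Y ^ 2 * ∑ j, ξ j ^ 2) := mul_le_mul_of_nonneg_left hH' hn
      _ = _ := by ring
  exact (le_abs_self _).trans (abs_le_of_sq_le_sq c2 (mul_nonneg hY hn))

/-- The bounds inside one step. -/
lemma step_bar [CompactSpace X] {w q : A} (hw : S.Rep w) (hwq : w * q = 1)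
    (hwpos : ∀ x, 0 < S.ev x w)
    {τ b b1 Y0 : ℝ} (hτ : 0 < τ) (hb1 : 0 ≤ b1) (hb : b1 < b) (hY0 : 0 < Y0)
    (hbar : ∀ s, 0 ≤ s → s ≤ τ →
      2 * (Y0 + b * (τ - s)) ^ 2 - S.K * (Y0 + b * (τ - s)) + b < 0)
    (hq : ∀ x (η : J → ℝ), ∑ k, η k ^ 2 = 1 → S.ev x (S.G2 (q * S.Rη η w)) ≤ (b1 * τ) ^ 2)
    {ψ p : A} (hψ : S.Rep ψ) (hpos : ∀ x, 0 < S.ev x ψ)
    (hp : ψ * p = 1)
    (hH : ∀ x (η : J → ℝ), ∑ k, η k ^ 2 = 1 → S.ev x (S.G2 (p * S.Rη η ψ)) ≤ Y0 ^ 2) :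
    (∀ s, 0 ≤ s → ∀ x, 0 < S.ev x (S.P s (w * ψ))) ∧
    ∀ s, 0 ≤ s → s ≤ τ → ∀ p1, S.P s (w * ψ) * p1 = 1 →
      ∀ x (η : J → ℝ), ∑ k, η k ^ 2 = 1 →
        S.ev x (S.G2 (p1 * S.Rη η (S.P s (w * ψ)))) ≤ (Y0 + b * τ) ^ 2 := by
  have hwψ : S.Rep (w * ψ) := hw.mul hψ
  have hposs : ∀ s, 0 ≤ s → ∀ x, 0 < S.ev x (S.P s (w * ψ)) := fun s hs x =>
    P_pos hwψ (fun y => by rw [map_mul]; exact mul_pos (hwpos y) (hpos y)) hs x
  have hex : ∀ s, ∃ g, 0 ≤ s → S.P s (w * ψ) * g = 1 := by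
    intro s
    by_cases hs : 0 ≤ s
    · obtain ⟨g, hg⟩ := S.inv _ (hposs s hs)
      exact ⟨g, fun _ => hg⟩
    · exact ⟨0, fun h => absurd h hs⟩
  choose pc hpc using hex
  have hpc0 : pc 0 = p * q := by
    refine inv_unique (hpc 0 le_rfl) ?_
    rw [P_zero hwψ]
    linear_combination (w * q) * hp + hwq
  have hbτ : 0 ≤ b * τ := mul_nonneg (hb1.trans hb.le) hτ.le
  have hb1τ : b1 * τ < b * τ := mul_lt_mul_of_pos_right hb hτ
  have h0 : ∀ x (η : J → ℝ), ∑ k, η k ^ 2 = 1 →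
      S.ev x (S.G2 (pc 0 * S.Rη η (S.P 0 (w * ψ)))) < (Y0 + b * τ) ^ 2 := by
    intro x η hη
    have e : pc 0 * S.Rη η (S.P 0 (w * ψ)) = p * S.Rη η ψ + q * S.Rη η w := by
      rw [P_zero hwψ, Rη_mul, hpc0]
      linear_combination (p * S.Rη η ψ) * hwq + (q * S.Rη η w) * hp
    rw [e]
    refine (G2_add_le hY0.le (mul_nonneg hb1 hτ.le) (hH x η hη) (hq x η hη)).trans_lt ?_
    have h1 : 0 ≤ b1 * τ := mul_nonneg hb1 hτ.le
    exact pow_lt_pow_left₀ (by linarith) (by linarith) two_ne_zero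
  have hbarr := hess_barrier (S := S) (P_heat hwψ) hpc (T := τ) (hb1.trans hb.le) hY0 hbar h0
  refine ⟨fun s hs x => hposs s hs x, fun s hs hsτ p1 hp1 x η hη => ?_⟩
  have hp1' : p1 = pc s := inv_unique hp1 (hpc s hs)
  have := hbarr s hs hsτ x η hη
  rw [hp1']
  refine this.le.trans ?_
  have h2 : 0 ≤ b * (τ - s) := mul_nonneg (hb1.trans hb.le) (by linarith)
  have h3 : b * (τ - s) ≤ b * τ := mul_le_mul_of_nonneg_left (by linarith) (hb1.trans hb.le)
  exact pow_le_pow_left₀ (by linarith) (by linarith) 2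

/-! ### the derivative of the integral of the logarithm -/

lemma jc_Lap {χ : ℝ → A} (h : S.Heat χ) :
    Continuous fun p : ℝ × X => S.ev p.2 (Lap S.D (χ p.1)) := by
  unfold Lap
  simp only [map_sum]
  exact continuous_finsetSum _ fun j _ => FC.jc S ((h.D j).D j)

lemma int_cont [CompactSpace X] [MeasurableSpace X] [BorelSpace X] (ν : Measure X)
    [IsProbabilityMeasure ν] {f : X → ℝ} (hf : Continuous f) : Integrable f ν := by
  obtain ⟨C, hC⟩ := (isCompact_univ.image hf.abs).bddAbove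
  exact Integrable.of_bound hf.measurable.aestronglyMeasurable C
    (Eventually.of_forall fun x => hC ⟨x, trivial, rfl⟩)

lemma dlog [CompactSpace X] [Nonempty X] [MeasurableSpace X] [BorelSpace X] (ν : Measure X)
    [IsProbabilityMeasure ν] {χ : ℝ → A} (h : S.Heat χ) (W : A) {s0 : ℝ}
    (h0 : ∀ x, 0 < S.ev x (χ s0)) :
    HasDerivAt (fun s => ∫ x, S.ev x W * Real.log (S.ev x (χ s)) ∂ν)
      (∫ x, S.ev x W * (S.ev x (Lap S.D (χ s0)) / S.ev x (χ s0)) ∂ν) s0 := by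
  obtain ⟨x1⟩ := (inferInstance : Nonempty X)
  obtain ⟨x0, -, hx0⟩ := isCompact_univ.exists_isMinOn ⟨x1, trivial⟩ (S.cont (χ s0)).continuousOn
  obtain ⟨c, hc⟩ : ∃ c, c = S.ev x0 (χ s0) / 2 := ⟨_, rfl⟩
  have hc0 : 0 < c := by rw [hc]; exact half_pos (h0 x0)
  have hcm : ∀ z, c < S.ev z (χ s0) := fun z => by
    have h1 : S.ev x0 (χ s0) ≤ S.ev z (χ s0) := hx0 (mem_univ z)
    have h2 := h0 x0
    rw [hc]
    linarith
  obtain ⟨M, hM0, hM⟩ := exists_bound (S := S) (Lap S.D (χ s0))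
  obtain ⟨CW, hCW0, hCW⟩ := exists_bound (S := S) W
  have e1 : ∀ᶠ s in 𝓝 s0, ∀ x ∈ (univ : Set X), c < S.ev x (χ s) := by
    refine isCompact_univ.eventually_forall_of_forall_eventually fun x _ => ?_
    exact (FC.jc S h).continuousAt.eventually (lt_mem_nhds (hcm x))
  have e2 : ∀ᶠ s in 𝓝 s0, ∀ x ∈ (univ : Set X), |S.ev x (Lap S.D (χ s))| < M + 1 := by
    refine isCompact_univ.eventually_forall_of_forall_eventually fun x _ => ?_
    refine (jc_Lap h).abs.continuousAt.eventually (gt_mem_nhds ?_)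
    have := hM x
    show |S.ev x (Lap S.D (χ s0))| < M + 1
    linarith
  refine (hasDerivAt_integral_of_dominated_loc_of_deriv_le (μ := ν)
    (F := fun s x => S.ev x W * Real.log (S.ev x (χ s)))
    (F' := fun s x => S.ev x W * (S.ev x (Lap S.D (χ s)) / S.ev x (χ s)))
    (bound := fun _ => CW * ((M + 1) / c)) (e1.and e2) ?_ ?_ ?_ ?_ ?_ ?_).2
  · refine Eventually.of_forall fun s => ?_
    exact ((S.cont W).measurable.mul
      (Real.measurable_log.comp (S.cont (χ s)).measurable)).aestronglyMeasurable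
  · refine int_cont ν ((S.cont W).mul ?_)
    exact Continuous.log (S.cont (χ s0)) fun x => (h0 x).ne'
  · exact ((S.cont W).measurable.mul
      ((S.cont (Lap S.D (χ s0))).measurable.div (S.cont (χ s0)).measurable)).aestronglyMeasurable
  · refine Eventually.of_forall fun x s hs => ?_
    have h1 : c < S.ev x (χ s) := hs.1 x trivial
    have h2 : |S.ev x (Lap S.D (χ s))| < M + 1 := hs.2 x trivial
    rw [Real.norm_eq_abs, abs_mul, abs_div, abs_of_pos (hc0.trans h1)]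
    refine mul_le_mul (hCW x) ?_ (div_nonneg (abs_nonneg _) (hc0.trans h1).le) hCW0
    exact div_le_div₀ (by linarith) h2.le hc0 h1.le
  · exact integrable_const _
  · refine Eventually.of_forall fun x s hs => ?_
    have h1 : c < S.ev x (χ s) := hs.1 x trivial
    have h2 : HasDerivAt (fun r => S.ev x (χ r)) (S.ev x (Lap S.D (χ s))) s :=
      FC.lin h (S.ev x).toLinearMap s
    exact (h2.log (hc0.trans h1).ne').const_mul _

/-- For every weight there is an approximate ground state with the bound for the second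
derivatives of the logarithm. -/
theorem near_abs [CompactSpace X] [Nonempty X] [MeasurableSpace X] [BorelSpace X] (ν : Measure X)
    [IsProbabilityMeasure ν] (hI : ∀ f, S.I f = ∫ x, S.ev x f ∂ν) {V : A} (hV : S.Rep V)
    (hV0 : ∀ x, 0 ≤ S.ev x V) {B : ℝ} (hB0 : 0 ≤ B)
    (hB : ∀ x (η : J → ℝ), ∑ k, η k ^ 2 = 1 → S.ev x (S.G2 (S.Rη η V)) ≤ B ^ 2) {Lo : ℝ}
    (osc : ∀ f c, 0 ≤ c → (∀ x, S.ev x (S.G2 f) ≤ c ^ 2) → ∀ x y, S.ev x f - S.ev y f ≤ Lo * c)
    {Y0 : ℝ} (hY0 : 0 < Y0) (hY : 2 * Y0 ^ 2 - S.K * Y0 + B < 0)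
    (Pr : A → Prop) (Pr1 : Pr 1) (Prw : ∀ (τ : ℝ) f, Pr f → Pr ((1 - τ • V) * f))
    (PrP : ∀ f s, 0 ≤ s → S.Rep f → Pr f → Pr (S.P s f))
    {E0 : ℝ} (hE0 : 0 ≤ E0)
    (hE : ∀ f, S.Rep f → Pr f → E0 * S.I (f * f) ≤ S.I (S.G2 f) + S.I (V * (f * f)))
    {W : A} (hW : ∀ x, 0 ≤ S.ev x W) {ε : ℝ} (hε : 0 < ε) :
    ∃ ψ p : A, ψ * p = 1 ∧ (∀ x, 0 < S.ev x ψ) ∧ S.Rep ψ ∧ Pr ψ ∧
      (∀ x (η : J → ℝ), ∑ k, η k ^ 2 = 1 → S.ev x (S.G2 (p * S.Rη η ψ)) ≤ (Y0 + ε) ^ 2) ∧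
      (E0 - ε) * S.I W ≤ S.I (W * (p * (V * ψ - Lap S.D ψ))) := by
  obtain ⟨x0⟩ := (inferInstance : Nonempty X)
  -- constants
  obtain ⟨Vm, hVm0, hVm⟩ := exists_bound (S := S) V
  obtain ⟨a2, ha20, ha2⟩ := exists_bound (S := S) (S.G2 V)
  obtain ⟨rk, hrk⟩ : ∃ rk : J → ℝ, ∀ k, 0 ≤ rk k ∧ ∀ x, |S.ev x (S.R k V)| ≤ rk k :=
    ⟨fun k => (exists_bound (S := S) (S.R k V)).choose,
      fun k => (exists_bound (S := S) (S.R k V)).choose_spec⟩
  obtain ⟨rV, hrV⟩ : ∃ rV, rV = ∑ k, rk k := ⟨_, rfl⟩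
  have hrV0 : 0 ≤ rV := by rw [hrV]; exact Finset.sum_nonneg fun k _ => (hrk k).1
  have hrVb : ∀ x (η : J → ℝ), ∑ k, η k ^ 2 = 1 → |S.ev x (S.Rη η V)| ≤ rV := by
    intro x η hη
    unfold Rη
    rw [map_sum, hrV]
    refine (Finset.abs_sum_le_sum_abs _ _).trans (Finset.sum_le_sum fun k _ => ?_)
    rw [map_smul, smul_eq_mul, abs_mul]
    have h1 : |η k| ≤ 1 := by
      have h2 : η k ^ 2 ≤ 1 := by
        rw [← hη]
        exact Finset.single_le_sum (f := fun k => η k ^ 2) (fun i _ => sq_nonneg _)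
          (Finset.mem_univ k)
      exact (sq_le_one_iff_abs_le_one _).1 h2
    calc |η k| * |S.ev x (S.R k V)| ≤ 1 * rk k :=
          mul_le_mul h1 ((hrk k).2 x) (abs_nonneg _) zero_le_one
      _ = rk k := one_mul _
  obtain ⟨aV, haV⟩ : ∃ aV, aV = Real.sqrt a2 := ⟨_, rfl⟩
  have haV0 : 0 ≤ aV := by rw [haV]; exact Real.sqrt_nonneg _
  have haVb : ∀ x, S.ev x (S.G2 V) ≤ aV ^ 2 := fun x => by
    rw [haV, Real.sq_sqrt ha20]
    exact (le_abs_self _).trans (ha2 x)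
  obtain ⟨δ, hδ⟩ : ∃ δ, δ = -(2 * Y0 ^ 2 - S.K * Y0 + B) := ⟨_, rfl⟩
  have hδ0 : 0 < δ := by rw [hδ]; linarith
  obtain ⟨b1, hb1⟩ : ∃ b1, b1 = B + δ / 4 := ⟨_, rfl⟩
  obtain ⟨b, hb⟩ : ∃ b, b = B + δ / 2 := ⟨_, rfl⟩
  have hb10 : 0 ≤ b1 := by rw [hb1]; linarith
  have hbb : b1 < b := by rw [hb1, hb]; linarith
  have hb0 : 0 < b := lt_of_le_of_lt hb10 hbb
  have hKY : 0 < S.K - 2 * Y0 := by
    by_contra hc
    rw [not_lt] at hc
    nlinarith
  obtain ⟨κ, hκ⟩ : ∃ κ, κ = (S.K - 2 * Y0) / 2 := ⟨_, rfl⟩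
  have hκ0 : 0 < κ := by rw [hκ]; linarith
  -- the smallness conditions
  have c1 := small (f := fun τ => 1 / 2 - τ * Vm) (by fun_prop) (by norm_num)
  have c2 := small (f := fun τ => b1 - (B + τ * (2 * Vm * B + 4 * (rV * aV)))) (by fun_prop)
    (by rw [hb1]; simp only [zero_mul, add_zero]; linarith)
  have c3 := small (f := fun τ => δ / 2 - b * τ * (4 * Y0 + 2 * (b * τ))) (by fun_prop)
    (by simp only [mul_zero, zero_mul, sub_zero]; linarith)
  have c4 := small (f := fun τ => S.K - 2 * (Y0 + b * τ) - κ) (by fun_prop)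
    (by simp only [mul_zero, add_zero]; rw [hκ]; linarith)
  have c5 := small (f := fun τ => ε - b * τ) (by fun_prop)
    (by simp only [mul_zero, sub_zero]; exact hε)
  have c6 := small (f := fun τ => ε / 3 - 2 * τ * Vm ^ 2) (by fun_prop)
    (by simp only [mul_zero, zero_mul, sub_zero]; linarith)
  have c7 := small (f := fun τ => ε / 3 - τ * E0 ^ 2) (by fun_prop)
    (by simp only [zero_mul, sub_zero]; linarith)
  have c8 : ∀ᶠ τ in 𝓝[>] (0 : ℝ), 0 < τ := self_mem_nhdsWithin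
  obtain ⟨τ, c1, c2, c3, c4, c5, c6, c7, c8⟩ :=
    (c1.and (c2.and (c3.and (c4.and (c5.and (c6.and (c7.and c8))))))).exists
  have hwpos : ∀ x, 0 < S.ev x (1 - τ • V) := by
    intro x
    rw [map_sub, map_one, map_smul, smul_eq_mul]
    have h1 := mul_le_mul_of_nonneg_left ((le_abs_self _).trans (hVm x)) c8.le
    linarith
  obtain ⟨q, hq⟩ := S.inv _ hwpos
  have hwr : S.Rep (1 - τ • V) := by
    rw [sub_eq_add_neg, ← neg_smul]
    exact Rep.one.add (hV.smul _)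
  have hbar : ∀ s, 0 ≤ s → s ≤ τ →
      2 * (Y0 + b * (τ - s)) ^ 2 - S.K * (Y0 + b * (τ - s)) + b < 0 := by
    intro s hs hsτ
    have h1 : 0 ≤ b * (τ - s) := mul_nonneg hb0.le (by linarith)
    have h2 : b * (τ - s) ≤ b * τ := mul_le_mul_of_nonneg_left (by linarith) hb0.le
    obtain ⟨t, ht⟩ : ∃ t, t = b * (τ - s) := ⟨_, rfl⟩
    rw [← ht] at h1 h2 ⊢
    have h3 : 2 * (Y0 + t) ^ 2 - S.K * (Y0 + t) + b =
        -δ + δ / 2 + (t * (4 * Y0 + 2 * t) - S.K * t) := by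
      rw [hδ, hb, hδ]; ring
    have h4 : t * (4 * Y0 + 2 * t) ≤ b * τ * (4 * Y0 + 2 * (b * τ)) :=
      mul_le_mul h2 (by linarith) (by positivity) (by linarith)
    have h5 : 0 ≤ S.K * t := mul_nonneg S.K_pos.le h1
    rw [h3]
    linarith
  have hqb : ∀ x (η : J → ℝ), ∑ k, η k ^ 2 = 1 →
      S.ev x (S.G2 (q * S.Rη η (1 - τ • V))) ≤ (b1 * τ) ^ 2 := fun x η hη =>
    mult_bound c8 hV0 (fun x => (le_abs_self _).trans (hVm x))
      (by linarith) hq hB0 hb10 hrV0 haV0 (by linarith) (hB x η hη) (hrVb x η hη) (haVb x)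
  have hsteps := steps (κ := κ) hwr hq hwpos c8 hb10 hbb hY0 hbar hqb (by linarith)
  have hPr : ∀ k, Pr ((S.St (1 - τ • V) τ)^[k] 1) := by
    intro k
    induction k with
    | zero => exact Pr1
    | succ k ih =>
      rw [Function.iterate_succ_apply']
      exact PrP _ τ c8.le (hwr.mul (It_rep hwr Rep.one τ k)) (Prw τ _ ih)
  obtain ⟨ρ, hρ⟩ : ∃ ρ, ρ = 1 + τ * E0 := ⟨_, rfl⟩
  have hρ1 : 1 ≤ ρ := by
    have := mul_nonneg c8.le hE0
    rw [hρ]; linarith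
  have hρ0 : 0 < ρ := by linarith
  -- the quotients of successive iterates
  obtain ⟨C0, hC00, hC0⟩ := exists_bound (S := S) (S.G2 ((S.St (1 - τ • V) τ) 1))
  have hquot : ∀ k p, (S.St (1 - τ • V) τ)^[k] 1 * p = 1 → ∀ x,
      S.ev x (p * (S.St (1 - τ • V) τ)^[k + 1] 1) ≤
        ρ⁻¹ + |Lo| * Real.sqrt ((C0 + 1) * Real.exp (-(2 * κ * τ)) ^ k) := by
    intro k p hp x
    obtain ⟨Q, hQ⟩ : ∃ Q, Q = (C0 + 1) * Real.exp (-(2 * κ * τ)) ^ k := ⟨_, rfl⟩
    have hQ0 : 0 ≤ Q := by rw [hQ]; positivity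
    rw [← hQ]
    obtain ⟨hpos, hst⟩ := hsteps k
    obtain ⟨-, hst2⟩ := hst p hp
    have hgr := hst2 (S.St (1 - τ • V) τ 1) (C0 + 1) (St_rep hwr Rep.one τ) (by linarith)
      fun x => by
        have := (le_abs_self _).trans (hC0 x)
        linarith
    rw [← hQ, ← Function.iterate_succ_apply (S.St (1 - τ • V) τ)] at hgr
    obtain ⟨ψ', hψ'⟩ : ∃ ψ', ψ' = (S.St (1 - τ • V) τ)^[k + 1] 1 := ⟨_, rfl⟩
    obtain ⟨ψ, hψ⟩ : ∃ ψ, ψ = (S.St (1 - τ • V) τ)^[k] 1 := ⟨_, rfl⟩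
    have hnk := norm_step hV hV0 c8 hE0 (fun x => (hwpos x).le)
        (g := (S.St (1 - τ • V) τ)^[k] 1) (It_rep hwr Rep.one τ k) (by
          rw [← Function.iterate_succ_apply' (S.St (1 - τ • V) τ)]
          exact hE _ (It_rep hwr Rep.one τ _) (hPr _))
    rw [← Function.iterate_succ_apply' (S.St (1 - τ • V) τ)] at hnk
    rw [← hψ', ← hψ, ← hρ] at hnk
    rw [← hψ] at hp hpos
    have hgr' : ∀ x, S.ev x (S.G2 (p * ψ')) < Q := by
      intro x
      rw [hψ']; exact hgr x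
    rw [← hψ']
    have hosc := osc (p * ψ') (Real.sqrt Q) (Real.sqrt_nonneg _) fun x => by
      rw [Real.sq_sqrt hQ0]; exact (hgr' x).le
    by_contra hcon
    rw [not_le] at hcon
    obtain ⟨a, ha⟩ : ∃ a, a = S.ev x (p * ψ') - |Lo| * Real.sqrt Q := ⟨_, rfl⟩
    have ha1 : ρ⁻¹ < a := by rw [ha]; linarith
    have ha0 : 0 < a := (inv_pos.2 hρ0).trans ha1
    have hpt : ∀ y, S.ev y ((a ^ 2) • ((1 - τ • V) * (ψ * ψ))) ≤
        S.ev y ((1 - τ • V) * (ψ' * ψ')) := by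
      intro y
      have h1 := hosc x y
      have h2 : Lo * Real.sqrt Q ≤ |Lo| * Real.sqrt Q :=
        mul_le_mul_of_nonneg_right (le_abs_self _) (Real.sqrt_nonneg _)
      have h3 : a ≤ S.ev y (p * ψ') := by rw [ha]; linarith
      have h5 : ψ' = ψ * (p * ψ') := by rw [← mul_assoc, hp, one_mul]
      have h6 : S.ev y ψ' = S.ev y ψ * S.ev y (p * ψ') := by
        conv_lhs => rw [h5]
        rw [map_mul]
      have h7 : S.ev y ((1 - τ • V) * (ψ' * ψ')) =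
          S.ev y (p * ψ') ^ 2 * (S.ev y (1 - τ • V) * (S.ev y ψ * S.ev y ψ)) := by
        rw [map_mul (S.ev y) (1 - τ • V) (ψ' * ψ'), map_mul (S.ev y) ψ' ψ', h6]; ring
      rw [map_smul, smul_eq_mul, h7, map_mul (S.ev y) (1 - τ • V) (ψ * ψ), map_mul (S.ev y) ψ ψ]
      exact mul_le_mul_of_nonneg_right (pow_le_pow_left₀ ha0.le h3 2)
        (mul_nonneg (hwpos y).le (mul_self_nonneg _))
    have hint := S.I_mono hpt
    rw [map_smul, smul_eq_mul] at hint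
    obtain ⟨Z, hZ⟩ : ∃ Z, Z = S.I ((1 - τ • V) * (ψ * ψ)) := ⟨_, rfl⟩
    rw [← hZ] at hint hnk
    -- positivity of the norm
    have hZ0 : 0 < Z := by
      obtain ⟨z, -, hz⟩ := isCompact_univ.exists_isMinOn ⟨x0, trivial⟩
        (S.cont ((1 - τ • V) * (ψ * ψ))).continuousOn
      have hz0 : 0 < S.ev z ((1 - τ • V) * (ψ * ψ)) := by
        rw [map_mul, map_mul]
        exact mul_pos (hwpos z) (mul_pos (hpos z) (hpos z))
      have h1 := S.I_mono (f := (S.ev z ((1 - τ • V) * (ψ * ψ))) • (1 : A))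
        (g := (1 - τ • V) * (ψ * ψ)) fun y => by
          rw [map_smul, map_one, smul_eq_mul, mul_one]
          exact hz (mem_univ y)
      rw [map_smul, S.I_one, smul_eq_mul, mul_one, ← hZ] at h1
      linarith
    have h8 : 1 < ρ * a := by
      have := mul_lt_mul_of_pos_left ha1 hρ0
      rwa [mul_inv_cancel₀ hρ0.ne'] at this
    have h9 : ρ ^ 2 * (a ^ 2 * Z) ≤ Z :=
      (mul_le_mul_of_nonneg_left hint (sq_nonneg ρ)).trans hnk
    have h10 : 1 < (ρ * a) ^ 2 := by nlinarith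
    have h11 : ρ ^ 2 * (a ^ 2 * Z) = (ρ * a) ^ 2 * Z := by ring
    rw [h11] at h9
    nlinarith
  -- the number of steps
  obtain ⟨k, hk⟩ : ∃ k : ℕ,
      |Lo| * Real.sqrt ((C0 + 1) * Real.exp (-(2 * κ * τ)) ^ k) < τ * ε / (3 * ρ) := by
    have h1 : Real.exp (-(2 * κ * τ)) < 1 := by
      rw [Real.exp_lt_one_iff]
      have := mul_pos hκ0 c8
      linarith
    have h2 := (tendsto_pow_atTop_nhds_zero_of_lt_one (Real.exp_pos _).le h1).const_mul (C0 + 1)
    have h3 := (h2.sqrt).const_mul |Lo|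
    rw [mul_zero, Real.sqrt_zero, mul_zero] at h3
    exact (h3.eventually (gt_mem_nhds (by positivity))).exists
  obtain ⟨hpos, hst⟩ := hsteps k
  obtain ⟨ψ, hψ⟩ : ∃ ψ, ψ = (S.St (1 - τ • V) τ)^[k] 1 := ⟨_, rfl⟩
  obtain ⟨ψ', hψ'⟩ : ∃ ψ', ψ' = (S.St (1 - τ • V) τ)^[k + 1] 1 := ⟨_, rfl⟩
  rw [← hψ] at hpos
  obtain ⟨p, hp⟩ := S.inv _ hpos
  have hψr : S.Rep ψ := by rw [hψ]; exact It_rep hwr Rep.one τ k
  obtain ⟨hH, -⟩ := hst p (by rw [← hψ]; exact hp)
  rw [← hψ] at hH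
  have hr := hquot k p (by rw [← hψ]; exact hp)
  rw [← hψ'] at hr
  obtain ⟨w, hw⟩ : ∃ w : A, w = 1 - τ • V := ⟨_, rfl⟩
  rw [← hw] at hwpos hq hwr hqb hψ hψ'
  obtain ⟨hposs, hbs⟩ := step_bar hwr hq hwpos c8 hb10 hbb hY0 hbar hqb hψr hpos hp hH
  have hheat := P_heat (hwr.mul hψr)
  have hend : S.P τ (w * ψ) = ψ' := by
    rw [hψ', Function.iterate_succ_apply', ← hψ]
    rfl
  have hbeg : S.P 0 (w * ψ) = w * ψ := P_zero (hwr.mul hψr)
  -- the mean value theorem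
  obtain ⟨c, hc, hcs⟩ := exists_hasDerivAt_eq_slope
    (fun s => ∫ x, S.ev x W * Real.log (S.ev x (S.P s (w * ψ))) ∂ν)
    (fun s => ∫ x, S.ev x W * (S.ev x (Lap S.D (S.P s (w * ψ))) /
      S.ev x (S.P s (w * ψ))) ∂ν) c8
    (fun s hs => (dlog ν hheat W (hposs s hs.1)).continuousAt.continuousWithinAt)
    fun s hs => dlog ν hheat W (hposs s hs.1.le)
  have hc0 : 0 ≤ c := hc.1.le
  obtain ⟨pc, hpc⟩ := S.inv _ (hposs c hc0)
  refine ⟨S.P c (w * ψ), pc, hpc, hposs c hc0, P_rep (hwr.mul hψr) c, ?_, ?_, ?_⟩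
  · refine PrP _ c hc0 (hwr.mul hψr) ?_
    rw [hw]
    refine Prw τ _ ?_
    rw [hψ, hw]
    exact hPr k
  · intro x η hη
    refine (hbs c hc0 hc.2.le pc hpc x η hη).trans ?_
    have : 0 ≤ b * τ := mul_nonneg hb0.le c8.le
    exact pow_le_pow_left₀ (by linarith) (by linarith) 2
  · -- the energy
    have hpcx : ∀ x, S.ev x pc = 1 / S.ev x (S.P c (w * ψ)) := by
      intro x
      have h1 := congrArg (S.ev x) hpc
      rw [map_mul, map_one] at h1
      rw [eq_div_iff (hposs c hc0 x).ne', mul_comm]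
      exact h1
    have h1 : S.I (W * (pc * Lap S.D (S.P c (w * ψ)))) =
        ∫ x, S.ev x W * (S.ev x (Lap S.D (S.P c (w * ψ))) / S.ev x (S.P c (w * ψ))) ∂ν := by
      rw [hI]
      refine integral_congr_ae (Eventually.of_forall fun x => ?_)
      show S.ev x (W * (pc * Lap S.D (S.P c (w * ψ)))) = _
      rw [map_mul, map_mul, hpcx]
      ring
    have h2 : S.I (W * (pc * (V * S.P c (w * ψ) - Lap S.D (S.P c (w * ψ))))) =
        S.I (W * V) - S.I (W * (pc * Lap S.D (S.P c (w * ψ)))) := by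
      rw [← map_sub]
      congr 1
      linear_combination (W * V) * hpc
    rw [h2, h1, hcs, hend, hbeg, sub_zero]
    have h3 : ∫ x, S.ev x W * Real.log (S.ev x ψ') ∂ν -
        ∫ x, S.ev x W * Real.log (S.ev x (w * ψ)) ∂ν =
        ∫ x, (S.ev x W * Real.log (S.ev x ψ') - S.ev x W * Real.log (S.ev x (w * ψ))) ∂ν := by
      refine (integral_sub ?_ ?_).symm
      · refine int_cont ν ((S.cont W).mul (Continuous.log (S.cont _) fun x => ?_))
        rw [← hend]; exact (hposs τ c8.le x).ne'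
      · refine int_cont ν ((S.cont W).mul (Continuous.log (S.cont _) fun x => ?_))
        rw [← hbeg]; exact (hposs 0 le_rfl x).ne'
    rw [h3]
    have h4 : ∫ x, (S.ev x W * Real.log (S.ev x ψ') - S.ev x W * Real.log (S.ev x (w * ψ))) ∂ν ≤
        ∫ x, S.ev x (τ • (W * V - (E0 - ε) • W)) ∂ν := by
      refine integral_mono ?_ (int_cont ν (S.cont _)) fun x => ?_
      · refine (int_cont ν ((S.cont W).mul (Continuous.log (S.cont _) fun x => ?_))).sub
          (int_cont ν ((S.cont W).mul (Continuous.log (S.cont _) fun x => ?_)))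
        · rw [← hend]; exact (hposs τ c8.le x).ne'
        · rw [← hbeg]; exact (hposs 0 le_rfl x).ne'
      · show S.ev x W * Real.log (S.ev x ψ') - S.ev x W * Real.log (S.ev x (w * ψ)) ≤
          S.ev x (τ • (W * V - (E0 - ε) • W))
        rw [← mul_sub, map_smul, map_sub, map_smul, map_mul, smul_eq_mul, smul_eq_mul]
        have e1 : S.ev x ψ' = S.ev x ψ * S.ev x (p * ψ') := by
          have h5 : ψ' = ψ * (p * ψ') := by rw [← mul_assoc, hp, one_mul]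
          conv_lhs => rw [h5]
          rw [map_mul]
        have e2 : 0 < S.ev x ψ' := by rw [← hend]; exact hposs τ c8.le x
        obtain ⟨R, hR⟩ : ∃ R, R = S.ev x (p * ψ') := ⟨_, rfl⟩
        have hR0 : 0 < R := by
          rw [e1, ← hR] at e2
          exact (pos_iff_pos_of_mul_pos e2).1 (hpos x)
        have hR1 := hr x
        rw [← hR] at hR1
        rw [e1, ← hR, map_mul, Real.log_mul (hpos x).ne' hR0.ne',
          Real.log_mul (hwpos x).ne' (hpos x).ne']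
        -- the logarithm of the quotient
        have e3 : Real.log R ≤ -Real.log ρ + τ * ε / 3 := by
          have h5 := Real.log_le_sub_one_of_pos (mul_pos hR0 hρ0)
          rw [Real.log_mul hR0.ne' hρ0.ne'] at h5
          have h6 : R * ρ ≤ (ρ⁻¹ + τ * ε / (3 * ρ)) * ρ :=
            mul_le_mul_of_nonneg_right (by linarith) hρ0.le
          have h7 : (ρ⁻¹ + τ * ε / (3 * ρ)) * ρ = 1 + τ * ε / 3 := by field_simp
          linarith
        have e4 : τ * E0 - τ * (τ * E0 ^ 2) ≤ Real.log ρ := by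
          have h5 := Real.one_sub_inv_le_log_of_pos hρ0
          have h6 : τ * E0 - τ * (τ * E0 ^ 2) ≤ 1 - ρ⁻¹ := by
            have h7 : (τ * E0 - τ * (τ * E0 ^ 2)) * ρ ≤ (1 - ρ⁻¹) * ρ := by
              rw [sub_mul 1, inv_mul_cancel₀ hρ0.ne', one_mul, hρ]
              have h8 : 0 ≤ (τ * E0) ^ 3 := by
                have := mul_nonneg c8.le hE0
                positivity
              nlinarith
            exact le_of_mul_le_mul_right h7 hρ0
          linarith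
        -- the logarithm of the weight
        have e5 : -Real.log (S.ev x w) ≤ τ * S.ev x V + 2 * (τ * Vm) ^ 2 := by
          have h5 := Real.one_sub_inv_le_log_of_pos (hwpos x)
          have h6 : S.ev x w = 1 - τ * S.ev x V := by
            rw [hw, map_sub, map_one, map_smul, smul_eq_mul]
          have h7 : 0 ≤ τ * S.ev x V := mul_nonneg c8.le (hV0 x)
          have h8 : τ * S.ev x V ≤ τ * Vm :=
            mul_le_mul_of_nonneg_left ((le_abs_self _).trans (hVm x)) c8.le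
          have h9 : (S.ev x w)⁻¹ ≤ 1 + τ * S.ev x V + 2 * (τ * Vm) ^ 2 := by
            rw [inv_le_iff_one_le_mul₀ (hwpos x), h6]
            obtain ⟨y, hy⟩ : ∃ y, y = τ * S.ev x V := ⟨_, rfl⟩
            rw [← hy] at h7 h8 ⊢
            have h10 : y ^ 2 ≤ (τ * Vm) ^ 2 := pow_le_pow_left₀ h7 h8 2
            nlinarith
          linarith
        have e6 : Real.log (S.ev x ψ) + Real.log R -
            (Real.log (S.ev x w) + Real.log (S.ev x ψ)) ≤
            τ * (S.ev x V - (E0 - ε)) := by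
          have h5 : τ * (2 * τ * Vm ^ 2) ≤ τ * (ε / 3) :=
            mul_le_mul_of_nonneg_left (by linarith) c8.le
          have h6 : τ * (τ * E0 ^ 2) ≤ τ * (ε / 3) :=
            mul_le_mul_of_nonneg_left (by linarith) c8.le
          nlinarith
        calc S.ev x W * (Real.log (S.ev x ψ) + Real.log R -
            (Real.log (S.ev x w) + Real.log (S.ev x ψ)))
            ≤ S.ev x W * (τ * (S.ev x V - (E0 - ε))) := mul_le_mul_of_nonneg_left e6 (hW x)
          _ = _ := by ring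
    rw [← hI, map_smul, map_sub, map_smul, smul_eq_mul, smul_eq_mul] at h4
    have h5 : (∫ x, (S.ev x W * Real.log (S.ev x ψ') -
        S.ev x W * Real.log (S.ev x (w * ψ))) ∂ν) / τ ≤ S.I (W * V) - (E0 - ε) * S.I W := by
      rw [div_le_iff₀ c8]
      linarith
    linarith

end Geo

end

end Pool.Agent.W504.YM
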