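import Mathlib
import Pool.Agent.W504.YM.Near
import Pool.Agent.W504.YM.Rp

/-!
# Approximate ground states on the torus
-/

open MeasureTheory Matrix Set Filter Topology
open scoped Matrix.Norms.Frobenius ContDiff
open Pool.Agent.H906R3.YM

namespace Pool.Agent.W504.YM

set_option linter.unusedSectionVars false
set_option linter.unusedVariables false

noncomputable section

variable {G : Type*} [Group G] [TopologicalSpace G] {N n : ℕ} {L : LD G N n}
  {E : Type*} [Fintype E] [DecidableEq E]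

/-! ### multiplication by a central family -/

variable (L) in
/-- multiplication of the matrices -/
def ctM (c : E → G) : (E → Mat N) →ₗ[ℝ] (E → Mat N) where
  toFun M := fun e => L.rho (c e) * M e
  map_add' M M' := by
    funext e
    simp only [Pi.add_apply, mul_add]
  map_smul' t M := by
    funext e
    simp only [Pi.smul_apply, mul_smul_comm, RingHom.id_apply]

/-- multiplication of the variables of the functions by `c` -/
def cs (c : E → G) : Sm L E →ₐ[ℝ] Sm L E where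
  toFun F := ⟨fun U => F.1 (c * U), by
    obtain ⟨F, f, hf, h⟩ := F
    refine ⟨fun M => f (LinearMap.toContinuousLinearMap (ctM L c) M),
      hf.comp (LinearMap.toContinuousLinearMap (ctM L c)).contDiff, fun U => ?_⟩
    show F (c * U) = f (ctM L c (L.mat U))
    have h1 : ctM L c (L.mat U) = L.mat (c * U) := by
      funext e
      show L.rho (c e) * L.rho (U e) = L.rho ((c * U) e)
      rw [← map_mul]; rfl
    rw [h1]; exact h _⟩
  map_one' := rfl
  map_mul' _ _ := rfl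
  map_zero' := rfl
  map_add' _ _ := rfl
  commutes' _ := rfl

lemma ev_cs (c : E → G) (F : Sm L E) (U : E → G) : L.ev U (cs c F) = L.ev (c * U) F := rfl

lemma Dv_cs {c : E → G} (hc : ∀ e g, c e * g = g * c e) (j : E × Fin n) (F : Sm L E) :
    L.Dv j (cs c F) = cs c (L.Dv j F) := by
  refine ev_ext fun U => ?_
  show (L.Dv j (cs c F)).1 U = (L.Dv j F).1 (c * U)
  rw [Dv_apply, Dv_apply]
  unfold LD.dF
  congr 1
  funext t
  show F.1 (c * L.shift j.1 j.2 t U) = F.1 (L.shift j.1 j.2 t (c * U))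
  have h1 : c * Pi.mulSingle j.1 (L.ex j.2 t) = Pi.mulSingle j.1 (L.ex j.2 t) * c := by
    funext e
    rw [Pi.mul_apply, Pi.mul_apply, hc]
  unfold LD.shift
  rw [← mul_assoc, ← mul_assoc, h1]

lemma Lap_cs {c : E → G} (hc : ∀ e g, c e * g = g * c e) (F : Sm L E) :
    Lap L.Dv (cs c F) = cs c (Lap L.Dv F) := by
  unfold Lap
  rw [map_sum]
  exact Finset.sum_congr rfl fun j _ => by rw [Dv_cs hc, Dv_cs hc]

variable [IsTopologicalGroup G] [CompactSpace G] [SecondCountableTopology G]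
  [MeasurableSpace G] [BorelSpace G] {μ : Measure G} [IsProbabilityMeasure μ]
  [μ.IsMulLeftInvariant] [μ.IsOpenPosMeasure] {K : ℝ} {hK : 0 < K} {hc : Curv L K}

lemma cs_P {c : E → G} (hcc : ∀ e g, c e * g = g * c e) {f : Sm L E}
    (hf : (geo μ L E hK hc).Rep f) (hi : cs c f = f) {s : ℝ} (hs : 0 ≤ s) :
    cs c ((geo μ L E hK hc).P s f) = (geo μ L E hK hc).P s f := by
  have h1 : (geo μ L E hK hc).Heat fun s => cs c ((geo μ L E hK hc).P s f) := by
    have h2 := FC.map (Geo.P_heat hf) (cs (L := L) c).toLinearMap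
    unfold Geo.Heat
    have h3 : ∀ s, Lap (geo μ L E hK hc).D (cs c ((geo μ L E hK hc).P s f)) =
        cs c (Lap (geo μ L E hK hc).D ((geo μ L E hK hc).P s f)) := fun s => Lap_cs hcc _
    simp only [h3]
    exact h2
  exact h1.unique (Geo.P_heat hf) (by rw [Geo.P_zero hf, hi]) hs

variable {D l : ℕ} [NeZero l]

/-- the central families which do not change the potential -/
def CInv (f : Sm L (Ed D l)) : Prop := ∀ c : Ed D l → G, (∀ e g, c e * g = g * c e) →
  (∀ U, L.ev (c * U) (VT L D l) = L.ev U (VT L D l)) → cs c f = f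

/-- For every weight `W` there is a smooth positive gauge invariant function `ψ` with
`H ψ ≥ (E₀ - ε) ψ` in the mean with respect to `W`, the second derivatives of `log ψ` being
bounded by `Y₀ + ε`. -/
theorem near_ground (hK : 0 < K) (hc : Curv L K) {r : ℝ} (hr : Cn L r) (hD : 1 ≤ D) {g : ℝ}
    (hg : 0 < g) {Y0 : ℝ} (hY0 : 0 < Y0)
    (hY : 2 * Y0 ^ 2 - K * Y0 + 16 * ((D : ℝ) - 1) / g ^ 4 < 0)
    {E0 : ℝ} (hE0 : 0 ≤ E0)
    (hE : ∀ f : Sm L (Ed D l), Inv f → E0 * L.I μ (f * f) ≤ en μ g f)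
    {W : Sm L (Ed D l)} (hW : ∀ x, 0 ≤ L.ev x W) {ε : ℝ} (hε : 0 < ε) :
    ∃ ψ p : Sm L (Ed D l), ψ * p = 1 ∧ (∀ x, 0 < L.ev x ψ) ∧ Inv ψ ∧
      (∀ c : Ed D l → G, (∀ e g, c e * g = g * c e) →
        (∀ U, L.ev (c * U) (VT L D l) = L.ev U (VT L D l)) →
        ∀ U, L.ev (c * U) ψ = L.ev U ψ) ∧
      (∀ x (ξ : Ed D l × Fin n → ℝ), ∑ i, ∑ j, ξ j * ξ i * L.ev x (L.Dv j (p * L.Dv i ψ)) ≤
        (Y0 + ε) * ∑ j, ξ j ^ 2) ∧
      (E0 - ε) * L.I μ W ≤
        L.I μ (W * (p * ((1 / g ^ 2) • (VT L D l * ψ) - (g ^ 2 / 2) • Lap L.Dv ψ))) := by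
  have hD' : (0 : ℝ) ≤ D - 1 := by
    have : (1 : ℝ) ≤ D := by exact_mod_cast hD
    linarith
  have hg2 : 0 < g ^ 2 := by positivity
  have hg4 : 0 < g ^ 4 := by positivity
  obtain ⟨S, hS⟩ : ∃ S, S = geo μ L (Ed D l) hK hc := ⟨_, rfl⟩
  have hSD : S.D = L.Dv := by rw [hS]; rfl
  have hSI : S.I = L.I μ := by rw [hS]; rfl
  have hSK : S.K = K := by rw [hS]; rfl
  have hSG : ∀ f, S.G2 f = Gam L.Dv f f := by intro f; rw [hS]; rfl
  have hSev : ∀ x, S.ev x = L.ev x := by intro x; rw [hS]; rfl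
  obtain ⟨V, hV⟩ : ∃ V : Sm L (Ed D l), V = (2 / g ^ 4) • VT L D l := ⟨_, rfl⟩
  have hVrep : S.Rep V := by rw [hV, hS]; exact Rep_VT.smul _
  have hV0 : ∀ x, 0 ≤ S.ev x V := by
    intro x
    rw [hSev, hV, map_smul, smul_eq_mul]
    exact mul_nonneg (by positivity) (we_bound x)
  have hen : ∀ f, en μ g f = g ^ 2 / 2 * (S.I (S.G2 f) + S.I (V * (f * f))) := by
    intro f
    unfold en
    rw [hSG, hSI, hV, smul_mul_assoc, map_smul, smul_eq_mul]
    field_simp
  obtain ⟨B, hB⟩ : ∃ B, B = 16 * ((D : ℝ) - 1) / g ^ 4 := ⟨_, rfl⟩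
  have hB0 : 0 ≤ B := by rw [hB]; positivity
  have hBb : ∀ x (η : Ed D l × Fin n → ℝ), ∑ k, η k ^ 2 = 1 →
      S.ev x (S.G2 (S.Rη η V)) ≤ B ^ 2 := by
    intro x η hη
    have h1 : S.Rη η V = (2 / g ^ 4) • ∑ k, η k • Rv L k (VT L D l) := by
      rw [hS, hV]
      unfold Geo.Rη
      rw [Finset.smul_sum]
      refine Finset.sum_congr rfl fun k _ => ?_
      rw [Derivation.map_smul, smul_comm]
      rfl
    have h2 := VT_bound (L := L) η hD x
    rw [hη, mul_one] at h2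
    rw [h1, Geo.G2_smul, map_smul, smul_eq_mul, hSG, hSev]
    have h3 : L.ev x (Gam L.Dv (∑ k, η k • Rv L k (VT L D l))
        (∑ k, η k • Rv L k (VT L D l))) =
        ∑ j, L.ev x (L.Dv j (∑ k, η k • Rv L k (VT L D l))) ^ 2 := by
      unfold Gam
      rw [map_sum]
      exact Finset.sum_congr rfl fun j _ => by rw [map_mul, sq]
    rw [h3]
    calc (2 / g ^ 4) ^ 2 * ∑ j, L.ev x (L.Dv j (∑ k, η k • Rv L k (VT L D l))) ^ 2
        ≤ (2 / g ^ 4) ^ 2 * (8 * ((D : ℝ) - 1)) ^ 2 :=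
          mul_le_mul_of_nonneg_left h2 (sq_nonneg _)
      _ = B ^ 2 := by rw [hB]; ring
  have hosc : ∀ f c, 0 ≤ c → (∀ x, S.ev x (S.G2 f) ≤ c ^ 2) → ∀ x y,
      S.ev x f - S.ev y f ≤ (Fintype.card (Ed D l) * r) * c := by
    intro f c hc0 hf x y
    rw [hSev, hSev]
    exact osc_all hr f hc0 (fun z => by have := hf z; rwa [hSG, hSev] at this) x y
  have hE0' : 0 ≤ 2 / g ^ 2 * E0 := by positivity
  obtain ⟨ε', hε'⟩ : ∃ ε', ε' = min ε (2 / g ^ 2 * ε) := ⟨_, rfl⟩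
  have hε'0 : 0 < ε' := by rw [hε']; exact lt_min hε (by positivity)
  have hε'1 : ε' ≤ ε := by rw [hε']; exact min_le_left _ _
  have hε'2 : ε' ≤ 2 / g ^ 2 * ε := by rw [hε']; exact min_le_right _ _
  have hCV : CInv V := by
    intro c h1 h2
    rw [hV, map_smul]
    congr 1
    exact ev_ext fun U => h2 U
  obtain ⟨ψ, p, h1, h2, h3, ⟨h4, h5⟩, h6, h7⟩ := Geo.near_abs (S := S)
    (Measure.pi fun _ : Ed D l => μ) (fun f => by rw [hSI, I_apply]; simp only [hSev]; rfl)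
    hVrep hV0 hB0 hBb hosc hY0 (by rw [hSK, hB]; exact hY)
    (fun f => Inv f ∧ CInv f) ⟨Inv.one, fun c _ _ => map_one _⟩ (fun τ f hf => by
      refine ⟨(Inv.one.sub ?_).mul hf.1, fun c e1 e2 => ?_⟩
      · refine Inv.smul τ ?_
        rw [hV]
        exact Inv.smul _ fun γ => gs_VT γ
      · rw [map_mul, map_sub, map_one, map_smul, hCV c e1 e2, hf.2 c e1 e2]) (fun f s hs hf hi => by
        rw [hS] at hf ⊢
        exact ⟨Inv_P hf hi.1 hs, fun c e1 e2 => cs_P e1 hf (hi.2 c e1 e2) hs⟩)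
    hE0' (fun f hf hi => by
      have h1 := hE f hi.1
      rw [hen] at h1
      rw [hSI] at h1 ⊢
      have h2 := mul_le_mul_of_nonneg_left h1 (show 0 ≤ 2 / g ^ 2 by positivity)
      rw [← mul_assoc, ← mul_assoc] at h2
      have e5 : 2 / g ^ 2 * (g ^ 2 / 2) = 1 := by field_simp
      rw [e5, one_mul] at h2
      exact h2) (W := W) (fun x => by rw [hSev]; exact hW x) hε'0
  refine ⟨ψ, p, h1, fun x => by rw [← hSev]; exact h2 x, h4, ?_, ?_, ?_⟩
  · intro c e1 e2 U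
    have e3 := congrArg (L.ev U) (h5 c e1 e2)
    exact e3
  · intro x ξ
    have e1 := Geo.hess_le (S := S) h1 (x := x) (Y := Y0 + ε') (by linarith) (h6 x) ξ
    rw [hSD, hSev] at e1
    refine e1.trans (mul_le_mul_of_nonneg_right (by linarith) ?_)
    exact Finset.sum_nonneg fun j _ => sq_nonneg _
  · rw [hSI, hSD] at h7
    have hIW : 0 ≤ L.I μ W := I_nonneg μ hW
    have e1 : (1 / g ^ 2) • (VT L D l * ψ) - (g ^ 2 / 2) • Lap L.Dv ψ =
        (g ^ 2 / 2) • (V * ψ - Lap L.Dv ψ) := by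
      rw [hV, smul_sub, smul_mul_assoc, smul_smul]
      congr 2
      field_simp
    rw [e1, mul_smul_comm, mul_smul_comm, map_smul, smul_eq_mul]
    refine le_trans ?_ (mul_le_mul_of_nonneg_left h7 (show 0 ≤ g ^ 2 / 2 by positivity))
    rw [← mul_assoc]
    refine mul_le_mul_of_nonneg_right ?_ hIW
    have e2 : g ^ 2 / 2 * (2 / g ^ 2 * E0 - ε') = E0 - g ^ 2 / 2 * ε' := by field_simp
    rw [e2]
    have e3 : g ^ 2 / 2 * ε' ≤ g ^ 2 / 2 * (2 / g ^ 2 * ε) :=
      mul_le_mul_of_nonneg_left hε'2 (by positivity)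
    have e4 : g ^ 2 / 2 * (2 / g ^ 2 * ε) = ε := by field_simp
    linarith

end

end Pool.Agent.W504.YM
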